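import Mathlib
import Pool.Agent.Work.MP_73869e_nt.AP.Fam
import Pool.Agent.Work.MP_2dba45_nt.Sv.Defs

set_option autoImplicit false

/-!
MP_73869e_nt, almost all n have many P_5 in (n^2, n^2 + c (log_2 n)^2]: definitions.
-/

namespace Pool.Agent.Work.MP_73869e_nt.P5

open Finset Filter Pool.Agent.Work.MP_2dba45_nt.Sel Pool.Agent.Work.MP_73869e_nt.AP
open Pool.Agent.Work.MP_2dba45_nt.Sv (pw PQ cost costs phi)

/-- exponent of the sifting limit -/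
noncomputable def zE : ℝ := 19 / 100
/-- exponent of the largest weighted primes -/
noncomputable def yE : ℝ := 9 / 20
/-- factor of the weights -/
noncomputable def lam5 : ℝ := 13 / 20

/-- Richert's weight as a function of the cost, with `1000 k` boxes -/
noncomputable def wt5 (k x : ℕ) : ℝ := 1 - ((x : ℝ) - 1) / (450 * k)

/-- coefficients of the weighted sieve -/
noncomputable def ph (k N : ℕ) (T : Finset ℕ) : ℝ :=
  phi (190 * k) (450 * k) (495 * k) (wt5 k) lam5 (costs (cost (1000 * k) N) T)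

/-- densities of dimension one -/
structure Dim1 (h : ℕ → ℝ) : Prop where
  nn : ∀ p, 0 ≤ h p
  le : ∀ p : ℕ, p.Prime → h p ≤ 2 / p
  law : ∃ C : ℝ, 0 ≤ C ∧ ∀ w x : ℝ, 2 ≤ w → w ≤ x →
    |∑ p ∈ (Ico ⌈w⌉₊ ⌈x⌉₊).filter Nat.Prime, h p -
      (Real.log (Real.log x) - Real.log (Real.log w))| ≤ C / Real.log w

/-- local density of `n ^ 2 + q j ^ 2` at the primes not dividing `q j` -/
noncomputable def gq (q p : ℕ) : ℝ := if p.Prime ∧ jacobiSym p q = 1 then 2 / (p : ℝ) else 0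

/-- the primes that can divide `n ^ 2 + q j ^ 2` -/
def PA (q N : ℕ) : Finset ℕ := (Ioo (zN N) N).filter (fun p => p.Prime ∧ jacobiSym p q = 1)

/-- the primes below `N ^ δ` -/
noncomputable def Psm (q : ℕ) (δ : ℝ) (N : ℕ) : Finset ℕ := (PA q N).filter (fun p => p < pw N δ)

/-- the primes from `N ^ δ` on -/
noncomputable def Pbg (q : ℕ) (δ : ℝ) (N : ℕ) : Finset ℕ := (PA q N).filter (fun p => pw N δ ≤ p)

/-- linear divisor sum -/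
noncomputable def LS (E : Finset (Finset ℕ)) (om : Finset ℕ → ℝ) (k n : ℕ) : ℝ :=
  ∑ T ∈ E, if (∀ p ∈ T, p ∣ n ^ 2 + k) then om T else 0

/-- its main term -/
noncomputable def ML (E : Finset (Finset ℕ)) (om : Finset ℕ → ℝ) : ℝ := ∑ T ∈ E, om T * gg g T

/-- Brun-Hooley weights for the primes of `P` below `z` with parameter `b` -/
structure BHW (P : Finset ℕ) (h : ℕ → ℝ) (z b : ℕ) (lp dp : Finset ℕ → ℝ) : Prop where
  lp_le : ∀ d, |lp d| ≤ 1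
  dp_le : ∀ d, |dp d| ≤ #d
  supp : ∀ d, lp d ≠ 0 ∨ dp d ≠ 0 → d ⊆ P ∧ ((∏ p ∈ d, p : ℕ) : ℝ) ≤ (z : ℝ) ^ (4 * b + 10)
  low : ∀ B ⊆ P, (if B = ∅ then (1 : ℝ) else 0) ≤ ∑ d ∈ B.powerset, lp d
  up : ∀ B ⊆ P, ∑ d ∈ B.powerset, lp d - (if B = ∅ then (1 : ℝ) else 0) ≤ ∑ d ∈ B.powerset, dp d
  main1 : ∏ p ∈ P, (1 - h p) ≤ ∑ d ∈ P.powerset, lp d * ∏ p ∈ d, h p
  main2 : ∑ d ∈ P.powerset, lp d * ∏ p ∈ d, h p ≤ 2 * ∏ p ∈ P, (1 - h p)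
  errm : ∑ d ∈ P.powerset, dp d * ∏ p ∈ d, h p ≤ Real.exp (-b) * ∏ p ∈ P, (1 - h p)
  sq : ∑ d ∈ P.powerset, ∑ e ∈ P.powerset, lp d * lp e * ∏ p ∈ d ∪ e, h p ≤
    4 * ∏ p ∈ P, (1 - h p)

/-- the weights for all `q` in `K` -/
def Env (δ : ℝ) (b N : ℕ) (K : Finset ℕ) (lp dp : ℕ → Finset ℕ → ℝ) : Prop :=
  ∀ q ∈ K, BHW (Psm q δ N) g (pw N δ) b (lp q) (dp q)

/-- main term of the small primes -/
noncomputable def ThM (δ : ℝ) (N : ℕ) (lp : ℕ → Finset ℕ → ℝ) (q : ℕ) : ℝ :=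
  ML (Psm q δ N).powerset (lp q)

/-- main term of the large primes -/
noncomputable def WM (δ : ℝ) (κ N q : ℕ) : ℝ := ML (Pbg q δ N).powerset (ph κ N)

/-- coefficient of a shift -/
noncomputable def c5 (δ : ℝ) (w N : ℕ) (lp : ℕ → Finset ℕ → ℝ) (x : (_ : ℕ) × ℕ) : ℝ :=
  1 / (VV {x.1 * x.2 ^ 2} w N * ThM δ N lp x.1)

noncomputable def th (δ : ℝ) (N : ℕ) (lp : ℕ → Finset ℕ → ℝ) (x : (_ : ℕ) × ℕ) (n : ℕ) : ℝ :=
  LS (Psm x.1 δ N).powerset (lp x.1) (x.1 * x.2 ^ 2) n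

noncomputable def wv (δ : ℝ) (κ N : ℕ) (x : (_ : ℕ) × ℕ) (n : ℕ) : ℝ :=
  LS (Pbg x.1 δ N).powerset (ph κ N) (x.1 * x.2 ^ 2) n

/-- no middle prime divides the shifted square -/
def Ro (δ : ℝ) (N : ℕ) (x : (_ : ℕ) × ℕ) (n : ℕ) : Prop :=
  ∀ p ∈ Psm x.1 δ N, ¬ p ∣ n ^ 2 + x.1 * x.2 ^ 2

open Classical in
noncomputable def uu (δ : ℝ) (κ w N a : ℕ) (lp : ℕ → Finset ℕ → ℝ) (x : (_ : ℕ) × ℕ) (n : ℕ) : ℝ :=
  c5 δ w N lp x * (if n ∈ AA {x.1 * x.2 ^ 2} w N a then th δ N lp x n * wv δ κ N x n else 0)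

open Classical in
noncomputable def t5 (δ : ℝ) (w N a : ℕ) (lp : ℕ → Finset ℕ → ℝ) (x : (_ : ℕ) × ℕ) (n : ℕ) : ℝ :=
  c5 δ w N lp x * (if n ∈ AA {x.1 * x.2 ^ 2} w N a then th δ N lp x n else 0)

open Classical in
noncomputable def ee (δ : ℝ) (w N a : ℕ) (lp : ℕ → Finset ℕ → ℝ) (x : (_ : ℕ) × ℕ) (n : ℕ) : ℝ :=
  c5 δ w N lp x * (if n ∈ AA {x.1 * x.2 ^ 2} w N a then
    th δ N lp x n - (if Ro δ N x n then 1 else 0) else 0)

/-- a success: no prime factor below `N ^ (19/100)` and a small weighted number of prime factors -/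
def Gd (δ : ℝ) (κ w N a : ℕ) (x : (_ : ℕ) × ℕ) (n : ℕ) : Prop :=
  n ∈ AA {x.1 * x.2 ^ 2} w N a ∧ Ro δ N x n ∧
    (∀ p ∈ Pbg x.1 δ N, p < pw N zE → ¬ p ∣ n ^ 2 + x.1 * x.2 ^ 2) ∧
    lam5 * ∑ p ∈ (Pbg x.1 δ N).filter (fun p => pw N zE ≤ p ∧ p < pw N yE ∧
      p ∣ n ^ 2 + x.1 * x.2 ^ 2), wt5 κ (cost (1000 * κ) N p) < 1

/-- the residue class of n modulo the primes up to w -/
def NN5 (w N a : ℕ) : Finset ℕ := (Ioc N (2 * N)).filter (fun n => n % primorial w = a)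

end Pool.Agent.Work.MP_73869e_nt.P5
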