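import Mathlib
import Pool.Agent.Work.MP_2dba45_nt.Sv.BHa

set_option autoImplicit false

/-!
Module BQa (size M). Second moment of the truncated inclusion-exclusion in one block.
For B ⊆ A put Pr(B) = ∏_{p in B} h p * ∏_{p in A \ B} (1 - h p) ≥ 0. For W ⊆ A:
sum over B with W ⊆ B ⊆ A of Pr(B) = ∏_{p in W} h p (Finset.prod_add on A \ W). Hence
the left side is sum_B Pr(B) Y_B^2, Y_B = sum over u ⊆ B, #u ≤ b of (-1)^#u, and the last double sum is
sum_B Pr(B) E_B^2, E_B = number of u ⊆ B with #u = b+1. By ysum_ge and ysum_le with g = 1 on B (b even):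
1_{B=∅} ≤ Y_B ≤ 1_{B=∅} + E_B, and E_∅ = 0, so Y_B^2 ≤ 1_{B=∅} + E_B^2, Pr(∅) = ∏_A (1 - h p).
-/

namespace Pool.Agent.Work.MP_73869e_nt.P5

open Finset

/-- the weight of a subset -/
private noncomputable def wB (h : ℕ → ℝ) (A B : Finset ℕ) : ℝ :=
  (∏ p ∈ B, h p) * ∏ p ∈ A \ B, (1 - h p)

private theorem wB_nonneg (h : ℕ → ℝ) (A : Finset ℕ) (hh : ∀ p ∈ A, 0 ≤ h p ∧ h p ≤ 1)
    {B : Finset ℕ} (hB : B ∈ A.powerset) : 0 ≤ wB h A B := by
  rw [Finset.mem_powerset] at hB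
  refine mul_nonneg (Finset.prod_nonneg fun p hp => (hh p (hB hp)).1)
    (Finset.prod_nonneg fun p hp => ?_)
  linarith [(hh p (Finset.mem_sdiff.1 hp).1).2]

private theorem wB_sum (h : ℕ → ℝ) {A W : Finset ℕ} (hW : W ⊆ A) :
    ∑ B ∈ A.powerset, (if W ⊆ B then wB h A B else 0) = ∏ p ∈ W, h p := by
  have h1 := Finset.prod_add (fun p => h p) (fun p => if p ∈ W then 0 else 1 - h p) A
  have h2 : ∏ p ∈ A, (h p + if p ∈ W then 0 else 1 - h p) = ∏ p ∈ W, h p := by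
    have h3 : ∀ p ∈ A, (h p + if p ∈ W then 0 else 1 - h p) = if p ∈ W then h p else 1 := by
      intro p _
      split_ifs <;> ring
    rw [Finset.prod_congr rfl h3, Finset.prod_ite_mem, Finset.inter_eq_right.2 hW]
  rw [← h2, h1]
  refine Finset.sum_congr rfl fun B _ => ?_
  split_ifs with hWB
  · unfold wB
    congr 1
    refine Finset.prod_congr rfl fun p hp => ?_
    rw [if_neg fun hpW => (Finset.mem_sdiff.1 hp).2 (hWB hpW)]
  · obtain ⟨p, hpW, hpB⟩ := Finset.not_subset.1 hWB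
    have h3 : ∏ i ∈ A \ B, (if i ∈ W then (0 : ℝ) else 1 - h i) = 0 :=
      Finset.prod_eq_zero (Finset.mem_sdiff.2 ⟨hW hpW, hpB⟩) (if_pos hpW)
    rw [h3, mul_zero]

private theorem dbl (h : ℕ → ℝ) (A : Finset ℕ) (P : Finset ℕ → Prop) [DecidablePred P]
    (c : Finset ℕ → ℝ) :
    ∑ u ∈ A.powerset.filter P, ∑ v ∈ A.powerset.filter P, c u * c v * ∏ p ∈ u ∪ v, h p =
      ∑ B ∈ A.powerset, wB h A B * (∑ u ∈ B.powerset.filter P, c u) ^ 2 := by
  have h1 : ∀ B ∈ A.powerset, ∑ u ∈ B.powerset.filter P, c u =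
      ∑ u ∈ A.powerset.filter P, if u ⊆ B then c u else 0 := by
    intro B hB
    rw [Finset.mem_powerset] at hB
    rw [← Finset.sum_filter]
    refine Finset.sum_congr ?_ fun _ _ => rfl
    ext u
    simp only [Finset.mem_filter, Finset.mem_powerset]
    constructor
    · rintro ⟨h2, h3⟩
      exact ⟨⟨h2.trans hB, h3⟩, h2⟩
    · rintro ⟨⟨_, h3⟩, h2⟩
      exact ⟨h2, h3⟩
  have h2 : ∀ B ∈ A.powerset, wB h A B * (∑ u ∈ B.powerset.filter P, c u) ^ 2 =
      ∑ u ∈ A.powerset.filter P, ∑ v ∈ A.powerset.filter P,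
        c u * c v * if u ∪ v ⊆ B then wB h A B else 0 := by
    intro B hB
    rw [h1 B hB, sq, Finset.sum_mul_sum, Finset.mul_sum]
    refine Finset.sum_congr rfl fun u _ => ?_
    rw [Finset.mul_sum]
    refine Finset.sum_congr rfl fun v _ => ?_
    by_cases hu : u ⊆ B
    · by_cases hv : v ⊆ B
      · rw [if_pos hu, if_pos hv, if_pos (Finset.union_subset hu hv)]
        ring
      · rw [if_neg hv, if_neg fun hc => hv (Finset.union_subset_right hc)]
        ring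
    · rw [if_neg hu, if_neg fun hc => hu (Finset.union_subset_left hc)]
      ring
  conv_rhs => rw [Finset.sum_congr rfl h2, Finset.sum_comm]
  refine Finset.sum_congr rfl fun u hu => ?_
  rw [Finset.sum_comm]
  refine Finset.sum_congr rfl fun v hv => ?_
  rw [← Finset.mul_sum, wB_sum h (Finset.union_subset
    (Finset.mem_powerset.1 (Finset.mem_filter.1 hu).1)
    (Finset.mem_powerset.1 (Finset.mem_filter.1 hv).1))]

/-- the double sum is a sum of squares -/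
theorem q_block_nonneg (b : ℕ) (h : ℕ → ℝ) (A : Finset ℕ)
    (hh : ∀ p ∈ A, 0 ≤ h p ∧ h p ≤ 1) :
    0 ≤ ∑ u ∈ A.powerset.filter (fun u => #u ≤ b), ∑ v ∈ A.powerset.filter (fun v => #v ≤ b),
      (-1 : ℝ) ^ #u * (-1) ^ #v * ∏ p ∈ u ∪ v, h p := by
  rw [dbl h A (fun u => #u ≤ b) (fun u => (-1 : ℝ) ^ #u)]
  exact Finset.sum_nonneg fun B hB => mul_nonneg (wB_nonneg h A hh hB) (sq_nonneg _)

theorem q_block (b : ℕ) (hb : Even b) (h : ℕ → ℝ) (A : Finset ℕ)
    (hh : ∀ p ∈ A, 0 ≤ h p ∧ h p ≤ 1) :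
    ∑ u ∈ A.powerset.filter (fun u => #u ≤ b), ∑ v ∈ A.powerset.filter (fun v => #v ≤ b),
      (-1 : ℝ) ^ #u * (-1) ^ #v * ∏ p ∈ u ∪ v, h p ≤
    ∏ p ∈ A, (1 - h p) + ∑ u ∈ A.powerset.filter (fun u => #u = b + 1),
      ∑ v ∈ A.powerset.filter (fun v => #v = b + 1), ∏ p ∈ u ∪ v, h p := by
  have e1 := dbl h A (fun u => #u = b + 1) (fun _ => 1)
  simp only [one_mul] at e1
  rw [dbl h A (fun u => #u ≤ b) (fun u => (-1 : ℝ) ^ #u), e1]
  have e2 : ∏ p ∈ A, (1 - h p) = ∑ B ∈ A.powerset, wB h A B * if B = ∅ then 1 else 0 := by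
    rw [Finset.sum_eq_single_of_mem ∅ (Finset.empty_mem_powerset A)
      (fun B _ hB => by rw [if_neg hB, mul_zero])]
    simp [wB]
  rw [e2, ← Finset.sum_add_distrib]
  refine Finset.sum_le_sum fun B hB => ?_
  rw [← mul_add]
  refine mul_le_mul_of_nonneg_left ?_ (wB_nonneg h A hh hB)
  have h1 := MP_2dba45_nt.Sv.ysum_ge b hb (fun _ => 1) B (fun _ _ => ⟨zero_le_one, le_rfl⟩)
  have h2 := MP_2dba45_nt.Sv.ysum_le b hb (fun _ => 1) B (fun _ _ => ⟨zero_le_one, le_rfl⟩)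
  unfold MP_2dba45_nt.Sv.esum at h2
  unfold MP_2dba45_nt.Sv.ysum at h1 h2
  simp only [Finset.prod_const_one, mul_one, sub_self] at h1 h2
  by_cases hBe : B = ∅
  · subst hBe
    rw [if_pos rfl]
    simp only [Finset.prod_empty] at h1 h2
    have h3 : (∅ : Finset ℕ).powerset.filter (fun T => #T = b + 1) = ∅ := by
      ext T
      simp only [Finset.mem_filter, Finset.mem_powerset, Finset.subset_empty, Finset.notMem_empty,
        iff_false]
      rintro ⟨rfl, h4⟩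
      simp at h4
    rw [h3] at h2 ⊢
    simp only [Finset.sum_empty, add_zero] at h2 ⊢
    rw [le_antisymm h2 h1]
    norm_num
  · rw [if_neg hBe]
    obtain ⟨p, hp⟩ := Finset.nonempty_iff_ne_empty.2 hBe
    rw [Finset.prod_eq_zero hp rfl] at h1 h2
    rw [zero_add] at h2 ⊢
    exact pow_le_pow_left₀ h1 h2 2

end Pool.Agent.Work.MP_73869e_nt.P5
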