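import Mathlib
import Pool.Agent.Work.MP_2dba45_nt.Sv.BHa

set_option autoImplicit false

/-!
Module BQb (size M). The error term of the second moment in one block.
Group the pairs (u,v) by W = u ∪ v: s ≤ #W ≤ 2s and the number of pairs of subsets of W is 4^#W; so
the left side is at most sum over t in [s,2s] of 4^t * (sum over W ⊆ A with #W = t of ∏_W h), and the
inner sum is at most (sum_A h)^t/t! (Sv.esum_le for t ≥ 1, file Sv/BHa.lean; t = 0 is trivial).
-/

namespace Pool.Agent.Work.MP_73869e_nt.P5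

open Finset

theorem q_err (s : ℕ) (h : ℕ → ℝ) (A : Finset ℕ) (hh : ∀ p ∈ A, 0 ≤ h p) :
    ∑ u ∈ A.powerset.filter (fun u => #u = s), ∑ v ∈ A.powerset.filter (fun v => #v = s),
      ∏ p ∈ u ∪ v, h p ≤
    ∑ t ∈ Icc s (2 * s), (4 : ℝ) ^ t * ((∑ p ∈ A, h p) ^ t / (t.factorial : ℝ)) := by
  classical
  have hprod : ∀ W ∈ A.powerset, 0 ≤ ∏ p ∈ W, h p := fun W hW =>
    Finset.prod_nonneg fun p hp => hh p (Finset.mem_powerset.1 hW hp)
  have hlay : ∀ t, ∑ W ∈ A.powerset.filter (fun W => #W = t), ∏ p ∈ W, h p ≤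
      (∑ p ∈ A, h p) ^ t / (t.factorial : ℝ) := by
    intro t
    cases t with
    | zero =>
      have h1 : A.powerset.filter (fun W => #W = 0) = {∅} := by
        ext W
        simp only [Finset.mem_filter, Finset.mem_powerset, Finset.mem_singleton,
          Finset.card_eq_zero]
        constructor
        · exact fun h => h.2
        · rintro rfl
          exact ⟨Finset.empty_subset _, rfl⟩
      rw [h1]
      simp
    | succ t => exact MP_2dba45_nt.Sv.esum_le t h A hh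
  set S := A.powerset.filter (fun u => #u = s) with hS
  set T := A.powerset.filter (fun W => s ≤ #W ∧ #W ≤ 2 * s) with hT
  have hmaps : ∀ x ∈ S ×ˢ S, x.1 ∪ x.2 ∈ T := by
    intro x hx
    obtain ⟨h1, h2⟩ := Finset.mem_product.1 hx
    obtain ⟨h1, h3⟩ := Finset.mem_filter.1 h1
    obtain ⟨h2, h4⟩ := Finset.mem_filter.1 h2
    refine Finset.mem_filter.2 ⟨Finset.mem_powerset.2 (Finset.union_subset
      (Finset.mem_powerset.1 h1) (Finset.mem_powerset.1 h2)), ?_, ?_⟩
    · rw [← h3]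
      exact Finset.card_le_card Finset.subset_union_left
    · have := Finset.card_union_le x.1 x.2
      omega
  have e1 : ∑ u ∈ S, ∑ v ∈ S, ∏ p ∈ u ∪ v, h p =
      ∑ W ∈ T, ∑ x ∈ (S ×ˢ S).filter (fun x => x.1 ∪ x.2 = W), ∏ p ∈ x.1 ∪ x.2, h p := by
    rw [Finset.sum_fiberwise_of_maps_to hmaps, Finset.sum_product]
  have e2 : ∀ W ∈ T, ∑ x ∈ (S ×ˢ S).filter (fun x => x.1 ∪ x.2 = W), ∏ p ∈ x.1 ∪ x.2, h p ≤
      (4 : ℝ) ^ #W * ∏ p ∈ W, h p := by
    intro W hW
    have h0 := hprod W (Finset.mem_filter.1 hW).1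
    have h1 : ∑ x ∈ (S ×ˢ S).filter (fun x => x.1 ∪ x.2 = W), ∏ p ∈ x.1 ∪ x.2, h p =
        #((S ×ˢ S).filter (fun x => x.1 ∪ x.2 = W)) * ∏ p ∈ W, h p := by
      rw [Finset.sum_congr rfl fun x hx => by rw [(Finset.mem_filter.1 hx).2],
        Finset.sum_const, nsmul_eq_mul]
    rw [h1]
    refine mul_le_mul_of_nonneg_right ?_ h0
    have h2 : (S ×ˢ S).filter (fun x => x.1 ∪ x.2 = W) ⊆ W.powerset ×ˢ W.powerset := by
      intro x hx
      have h3 := (Finset.mem_filter.1 hx).2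
      refine Finset.mem_product.2 ⟨Finset.mem_powerset.2 ?_, Finset.mem_powerset.2 ?_⟩
      · rw [← h3]; exact Finset.subset_union_left
      · rw [← h3]; exact Finset.subset_union_right
    have h3 := Finset.card_le_card h2
    rw [Finset.card_product, Finset.card_powerset, ← mul_pow] at h3
    exact_mod_cast h3
  have e3 : ∀ W ∈ T, #W ∈ Icc s (2 * s) := fun W hW =>
    Finset.mem_Icc.2 (Finset.mem_filter.1 hW).2
  rw [e1]
  refine (Finset.sum_le_sum e2).trans ?_
  rw [← Finset.sum_fiberwise_of_maps_to e3]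
  refine Finset.sum_le_sum fun t ht => ?_
  have e4 : ∑ W ∈ T.filter (fun W => #W = t), (4 : ℝ) ^ #W * ∏ p ∈ W, h p =
      (4 : ℝ) ^ t * ∑ W ∈ T.filter (fun W => #W = t), ∏ p ∈ W, h p := by
    rw [Finset.mul_sum]
    refine Finset.sum_congr rfl fun W hW => ?_
    rw [(Finset.mem_filter.1 hW).2]
  rw [e4]
  refine mul_le_mul_of_nonneg_left (le_trans ?_ (hlay t)) (by positivity)
  refine Finset.sum_le_sum_of_subset_of_nonneg ?_ ?_
  · intro W hW
    obtain ⟨h1, h2⟩ := Finset.mem_filter.1 hW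
    exact Finset.mem_filter.2 ⟨(Finset.mem_filter.1 h1).1, h2⟩
  · intro W hW _
    exact hprod W (Finset.mem_filter.1 hW).1

end Pool.Agent.Work.MP_73869e_nt.P5
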