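import Mathlib
import Pool.Agent.Work.MP_2dba45_nt.Sv.BHb

set_option autoImplicit false

/-!
Module BQc (size M). Product formula for the second moment of the Brun-Hooley weights.
For d ⊆ ∪ A j: lw s A b d = ∏_{j in s} cl (b j) (d ∩ A j), cl b u = (-1)^#u if #u ≤ b, else 0 (private
lemma lw_eq in Sv/BHb.lean, copy it), ∏_{d ∪ e} h = ∏_j ∏_{(d ∩ A j) ∪ (e ∩ A j)} h. Induction on s as in
the private theorem sum_prod_coef of Sv/BHb.lean (splitting the powerset of a disjoint union, private
theorem sum_union), now for double sums.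
-/

namespace Pool.Agent.Work.MP_73869e_nt.P5

open Finset Pool.Agent.Work.MP_2dba45_nt.Sv

private theorem sum_union (X Y : Finset ℕ) (hXY : Disjoint X Y) (F : Finset ℕ → ℝ) :
    ∑ d ∈ (X ∪ Y).powerset, F d = ∑ u ∈ X.powerset, ∑ v ∈ Y.powerset, F (u ∪ v) := by
  rw [← Finset.sum_product']
  have hd : ∀ x, x ∈ X → x ∉ Y := fun x hx hy => Finset.disjoint_left.1 hXY hx hy
  refine Finset.sum_bij' (fun d _ => (d ∩ X, d ∩ Y)) (fun q _ => q.1 ∪ q.2) ?_ ?_ ?_ ?_ ?_
  · intro d _
    simp only [Finset.mem_product, Finset.mem_powerset]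
    exact ⟨Finset.inter_subset_right, Finset.inter_subset_right⟩
  · intro q hq
    simp only [Finset.mem_product, Finset.mem_powerset] at hq
    exact Finset.mem_powerset.2 (Finset.union_subset_union hq.1 hq.2)
  · intro d hd'
    have h := Finset.mem_powerset.1 hd'
    rw [← Finset.inter_union_distrib_left]
    exact Finset.inter_eq_left.2 h
  · intro q hq
    simp only [Finset.mem_product, Finset.mem_powerset] at hq
    ext x
    · simp only [Finset.mem_inter, Finset.mem_union]
      constructor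
      · rintro ⟨h1 | h1, h2⟩
        · exact h1
        · exact absurd (hq.2 h1) (hd x h2)
      · exact fun h1 => ⟨Or.inl h1, hq.1 h1⟩
    · simp only [Finset.mem_inter, Finset.mem_union]
      constructor
      · rintro ⟨h1 | h1, h2⟩
        · exact absurd h2 (hd x (hq.1 h1))
        · exact h1
      · exact fun h1 => ⟨Or.inr h1, hq.2 h1⟩
  · intro d hd'
    have h := Finset.mem_powerset.1 hd'
    rw [← Finset.inter_union_distrib_left, Finset.inter_eq_left.2 h]

private theorem sum2_coef {ι : Type*} [DecidableEq ι] (s : Finset ι) (A : ι → Finset ℕ)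
    (c : ι → Finset ℕ → ℝ)
    (hA : ∀ i ∈ s, ∀ j ∈ s, i ≠ j → Disjoint (A i) (A j)) (h : ℕ → ℝ) :
    ∑ d ∈ (s.biUnion A).powerset, ∑ e ∈ (s.biUnion A).powerset,
      (∏ j ∈ s, c j (d ∩ A j)) * (∏ j ∈ s, c j (e ∩ A j)) * ∏ p ∈ d ∪ e, h p =
      ∏ j ∈ s, ∑ u ∈ (A j).powerset, ∑ v ∈ (A j).powerset,
        c j u * c j v * ∏ p ∈ u ∪ v, h p := by
  induction s using Finset.induction_on with
  | empty => simp
  | insert a s ha ih =>
    have hA' : ∀ i ∈ s, ∀ j ∈ s, i ≠ j → Disjoint (A i) (A j) := fun i hi j hj =>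
      hA i (Finset.mem_insert_of_mem hi) j (Finset.mem_insert_of_mem hj)
    have hdisj : Disjoint (A a) (s.biUnion A) := by
      rw [Finset.disjoint_biUnion_right]
      intro j hj
      exact hA a (Finset.mem_insert_self _ _) j (Finset.mem_insert_of_mem hj)
        (fun h => ha (h ▸ hj))
    have key : ∀ u ⊆ A a, ∀ v ⊆ s.biUnion A,
        (∏ j ∈ insert a s, c j ((u ∪ v) ∩ A j)) = c a u * ∏ j ∈ s, c j (v ∩ A j) := by
      intro u hu' v hv'
      rw [Finset.prod_insert ha]
      have h1 : (u ∪ v) ∩ A a = u := by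
        rw [Finset.union_inter_distrib_right, Finset.inter_eq_left.2 hu']
        have : v ∩ A a = ∅ := Finset.disjoint_iff_inter_eq_empty.1
          (Finset.disjoint_of_subset_left hv' hdisj.symm)
        rw [this, Finset.union_empty]
      have h2 : ∀ j ∈ s, (u ∪ v) ∩ A j = v ∩ A j := by
        intro j hj
        rw [Finset.union_inter_distrib_right]
        have : u ∩ A j = ∅ := Finset.disjoint_iff_inter_eq_empty.1
          (Finset.disjoint_of_subset_left hu' (hA a (Finset.mem_insert_self _ _) j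
            (Finset.mem_insert_of_mem hj) (fun h => ha (h ▸ hj))))
        rw [this, Finset.empty_union]
      rw [h1, Finset.prod_congr rfl (fun j hj => by rw [h2 j hj])]
    rw [Finset.biUnion_insert, sum_union _ _ hdisj, Finset.prod_insert ha, ← ih hA',
      Finset.sum_mul_sum]
    refine Finset.sum_congr rfl fun u hu => Finset.sum_congr rfl fun v hv => ?_
    rw [sum_union _ _ hdisj, Finset.sum_mul_sum]
    refine Finset.sum_congr rfl fun u' hu' => Finset.sum_congr rfl fun v' hv' => ?_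
    rw [Finset.mem_powerset] at hu hv hu' hv'
    rw [key u hu v hv, key u' hu' v' hv']
    have e1 : u ∪ v ∪ (u' ∪ v') = (u ∪ u') ∪ (v ∪ v') := by
      ext x
      simp only [Finset.mem_union]
      tauto
    have h3 : Disjoint (u ∪ u') (v ∪ v') := Finset.disjoint_of_subset_left
      (Finset.union_subset hu hu') (Finset.disjoint_of_subset_right
        (Finset.union_subset hv hv') hdisj)
    rw [e1, Finset.prod_union h3]
    ring

private theorem card_eq_sum {ι : Type*} [DecidableEq ι] (s : Finset ι) (A : ι → Finset ℕ)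
    (hA : ∀ i ∈ s, ∀ j ∈ s, i ≠ j → Disjoint (A i) (A j)) (d : Finset ℕ)
    (hd : d ⊆ s.biUnion A) : #d = ∑ j ∈ s, #(d ∩ A j) := by
  have h1 : d = s.biUnion (fun j => d ∩ A j) := by
    ext x
    simp only [Finset.mem_biUnion, Finset.mem_inter]
    constructor
    · intro hx
      obtain ⟨j, hj, hxj⟩ := Finset.mem_biUnion.1 (hd hx)
      exact ⟨j, hj, hx, hxj⟩
    · rintro ⟨j, _, hx, _⟩
      exact hx
  conv_lhs => rw [h1]
  rw [Finset.card_biUnion]
  intro i hi j hj hij
  exact Finset.disjoint_of_subset_left Finset.inter_subset_right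
    (Finset.disjoint_of_subset_right Finset.inter_subset_right (hA i hi j hj hij))

private noncomputable def cl (b : ℕ) (u : Finset ℕ) : ℝ := if #u ≤ b then (-1) ^ (#u) else 0

private theorem lw_eq {ι : Type*} [DecidableEq ι] (s : Finset ι) (A : ι → Finset ℕ) (b : ι → ℕ)
    (hA : ∀ i ∈ s, ∀ j ∈ s, i ≠ j → Disjoint (A i) (A j)) (d : Finset ℕ)
    (hd : d ⊆ s.biUnion A) : lw s A b d = ∏ j ∈ s, cl (b j) (d ∩ A j) := by
  classical
  unfold lw cl
  by_cases h : ∀ j ∈ s, #(d ∩ A j) ≤ b j
  · rw [if_pos ⟨by convert hd, by convert h⟩, Finset.prod_congr rfl (fun j hj => if_pos (h j hj)),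
      Finset.prod_pow_eq_pow_sum, ← card_eq_sum s A hA d hd]
  · rw [if_neg (fun h' => h (by convert h'.2))]
    push Not at h
    obtain ⟨j, hj, hlt⟩ := h
    exact (Finset.prod_eq_zero hj (if_neg (not_le.2 hlt))).symm

theorem q_prod {ι : Type*} [DecidableEq ι] (s : Finset ι) (A : ι → Finset ℕ) (b : ι → ℕ)
    (hA : ∀ i ∈ s, ∀ j ∈ s, i ≠ j → Disjoint (A i) (A j)) (h : ℕ → ℝ) :
    ∑ d ∈ (s.biUnion A).powerset, ∑ e ∈ (s.biUnion A).powerset,
      lw s A b d * lw s A b e * ∏ p ∈ d ∪ e, h p =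
    ∏ j ∈ s, ∑ u ∈ (A j).powerset.filter (fun u => #u ≤ b j),
      ∑ v ∈ (A j).powerset.filter (fun v => #v ≤ b j),
        (-1 : ℝ) ^ #u * (-1) ^ #v * ∏ p ∈ u ∪ v, h p := by
  have e1 : ∀ j ∈ s, ∑ u ∈ (A j).powerset.filter (fun u => #u ≤ b j),
      ∑ v ∈ (A j).powerset.filter (fun v => #v ≤ b j),
        (-1 : ℝ) ^ #u * (-1) ^ #v * ∏ p ∈ u ∪ v, h p =
      ∑ u ∈ (A j).powerset, ∑ v ∈ (A j).powerset,
        cl (b j) u * cl (b j) v * ∏ p ∈ u ∪ v, h p := by
    intro j _
    rw [Finset.sum_filter]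
    refine Finset.sum_congr rfl fun u _ => ?_
    unfold cl
    by_cases hu : #u ≤ b j
    · rw [if_pos hu, if_pos hu, Finset.sum_filter]
      refine Finset.sum_congr rfl fun v _ => ?_
      split_ifs
      · rfl
      · simp
    · rw [if_neg hu, if_neg hu]
      simp
  rw [Finset.prod_congr rfl e1, ← sum2_coef s A (fun j => cl (b j)) hA h]
  refine Finset.sum_congr rfl fun d hd => Finset.sum_congr rfl fun e he => ?_
  rw [lw_eq s A b hA d (Finset.mem_powerset.1 hd), lw_eq s A b hA e (Finset.mem_powerset.1 he)]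

end Pool.Agent.Work.MP_73869e_nt.P5
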