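import Mathlib
import Pool.Agent.Work.MP_73869e_nt.P5.Defs
import Pool.Agent.Work.MP_73869e_nt.P5.BQa
import Pool.Agent.Work.MP_73869e_nt.P5.BQb
import Pool.Agent.Work.MP_73869e_nt.P5.BQc
import Pool.Agent.Work.MP_2dba45_nt.Sv.BHc

set_option autoImplicit false

/-!
Module BH2 (size M-L, mostly a copy of Sv.brun_hooley, file Sv/BHc.lean, with its private lemmas).
Same weights lp = lw s A bb, dp = dw s A bb, blocks A j = blk P z j, bb j = 2 (b + (j+1)), s = range z.
New parts: dp_le: |dw s A bb d| ≤ number of l in s with #(d ∩ A l) = bb l + 1 ≤ sum_l #(d ∩ A l) ≤ #d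
(disjoint blocks). main2: ∑ lp ∏ = ∏ ysum ≤ ∏ V_j (1 + c_j) ≤ 2 ∏ V_j (∑ c_j ≤ exp(-b)/4). sq: by q_prod the
double sum is ∏_j Q_j, Q_j ≤ V_j + E_j by q_block, E_j ≤ sum over t in [bb j + 1, 2 (bb j + 1)] of
(4 L₀)^t/t! by q_err (sum_{A j} h ≤ L₀), (4L₀)^t/t! ≤ exp(12 L₀) exp(-t) (pow_div_factorial_le with 4L₀), so
E_j ≤ 2 exp(12 L₀) exp(-(2b+2j+3)) and E_j/V_j ≤ 2 exp(14 L₀) exp(-(2b+2j+3)); for b ≥ b₀(L₀) (for instance
b₀ = ⌈14 L₀⌉ + 2) the sum over j is at most 1, so ∏ (V_j + E_j) ≤ ∏ V_j * exp 1 ≤ 4 ∏ V_j. (Q_j ≥ 0 is q_block_nonneg.)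
-/

namespace Pool.Agent.Work.MP_73869e_nt.P5

open Finset Pool.Agent.Work.MP_2dba45_nt.Sv

private theorem exp_neg_two_mul_le (x : ℝ) (h0 : 0 ≤ x) (h1 : x ≤ 1 / 2) :
    Real.exp (-(2 * x)) ≤ 1 - x := by
  have h2 : 0 < 1 - x := by linarith
  have h3 := Real.one_sub_inv_le_log_of_pos h2
  rw [← Real.le_log_iff_exp_le h2]
  refine le_trans ?_ h3
  have h4 : (1 - x)⁻¹ ≤ 1 + 2 * x := by
    rw [inv_le_comm₀ h2 (by linarith)]
    rw [inv_le_iff_one_le_mul₀ (by linarith)]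
    nlinarith
  linarith

/-- the end points of the blocks -/
private noncomputable def yy (z i : ℕ) : ℝ := (z : ℝ) ^ ((1 / 2 : ℝ) ^ i)

private theorem yy_zero (z : ℕ) : yy z 0 = z := by
  unfold yy
  rw [pow_zero, Real.rpow_one]

private theorem yy_sq (z i : ℕ) : yy z (i + 1) ^ 2 = yy z i := by
  unfold yy
  rw [← Real.rpow_natCast, ← Real.rpow_mul (Nat.cast_nonneg z)]
  congr 1
  rw [pow_succ]
  push_cast
  ring

private theorem one_le_yy (z i : ℕ) (hz : 2 ≤ z) : 1 ≤ yy z i := by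
  unfold yy
  exact Real.one_le_rpow (by exact_mod_cast (by omega : 1 ≤ z)) (by positivity)

private theorem yy_succ_le (z i : ℕ) (hz : 2 ≤ z) : yy z (i + 1) ≤ yy z i := by
  rw [← yy_sq z i]
  have := one_le_yy z (i + 1) hz
  nlinarith

private theorem yy_anti (z : ℕ) (hz : 2 ≤ z) : Antitone (yy z) :=
  antitone_nat_of_succ_le fun i => yy_succ_le z i hz

private theorem yy_last (z : ℕ) : yy z z ≤ 2 := by
  unfold yy
  have h1 : (z : ℝ) ≤ (2 : ℝ) ^ ((2 : ℝ) ^ z) := by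
    have h2 : z < 2 ^ z := Nat.lt_two_pow_self
    have h3 : 2 ^ z < 2 ^ (2 ^ z) := Nat.lt_two_pow_self
    have h4 : (z : ℝ) ≤ ((2 ^ (2 ^ z) : ℕ) : ℝ) := by exact_mod_cast (h2.trans h3).le
    refine h4.trans (le_of_eq ?_)
    push_cast
    rw [← Real.rpow_natCast]
    push_cast
    rfl
  have h5 : (z : ℝ) ^ ((1 / 2 : ℝ) ^ z) ≤ ((2 : ℝ) ^ ((2 : ℝ) ^ z)) ^ ((1 / 2 : ℝ) ^ z) :=
    Real.rpow_le_rpow (Nat.cast_nonneg z) h1 (by positivity)
  refine h5.trans (le_of_eq ?_)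
  rw [← Real.rpow_mul (by norm_num), ← mul_pow]
  norm_num

/-- the blocks -/
private noncomputable def blk (P : Finset ℕ) (z i : ℕ) : Finset ℕ :=
  P.filter (fun p : ℕ => yy z (i + 1) ≤ (p : ℝ) ∧ (p : ℝ) < yy z i)

private theorem blk_disj (P : Finset ℕ) (z : ℕ) (hz : 2 ≤ z) (i j : ℕ) (hij : i ≠ j) :
    Disjoint (blk P z i) (blk P z j) := by
  rw [Finset.disjoint_left]
  intro p hp hq
  have h1 := (Finset.mem_filter.1 hp).2
  have h2 := (Finset.mem_filter.1 hq).2
  rcases lt_or_gt_of_ne hij with h | h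
  · have := yy_anti z hz (Nat.succ_le_of_lt h)
    simp only [Nat.succ_eq_add_one] at this
    linarith [h1.1, h2.2]
  · have := yy_anti z hz (Nat.succ_le_of_lt h)
    simp only [Nat.succ_eq_add_one] at this
    linarith [h1.2, h2.1]

private theorem blk_union (P : Finset ℕ) (z : ℕ) (hz : 2 ≤ z) (hP : ∀ p ∈ P, 2 ≤ p ∧ p < z) :
    (range z).biUnion (blk P z) = P := by
  classical
  ext p
  constructor
  · intro hp
    obtain ⟨i, _, hi⟩ := Finset.mem_biUnion.1 hp
    exact (Finset.mem_filter.1 hi).1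
  · intro hp
    obtain ⟨h2, hlt⟩ := hP p hp
    have h2' : (2 : ℝ) ≤ p := by exact_mod_cast h2
    have hlt' : (p : ℝ) < z := by exact_mod_cast hlt
    obtain ⟨m, rfl⟩ : ∃ m, z = m + 1 := ⟨z - 1, by omega⟩
    have hex : ∃ i, yy (m + 1) (i + 1) ≤ (p : ℝ) :=
      ⟨m, (yy_last (m + 1)).trans h2'⟩
    have h3 := Nat.find_spec hex
    have h4 : Nat.find hex ≤ m := Nat.find_min' hex ((yy_last (m + 1)).trans h2')
    refine Finset.mem_biUnion.2 ⟨Nat.find hex, Finset.mem_range.2 (Nat.lt_succ_of_le h4),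
      Finset.mem_filter.2 ⟨hp, h3, ?_⟩⟩
    rcases Nat.eq_zero_or_pos (Nat.find hex) with h5 | h5
    · rw [h5, yy_zero]
      exact hlt'
    · have h6 := Nat.find_min hex (m := Nat.find hex - 1) (by omega)
      have h7 : Nat.find hex - 1 + 1 = Nat.find hex := by omega
      rw [h7] at h6
      exact not_le.1 h6

private theorem level_sum (b n : ℕ) :
    ∑ j ∈ range n, (1 / 2 : ℝ) ^ j * (2 * b + 2 * j + 3) =
      4 * b + 10 - (1 / 2 : ℝ) ^ n * (4 * b + 4 * n + 10) := by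
  induction n with
  | zero => simp
  | succ n ih =>
    rw [Finset.sum_range_succ, ih, pow_succ]
    push_cast
    ring

private theorem level (P : Finset ℕ) (z b : ℕ) (hz : 2 ≤ z) (hP : ∀ p ∈ P, 2 ≤ p ∧ p < z)
    (d : Finset ℕ) (hd : d ⊆ P) (hc : ∀ j ∈ range z, #(d ∩ blk P z j) ≤ 2 * (b + (j + 1)) + 1) :
    ((∏ p ∈ d, p : ℕ) : ℝ) ≤ (z : ℝ) ^ (4 * b + 10) := by
  classical
  have hz1 : (1 : ℝ) ≤ z := by exact_mod_cast (by omega : 1 ≤ z)
  have h1 : d = (range z).biUnion (fun j => d ∩ blk P z j) := by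
    rw [← Finset.inter_biUnion, blk_union P z hz hP]
    exact (Finset.inter_eq_left.2 hd).symm
  have h2 : ((∏ p ∈ d, p : ℕ) : ℝ) = ∏ j ∈ range z, ∏ p ∈ d ∩ blk P z j, (p : ℝ) := by
    conv_lhs => rw [h1]
    rw [Finset.prod_biUnion]
    · push_cast
      rfl
    · intro i _ j _ hij
      exact Finset.disjoint_of_subset_left Finset.inter_subset_right
        (Finset.disjoint_of_subset_right Finset.inter_subset_right (blk_disj P z hz i j hij))
  rw [h2]
  have h3 : ∀ j ∈ range z, ∏ p ∈ d ∩ blk P z j, (p : ℝ) ≤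
      (z : ℝ) ^ ((1 / 2 : ℝ) ^ j * (2 * b + 2 * j + 3)) := by
    intro j hj
    have h4 : ∏ p ∈ d ∩ blk P z j, (p : ℝ) ≤ ∏ _p ∈ d ∩ blk P z j, yy z j := by
      refine Finset.prod_le_prod (fun p _ => Nat.cast_nonneg p) (fun p hp => ?_)
      exact (Finset.mem_filter.1 (Finset.mem_inter.1 hp).2).2.2.le
    rw [Finset.prod_const] at h4
    refine h4.trans ?_
    have h5 : yy z j ^ #(d ∩ blk P z j) ≤ yy z j ^ (2 * (b + (j + 1)) + 1) :=
      pow_le_pow_right₀ (one_le_yy z j hz) (hc j hj)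
    refine h5.trans (le_of_eq ?_)
    unfold yy
    rw [← Real.rpow_natCast, ← Real.rpow_mul (Nat.cast_nonneg z)]
    congr 1
    push_cast
    ring
  refine (Finset.prod_le_prod (fun j _ => Finset.prod_nonneg fun p _ => Nat.cast_nonneg p) h3).trans
    ?_
  have h6 : ∏ j ∈ range z, (z : ℝ) ^ ((1 / 2 : ℝ) ^ j * (2 * b + 2 * j + 3)) =
      (z : ℝ) ^ (∑ j ∈ range z, (1 / 2 : ℝ) ^ j * (2 * b + 2 * j + 3)) :=
    (Real.rpow_sum_of_pos (by linarith) _ _).symm
  rw [h6, ← Real.rpow_natCast]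
  refine Real.rpow_le_rpow_of_exponent_le hz1 ?_
  rw [level_sum]
  push_cast
  have : 0 ≤ (1 / 2 : ℝ) ^ z * (4 * b + 4 * z + 10) := by positivity
  linarith

private theorem lw_abs {ι : Type*} (s : Finset ι) (A : ι → Finset ℕ) (b : ι → ℕ) (d : Finset ℕ) :
    |lw s A b d| ≤ 1 := by
  unfold lw
  split_ifs
  · rw [abs_pow, abs_neg, abs_one, one_pow]
  · simp

private theorem dw_abs {ι : Type*} (s : Finset ι) (A : ι → Finset ℕ) (b : ι → ℕ) (d : Finset ℕ) :
    |dw s A b d| ≤ #s := by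
  unfold dw
  refine (Finset.abs_sum_le_sum_abs _ _).trans ?_
  refine (Finset.sum_le_card_nsmul _ _ 1 fun l _ => ?_).trans (by simp)
  split_ifs
  · rw [abs_pow, abs_neg, abs_one, one_pow]
  · simp

private theorem supp {ι : Type*} (s : Finset ι) (A : ι → Finset ℕ) (b : ι → ℕ) (d : Finset ℕ)
    (h : lw s A b d ≠ 0 ∨ dw s A b d ≠ 0) :
    d ⊆ s.biUnion A ∧ ∀ j ∈ s, #(d ∩ A j) ≤ b j + 1 := by
  classical
  rcases h with h | h
  · unfold lw at h
    have h1 := (ne_eq _ _ ▸ h : ¬ _)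
    split_ifs at h with h2
    · refine ⟨by convert h2.1, fun j hj => ?_⟩
      have := h2.2 j hj
      refine le_trans (le_of_eq ?_) (this.trans (Nat.le_succ _))
      congr
    · exact absurd rfl h
  · unfold dw at h
    obtain ⟨l, hl, hne⟩ := Finset.exists_ne_zero_of_sum_ne_zero h
    split_ifs at hne with h2
    · refine ⟨by convert h2.1, fun j hj => ?_⟩
      by_cases hjl : j = l
      · subst hjl
        have := h2.2.1
        refine le_of_eq (Eq.trans ?_ this)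
        congr
      · have := h2.2.2 j hj hjl
        refine le_trans (le_of_eq ?_) (this.trans (Nat.le_succ _))
        congr
    · exact absurd rfl hne

private theorem pow_div_factorial_le (L : ℝ) (hL : 0 ≤ L) (n : ℕ) :
    L ^ n / n.factorial ≤ Real.exp (3 * L) * Real.exp (-n) := by
  have h1 : (3 * L) ^ n / n.factorial ≤ Real.exp (3 * L) :=
    Real.pow_div_factorial_le_exp (3 * L) (by linarith) n
  have h2 : Real.exp n ≤ 3 ^ n := by
    have h3 : Real.exp (n : ℝ) = Real.exp 1 ^ n := by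
      rw [← Real.exp_nat_mul, mul_one]
    rw [h3]
    exact pow_le_pow_left₀ (Real.exp_pos 1).le Real.exp_one_lt_three.le n
  have hf : (0 : ℝ) < n.factorial := by exact_mod_cast Nat.factorial_pos n
  rw [Real.exp_neg, ← div_eq_mul_inv, le_div_iff₀ (Real.exp_pos _)]
  refine le_trans ?_ h1
  rw [mul_pow, div_mul_eq_mul_div]
  refine div_le_div_of_nonneg_right ?_ hf.le
  rw [mul_comm]
  exact mul_le_mul_of_nonneg_right h2 (pow_nonneg hL n)

private theorem prod_exp_le (s : Finset ℕ) (c : ℕ → ℝ) (hc : ∀ j, 0 ≤ c j)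
    (h : ∑ j ∈ s, c j ≤ 1 / 4) : ∏ j ∈ s, (1 + c j) ≤ 4 / 3 := by
  have h10 : ∏ j ∈ s, (1 + c j) ≤ ∏ j ∈ s, Real.exp (c j) :=
    Finset.prod_le_prod (fun j _ => by linarith [hc j])
      (fun j _ => by linarith [Real.add_one_le_exp (c j)])
  rw [← Real.exp_sum] at h10
  refine h10.trans ((Real.exp_le_exp.2 h).trans ?_)
  have h1 : 1 - 1 / 4 ≤ Real.exp (-(1 / 4)) := Real.one_sub_le_exp_neg _
  have h2 : Real.exp (1 / 4) * Real.exp (-(1 / 4)) = 1 := by
    rw [← Real.exp_add]; simp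
  have h3 := Real.exp_pos (1 / 4)
  nlinarith

private theorem tail_exp (n : ℕ) :
    ∑ t ∈ Icc n (2 * n), Real.exp (-(t : ℝ)) ≤ 2 * Real.exp (-(n : ℝ)) := by
  have he1 : Real.exp (-1) ≤ 1 / 2 := by
    rw [Real.exp_neg, one_div]
    exact inv_anti₀ (by norm_num) (by linarith [Real.add_one_le_exp (1 : ℝ)])
  have h0 : Icc n (2 * n) = (range (n + 1)).image (fun i => n + i) := by
    ext t
    simp only [Finset.mem_Icc, Finset.mem_image, Finset.mem_range]
    constructor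
    · rintro ⟨h1, h2⟩
      exact ⟨t - n, by omega, by omega⟩
    · rintro ⟨i, hi, rfl⟩
      omega
  rw [h0, Finset.sum_image (by intro i _ j _ hij; simpa using hij)]
  have h1 : ∀ i ∈ range (n + 1), Real.exp (-((n + i : ℕ) : ℝ)) ≤
      Real.exp (-(n : ℝ)) * (1 / 2) ^ i := by
    intro i _
    have h2 : Real.exp (-((n + i : ℕ) : ℝ)) = Real.exp (-(n : ℝ)) * Real.exp (-1) ^ i := by
      rw [← Real.exp_nat_mul, ← Real.exp_add]
      congr 1
      push_cast
      ring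
    rw [h2]
    exact mul_le_mul_of_nonneg_left (pow_le_pow_left₀ (Real.exp_pos _).le he1 _)
      (Real.exp_pos _).le
  refine (Finset.sum_le_sum h1).trans ?_
  rw [← Finset.mul_sum]
  have h6 : ∑ j ∈ range (n + 1), (1 / 2 : ℝ) ^ j ≤ 2 := by
    have h7 := geom_sum_eq (x := (1 / 2 : ℝ)) (by norm_num) (n + 1)
    rw [h7]
    have : 0 < (1 / 2 : ℝ) ^ (n + 1) := by positivity
    rw [div_le_iff_of_neg (by norm_num)]
    linarith
  have h8 := mul_le_mul_of_nonneg_left h6 (Real.exp_pos (-(n : ℝ))).le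
  linarith

private theorem dw_card {ι : Type*} (s : Finset ι) (A : ι → Finset ℕ) (b : ι → ℕ)
    (hA : ∀ i ∈ s, ∀ j ∈ s, i ≠ j → Disjoint (A i) (A j)) (d : Finset ℕ) :
    |dw s A b d| ≤ #d := by
  classical
  unfold dw
  refine (Finset.abs_sum_le_sum_abs _ _).trans ?_
  have h1 : ∀ l ∈ s, |(if d ⊆ s.biUnion A ∧ #(d ∩ A l) = b l + 1 ∧
      ∀ j ∈ s, j ≠ l → #(d ∩ A j) ≤ b j then (-1 : ℝ) ^ (#d - (b l + 1)) else 0)| ≤
      ((#(d ∩ A l) : ℕ) : ℝ) := by
    intro l _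
    split_ifs with h2
    · rw [abs_pow, abs_neg, abs_one, one_pow]
      have h3 := h2.2.1
      have h4 : 1 ≤ #(d ∩ A l) := by omega
      exact_mod_cast h4
    · rw [abs_zero]
      exact Nat.cast_nonneg _
  refine le_trans (Finset.sum_le_sum fun l hl => ?_) (b := ∑ l ∈ s, ((#(d ∩ A l) : ℕ) : ℝ)) ?_
  · refine le_trans (le_of_eq ?_) (h1 l hl)
    congr
  · have h5 : #(s.biUnion fun l => d ∩ A l) = ∑ l ∈ s, #(d ∩ A l) := by
      refine Finset.card_biUnion fun i hi j hj hij => ?_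
      exact Finset.disjoint_of_subset_left Finset.inter_subset_right
        (Finset.disjoint_of_subset_right Finset.inter_subset_right (hA i hi j hj hij))
    have h6 : #(s.biUnion fun l => d ∩ A l) ≤ #d := by
      refine Finset.card_le_card ?_
      intro p hp
      obtain ⟨l, _, hl⟩ := Finset.mem_biUnion.1 hp
      exact (Finset.mem_inter.1 hl).1
    rw [h5] at h6
    exact_mod_cast h6

theorem bh2 (L₀ : ℝ) (hL₀ : 0 ≤ L₀) : ∃ b₀ : ℕ, ∀ b : ℕ, b₀ ≤ b →
    ∀ (z : ℕ) (P : Finset ℕ) (h : ℕ → ℝ), 2 ≤ z → (∀ p ∈ P, 2 ≤ p ∧ p < z) →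
      (∀ p ∈ P, 0 ≤ h p ∧ h p ≤ 1 / 2) →
      (∀ y : ℝ, 1 ≤ y → ∑ p ∈ P.filter (fun p : ℕ => y ≤ (p : ℝ) ∧ (p : ℝ) < y ^ 2), h p ≤ L₀) →
      ∃ lp dp : Finset ℕ → ℝ, BHW P h z b lp dp := by
  classical
  refine ⟨⌈14 * L₀⌉₊ + 2, fun b hb z P h hz hP hg hy => ?_⟩
  have hbL2 : 14 * L₀ + 2 ≤ b := by
    have h1 : 14 * L₀ ≤ ⌈14 * L₀⌉₊ := Nat.le_ceil _
    have h2 : ((⌈14 * L₀⌉₊ + 2 : ℕ) : ℝ) ≤ b := by exact_mod_cast hb
    push_cast at h2
    linarith
  have hbL : 5 * L₀ + 1 ≤ b := by linarith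
  set s := range z with hs
  set A : ℕ → Finset ℕ := blk P z with hA
  set bb : ℕ → ℕ := fun j => 2 * (b + (j + 1)) with hbb
  have hdisj : ∀ i ∈ s, ∀ j ∈ s, i ≠ j → Disjoint (A i) (A j) := fun i _ j _ hij =>
    blk_disj P z hz i j hij
  have hun : s.biUnion A = P := blk_union P z hz hP
  have heven : ∀ j ∈ s, Even (bb j) := fun j _ => even_two_mul _
  have hAP : ∀ j, A j ⊆ P := fun j => Finset.filter_subset _ _
  have hhA : ∀ j, ∀ p ∈ A j, 0 ≤ h p ∧ h p ≤ 1 := fun j p hp =>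
    ⟨(hg p (hAP j hp)).1, (hg p (hAP j hp)).2.trans (by norm_num)⟩
  have hsumA : ∀ j, ∑ p ∈ A j, h p ≤ L₀ := by
    intro j
    have h1 := hy (yy z (j + 1)) (one_le_yy z _ hz)
    rw [yy_sq] at h1
    exact h1
  set V : ℕ → ℝ := fun j => ∏ p ∈ A j, (1 - h p) with hV
  have hVpos : ∀ j, Real.exp (-(2 * L₀)) ≤ V j := by
    intro j
    have h1 : ∏ p ∈ A j, Real.exp (-(2 * h p)) ≤ V j := by
      refine Finset.prod_le_prod (fun p _ => (Real.exp_pos _).le) (fun p hp => ?_)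
      exact exp_neg_two_mul_le _ (hg p (hAP j hp)).1 (hg p (hAP j hp)).2
    rw [← Real.exp_sum] at h1
    refine le_trans (Real.exp_le_exp.2 ?_) h1
    rw [Finset.sum_neg_distrib, ← Finset.mul_sum]
    linarith [hsumA j]
  have hV0 : ∀ j, 0 < V j := fun j => lt_of_lt_of_le (Real.exp_pos _) (hVpos j)
  have hVprod : ∏ j ∈ s, V j = ∏ p ∈ P, (1 - h p) := by
    rw [← hun, Finset.prod_biUnion (fun i hi j hj hij => hdisj i hi j hj hij)]
  set c : ℕ → ℝ := fun j => Real.exp (5 * L₀) * Real.exp (-(2 * b + 2 * j + 3)) with hc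
  have hc0 : ∀ j, 0 ≤ c j := fun j => by simp only [hc]; positivity
  have hes : ∀ j, esum (bb j) h (A j) ≤ V j * c j := by
    intro j
    have h1 := esum_le (bb j) h (A j) (fun p hp => (hhA j p hp).1)
    have h2 : (∑ p ∈ A j, h p) ^ (bb j + 1) / (bb j + 1).factorial ≤
        L₀ ^ (bb j + 1) / (bb j + 1).factorial := by
      refine div_le_div_of_nonneg_right ?_ (Nat.cast_nonneg _)
      exact pow_le_pow_left₀ (Finset.sum_nonneg fun p hp => (hhA j p hp).1) (hsumA j) _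
    have h3 := pow_div_factorial_le L₀ hL₀ (bb j + 1)
    refine (h1.trans (h2.trans h3)).trans ?_
    have h4 : Real.exp (-(2 * L₀)) * c j ≤ V j * c j :=
      mul_le_mul_of_nonneg_right (hVpos j) (hc0 j)
    refine le_trans (le_of_eq ?_) h4
    simp only [hc, hbb]
    rw [← Real.exp_add, ← Real.exp_add, ← Real.exp_add]
    congr 1
    push_cast
    ring
  have hys : ∀ j ∈ s, ysum (bb j) h (A j) ≤ V j * (1 + c j) := by
    intro j hj
    have h1 := ysum_le (bb j) (heven j hj) h (A j) (hhA j)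
    have h2 := hes j
    have h3 : ∏ p ∈ A j, (1 - h p) = V j := rfl
    rw [h3] at h1
    linarith
  have hys0 : ∀ j ∈ s, V j ≤ ysum (bb j) h (A j) := fun j hj =>
    ysum_ge (bb j) (heven j hj) h (A j) (hhA j)
  have hcsum : ∑ j ∈ s, c j ≤ Real.exp (-b) / 4 := by
    have h1 : ∀ j ∈ s, c j ≤ Real.exp (-b) / 8 * (1 / 2) ^ j := by
      intro j _
      have he : Real.exp (-1) ≤ 1 / 2 := by
        rw [Real.exp_neg, one_div]
        exact inv_anti₀ (by norm_num) (by linarith [Real.add_one_le_exp (1 : ℝ)])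
      have h2 : c j ≤ Real.exp (-b) * Real.exp (-1) ^ (j + 3) := by
        simp only [hc]
        rw [← Real.exp_nat_mul, ← Real.exp_add, ← Real.exp_add]
        refine Real.exp_le_exp.2 ?_
        push_cast
        have : (0 : ℝ) ≤ j := Nat.cast_nonneg j
        linarith
      refine h2.trans ?_
      have h3 : Real.exp (-1) ^ (j + 3) ≤ (1 / 2) ^ (j + 3) :=
        pow_le_pow_left₀ (Real.exp_pos _).le he _
      have h4 : (1 / 2 : ℝ) ^ (j + 3) = 1 / 8 * (1 / 2) ^ j := by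
        rw [pow_add]; norm_num; ring
      have h5 := mul_le_mul_of_nonneg_left h3 (Real.exp_pos (-(b : ℝ))).le
      rw [h4] at h5
      linarith
    refine (Finset.sum_le_sum h1).trans ?_
    rw [← Finset.mul_sum]
    have h6 : ∑ j ∈ s, (1 / 2 : ℝ) ^ j ≤ 2 := by
      have h7 := geom_sum_eq (x := (1 / 2 : ℝ)) (by norm_num) z
      rw [hs, h7]
      have : 0 < (1 / 2 : ℝ) ^ z := by positivity
      rw [div_le_iff_of_neg (by norm_num)]
      linarith
    have h8 := mul_le_mul_of_nonneg_left h6 (div_nonneg (Real.exp_pos (-(b : ℝ))).le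
      (by norm_num : (0 : ℝ) ≤ 8))
    linarith
  have hVP : 0 ≤ ∏ p ∈ P, (1 - h p) :=
    Finset.prod_nonneg fun p hp => by linarith [(hg p hp).2]
  have hcs1 : ∑ j ∈ s, c j ≤ 1 / 4 := by
    refine hcsum.trans ?_
    have h1 : Real.exp (-(b : ℝ)) ≤ 1 := Real.exp_le_one_iff.2 (by
      have : (0 : ℝ) ≤ b := Nat.cast_nonneg b
      linarith)
    linarith
  refine ⟨lw s A bb, dw s A bb, lw_abs s A bb, fun d => ?_, fun d hd => ?_,
    fun B hB => (lw_sub s A bb heven hdisj B (by rw [hun]; exact hB)).1,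
    fun B hB => (lw_sub s A bb heven hdisj B (by rw [hun]; exact hB)).2, ?_, ?_, ?_, ?_⟩
  · exact dw_card s A bb hdisj d
  · obtain ⟨h1, h2⟩ := supp s A bb d hd
    rw [hun] at h1
    exact ⟨h1, level P z b hz hP d h1 h2⟩
  · rw [← hVprod]
    have h1 := sum_lw s A bb hdisj h
    rw [hun] at h1
    rw [h1]
    exact Finset.prod_le_prod (fun j _ => (hV0 j).le) hys0
  · have h1 := sum_lw s A bb hdisj h
    rw [hun] at h1
    rw [h1]
    have h2 : ∏ j ∈ s, ysum (bb j) h (A j) ≤ ∏ j ∈ s, (V j * (1 + c j)) :=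
      Finset.prod_le_prod (fun j hj => (hV0 j).le.trans (hys0 j hj)) hys
    refine h2.trans ?_
    rw [Finset.prod_mul_distrib, hVprod, mul_comm]
    refine mul_le_mul_of_nonneg_right ?_ hVP
    exact prod_exp_le s c hc0 (by linarith) |>.trans (by norm_num)
  · have h1 := sum_dw s A bb hdisj h
    rw [hun] at h1
    rw [h1]
    have h2 : ∀ l ∈ s, esum (bb l) h (A l) * ∏ j ∈ s.erase l, ysum (bb j) h (A j) ≤
        c l * ((∏ j ∈ s, V j) * ∏ j ∈ s, (1 + c j)) := by
      intro l hl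
      have h3 : ∏ j ∈ s.erase l, ysum (bb j) h (A j) ≤ ∏ j ∈ s.erase l, (V j * (1 + c j)) :=
        Finset.prod_le_prod (fun j hj => (hV0 j).le.trans (hys0 j (Finset.mem_of_mem_erase hj)))
          (fun j hj => hys j (Finset.mem_of_mem_erase hj))
      have h4 : 0 ≤ ∏ j ∈ s.erase l, (V j * (1 + c j)) :=
        Finset.prod_nonneg fun j _ => mul_nonneg (hV0 j).le (by linarith [hc0 j])
      have h5 : esum (bb l) h (A l) * ∏ j ∈ s.erase l, ysum (bb j) h (A j) ≤
          (V l * c l) * ∏ j ∈ s.erase l, (V j * (1 + c j)) :=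
        mul_le_mul (hes l) h3 (Finset.prod_nonneg fun j hj =>
          (hV0 j).le.trans (hys0 j (Finset.mem_of_mem_erase hj)))
          (mul_nonneg (hV0 l).le (hc0 l))
      refine h5.trans ?_
      have h6 : (∏ j ∈ s, V j) * ∏ j ∈ s, (1 + c j) =
          (V l * (1 + c l)) * ∏ j ∈ s.erase l, (V j * (1 + c j)) := by
        rw [← Finset.prod_mul_distrib]
        exact (Finset.mul_prod_erase s (fun j => V j * (1 + c j)) hl).symm
      rw [h6]
      have h7 : V l * c l ≤ c l * (V l * (1 + c l)) := by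
        nlinarith [mul_nonneg (mul_nonneg (hV0 l).le (hc0 l)) (hc0 l)]
      have h8 := mul_le_mul_of_nonneg_right h7 h4
      linarith
    refine (Finset.sum_le_sum h2).trans ?_
    rw [← Finset.sum_mul, hVprod]
    have hVP : 0 ≤ ∏ p ∈ P, (1 - h p) :=
      Finset.prod_nonneg fun p hp => by linarith [(hg p hp).2]
    have h9 : ∏ j ∈ s, (1 + c j) ≤ 4 := by
      have h10 : ∏ j ∈ s, (1 + c j) ≤ ∏ j ∈ s, Real.exp (c j) :=
        Finset.prod_le_prod (fun j _ => by linarith [hc0 j])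
          (fun j _ => by linarith [Real.add_one_le_exp (c j)])
      rw [← Real.exp_sum] at h10
      have h11 : ∑ j ∈ s, c j ≤ 1 := by
        refine hcsum.trans ?_
        have : Real.exp (-(b : ℝ)) ≤ 1 := Real.exp_le_one_iff.2 (by
          have : (0 : ℝ) ≤ b := Nat.cast_nonneg b
          linarith)
        linarith
      have h12 := Real.exp_le_exp.2 h11
      linarith [Real.exp_one_lt_three]
    have h13 : 0 ≤ ∏ j ∈ s, (1 + c j) := Finset.prod_nonneg fun j _ => by linarith [hc0 j]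
    have h14 : (∏ p ∈ P, (1 - h p)) * ∏ j ∈ s, (1 + c j) ≤ (∏ p ∈ P, (1 - h p)) * 4 :=
      mul_le_mul_of_nonneg_left h9 hVP
    calc (∑ j ∈ s, c j) * ((∏ p ∈ P, (1 - h p)) * ∏ j ∈ s, (1 + c j))
        ≤ (Real.exp (-b) / 4) * ((∏ p ∈ P, (1 - h p)) * 4) :=
          mul_le_mul hcsum h14 (mul_nonneg hVP h13) (by positivity)
      _ = Real.exp (-b) * ∏ p ∈ P, (1 - h p) := by ring

  · have h1 := q_prod s A bb hdisj h
    rw [hun] at h1
    rw [h1]
    set e : ℕ → ℝ := fun j => 2 * Real.exp (14 * L₀) * Real.exp (-(2 * b + 2 * j + 3)) with he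
    have he0 : ∀ j, 0 ≤ e j := fun j => by simp only [he]; positivity
    have hE : ∀ j, ∑ u ∈ (A j).powerset.filter (fun u => #u = bb j + 1),
        ∑ v ∈ (A j).powerset.filter (fun v => #v = bb j + 1), ∏ p ∈ u ∪ v, h p ≤ V j * e j := by
      intro j
      refine (q_err (bb j + 1) h (A j) (fun p hp => (hhA j p hp).1)).trans ?_
      have h2 : ∀ t ∈ Icc (bb j + 1) (2 * (bb j + 1)),
          (4 : ℝ) ^ t * ((∑ p ∈ A j, h p) ^ t / (t.factorial : ℝ)) ≤
            Real.exp (12 * L₀) * Real.exp (-(t : ℝ)) := by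
        intro t _
        have h3 := pow_div_factorial_le (4 * L₀) (by linarith) t
        have h4 : (4 : ℝ) ^ t * ((∑ p ∈ A j, h p) ^ t / (t.factorial : ℝ)) ≤
            (4 * L₀) ^ t / (t.factorial : ℝ) := by
          rw [mul_pow, mul_div_assoc]
          refine mul_le_mul_of_nonneg_left ?_ (by positivity)
          refine div_le_div_of_nonneg_right ?_ (Nat.cast_nonneg _)
          exact pow_le_pow_left₀ (Finset.sum_nonneg fun p hp => (hhA j p hp).1) (hsumA j) _
        refine (h4.trans h3).trans (le_of_eq ?_)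
        congr 2
        ring
      refine (Finset.sum_le_sum h2).trans ?_
      rw [← Finset.mul_sum]
      have h5 := tail_exp (bb j + 1)
      have h6 : Real.exp (12 * L₀) * ∑ t ∈ Icc (bb j + 1) (2 * (bb j + 1)), Real.exp (-(t : ℝ)) ≤
          Real.exp (12 * L₀) * (2 * Real.exp (-((bb j + 1 : ℕ) : ℝ))) :=
        mul_le_mul_of_nonneg_left h5 (Real.exp_pos _).le
      refine h6.trans ?_
      have h7 : Real.exp (-(2 * L₀)) * e j ≤ V j * e j :=
        mul_le_mul_of_nonneg_right (hVpos j) (he0 j)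
      refine le_trans (le_of_eq ?_) h7
      simp only [he, hbb]
      rw [show Real.exp (12 * L₀) * (2 * Real.exp (-((2 * (b + (j + 1)) + 1 : ℕ) : ℝ))) =
        2 * (Real.exp (12 * L₀) * Real.exp (-((2 * (b + (j + 1)) + 1 : ℕ) : ℝ))) by ring,
        show Real.exp (-(2 * L₀)) * (2 * Real.exp (14 * L₀) *
          Real.exp (-(2 * (b : ℝ) + 2 * (j : ℝ) + 3))) =
        2 * (Real.exp (-(2 * L₀)) * Real.exp (14 * L₀) *
          Real.exp (-(2 * (b : ℝ) + 2 * (j : ℝ) + 3))) by ring,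
        ← Real.exp_add, ← Real.exp_add, ← Real.exp_add]
      congr 2
      push_cast
      ring
    have hesum : ∑ j ∈ s, e j ≤ 1 := by
      have h2 : ∀ j ∈ s, e j ≤ 1 / 16 * (1 / 2) ^ j := by
        intro j _
        have he1 : Real.exp (-1) ≤ 1 / 2 := by
          rw [Real.exp_neg, one_div]
          exact inv_anti₀ (by norm_num) (by linarith [Real.add_one_le_exp (1 : ℝ)])
        have h3 : Real.exp (14 * L₀) * Real.exp (-(2 * b + 2 * j + 3)) ≤
            Real.exp (-1) ^ (j + 5) := by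
          rw [← Real.exp_nat_mul, ← Real.exp_add]
          refine Real.exp_le_exp.2 ?_
          push_cast
          have : (0 : ℝ) ≤ j := Nat.cast_nonneg j
          have : (0 : ℝ) ≤ b := Nat.cast_nonneg b
          linarith
        have h4 : Real.exp (-1) ^ (j + 5) ≤ (1 / 2) ^ (j + 5) :=
          pow_le_pow_left₀ (Real.exp_pos _).le he1 _
        have h5 : (1 / 2 : ℝ) ^ (j + 5) = 1 / 32 * (1 / 2) ^ j := by
          rw [pow_add]; norm_num; ring
        simp only [he]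
        rw [h5] at h4
        linarith
      refine (Finset.sum_le_sum h2).trans ?_
      rw [← Finset.mul_sum]
      have h6 : ∑ j ∈ s, (1 / 2 : ℝ) ^ j ≤ 2 := by
        have h7 := geom_sum_eq (x := (1 / 2 : ℝ)) (by norm_num) z
        rw [hs, h7]
        have : 0 < (1 / 2 : ℝ) ^ z := by positivity
        rw [div_le_iff_of_neg (by norm_num)]
        linarith
      linarith
    have h8 : ∏ j ∈ s, (∑ u ∈ (A j).powerset.filter (fun u => #u ≤ bb j),
        ∑ v ∈ (A j).powerset.filter (fun v => #v ≤ bb j),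
          (-1 : ℝ) ^ #u * (-1) ^ #v * ∏ p ∈ u ∪ v, h p) ≤ ∏ j ∈ s, (V j * (1 + e j)) := by
      refine Finset.prod_le_prod (fun j _ => q_block_nonneg (bb j) h (A j) (hhA j))
        (fun j hj => ?_)
      have h9 := q_block (bb j) (heven j hj) h (A j) (hhA j)
      have h10 := hE j
      have h11 : ∏ p ∈ A j, (1 - h p) = V j := rfl
      rw [h11] at h9
      linarith
    refine h8.trans ?_
    rw [Finset.prod_mul_distrib, hVprod, mul_comm]
    refine mul_le_mul_of_nonneg_right ?_ hVP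
    have h12 : ∏ j ∈ s, (1 + e j) ≤ ∏ j ∈ s, Real.exp (e j) :=
      Finset.prod_le_prod (fun j _ => by linarith [he0 j])
        (fun j _ => by linarith [Real.add_one_le_exp (e j)])
    rw [← Real.exp_sum] at h12
    have h13 := Real.exp_le_exp.2 hesum
    linarith [Real.exp_one_lt_three]

end Pool.Agent.Work.MP_73869e_nt.P5
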