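import Mathlib
import Pool.Agent.Work.MP_73869e_nt.P5.Defs
import Pool.Agent.Work.MP_73869e_nt.P5.BH2
import Pool.Agent.Work.MP_2dba45_nt.Sv.Mert1

set_option autoImplicit false

/-!
Module EnvE (size M). (1) blk_bound: sum over the primes y ≤ p < y^2 of 2/p is bounded (Mertens; copy the
argument of Sv.gom_block, file Sv/Mert1.lean, or use Sv.mt_psum with Mert.mertens_one for all primes:
for y < 3 the primes are ≤ 9, so the sum is at most 9; for y ≥ 3 it is at most 2 (log 4 + C)). The constant does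
not depend on P.
(2) env_ev: apply bh2 with this L₀ to P = Psm q δ N, z = pw N δ: for N large z ≥ 2, the elements p of P
satisfy 2 ≤ p < z, p > zN N ≥ 4, so 0 ≤ g p = 2/p ≤ 1/2. The threshold b₀ comes from L₀ only. K is finite:
choose lp, dp for each q in K (Classical.choose, zero otherwise).
(3) par5: choose b ≥ b₀ so large that exp(-b) * 1000 * (4b+10) ≤ s and 1 ≤ 1000 (4b+10) δ₁, then
δ := 1/(1000 (4b+10)).
-/

namespace Pool.Agent.Work.MP_73869e_nt.P5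

open Finset Filter Pool.Agent.Work.MP_73869e_nt.AP

private theorem enve_g_le_one {p : ℕ} (hp : 2 ≤ p) : g p ≤ 1 := by
  unfold g
  have h1 : (2 : ℝ) ≤ p := by exact_mod_cast hp
  rw [div_le_one (by linarith)]
  exact h1

private theorem enve_g_nonneg (p : ℕ) : 0 ≤ g p := by
  unfold g
  positivity

theorem blk_bound : ∃ L₀ : ℝ, 0 ≤ L₀ ∧ ∀ P : Finset ℕ, (∀ p ∈ P, p.Prime) → ∀ y : ℝ, 1 ≤ y →
    ∑ p ∈ P.filter (fun p : ℕ => y ≤ (p : ℝ) ∧ (p : ℝ) < y ^ 2), g p ≤ L₀ := by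
  obtain ⟨C, hC0, hC⟩ := Pool.Agent.Work.MP_2dba45_nt.Psum.psum_one
  have hlog4 : 0 ≤ Real.log 4 := Real.log_nonneg (by norm_num)
  refine ⟨2 * (C + Real.log 4) + 9, by linarith, fun P hP y hy => ?_⟩
  rcases lt_or_ge y 3 with hy3 | hy3
  · have hsub : P.filter (fun p : ℕ => y ≤ (p : ℝ) ∧ (p : ℝ) < y ^ 2) ⊆ Finset.Icc 1 9 := by
      intro p hp
      rw [Finset.mem_filter] at hp
      rw [Finset.mem_Icc]
      refine ⟨(hP p hp.1).pos, ?_⟩
      have h1 : (p : ℝ) < 9 := by nlinarith [hp.2.2]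
      exact_mod_cast h1.le
    have h1 : ∑ p ∈ P.filter (fun p : ℕ => y ≤ (p : ℝ) ∧ (p : ℝ) < y ^ 2), g p
        ≤ ∑ p ∈ P.filter (fun p : ℕ => y ≤ (p : ℝ) ∧ (p : ℝ) < y ^ 2), (1 : ℝ) := by
      refine Finset.sum_le_sum fun p hp => ?_
      rw [Finset.mem_filter] at hp
      exact enve_g_le_one (hP p hp.1).two_le
    refine h1.trans ?_
    rw [Finset.sum_const, nsmul_eq_mul, mul_one]
    have h2 := Finset.card_le_card hsub
    rw [Nat.card_Icc] at h2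
    have h3 : ((#(P.filter (fun p : ℕ => y ≤ (p : ℝ) ∧ (p : ℝ) < y ^ 2)) : ℕ) : ℝ) ≤ 9 := by
      exact_mod_cast h2
    linarith
  · set W := ⌈y⌉₊ - 1 with hW
    set X := ⌈y ^ 2⌉₊ with hX
    have hy0 : (0 : ℝ) ≤ y := by linarith
    have hceil : 3 ≤ ⌈y⌉₊ := by
      have : (3 : ℝ) ≤ ⌈y⌉₊ := hy3.trans (Nat.le_ceil y)
      exact_mod_cast this
    have hW2 : 2 ≤ W := by omega
    have hWc : (W : ℝ) + 1 = (⌈y⌉₊ : ℝ) := by
      rw [hW]
      have : ((⌈y⌉₊ - 1 : ℕ) : ℝ) = (⌈y⌉₊ : ℝ) - 1 := by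
        rw [Nat.cast_sub (by omega)]; simp
      rw [this]; ring
    have hWlt : (W : ℝ) < y := by
      have := Nat.ceil_lt_add_one hy0
      linarith
    have hyW : y - 1 ≤ W := by
      have := Nat.le_ceil y
      linarith
    have hXge : y ^ 2 ≤ X := Nat.le_ceil _
    have hXle : (X : ℝ) ≤ y ^ 2 + 1 := (Nat.ceil_lt_add_one (by positivity)).le
    have hWX : W ≤ X := by
      have : (W : ℝ) ≤ X := by nlinarith
      exact_mod_cast this
    have hsub : P.filter (fun p : ℕ => y ≤ (p : ℝ) ∧ (p : ℝ) < y ^ 2)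
        ⊆ (Ioc W X).filter Nat.Prime := by
      intro p hp
      rw [Finset.mem_filter] at hp
      rw [Finset.mem_filter, Finset.mem_Ioc]
      refine ⟨⟨?_, ?_⟩, hP p hp.1⟩
      · have : (W : ℝ) < p := lt_of_lt_of_le hWlt hp.2.1
        exact_mod_cast this
      · have : (p : ℝ) ≤ X := hp.2.2.le.trans hXge
        exact_mod_cast this
    have h1 : ∑ p ∈ P.filter (fun p : ℕ => y ≤ (p : ℝ) ∧ (p : ℝ) < y ^ 2), g p
        ≤ 2 * ∑ p ∈ (Ioc W X).filter Nat.Prime, 1 / (p : ℝ) := by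
      refine (Finset.sum_le_sum_of_subset_of_nonneg hsub fun p _ _ => enve_g_nonneg p).trans ?_
      rw [Finset.mul_sum]
      refine Finset.sum_le_sum fun p hp => ?_
      unfold g
      exact le_of_eq (by ring)
    have h2 := hC W X hW2 hWX
    have hWr : (2 : ℝ) ≤ W := by exact_mod_cast hW2
    have hlW : 0 < Real.log W := Real.log_pos (by linarith)
    have hlX : Real.log X ≤ 4 * Real.log W := by
      have h4 : (X : ℝ) ≤ (W : ℝ) ^ 4 := by
        have h5 : y ≤ W + 1 := by linarith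
        have h6 : y ^ 2 ≤ ((W : ℝ) + 1) ^ 2 := by nlinarith
        have h7 : ((W : ℝ) + 1) ^ 2 + 1 ≤ (W : ℝ) ^ 4 := by
          nlinarith [sq_nonneg ((W : ℝ) - 2), mul_nonneg (by linarith : (0 : ℝ) ≤ (W : ℝ) - 2)
            (by positivity : (0 : ℝ) ≤ (W : ℝ) ^ 3), mul_nonneg (by linarith : (0 : ℝ) ≤ (W : ℝ) - 2)
            (by positivity : (0 : ℝ) ≤ (W : ℝ) ^ 2), mul_nonneg (by linarith : (0 : ℝ) ≤ (W : ℝ) - 2)
            (by positivity : (0 : ℝ) ≤ (W : ℝ))]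
        linarith
      have hX0 : (0 : ℝ) < X := by nlinarith
      have h8 := Real.log_le_log hX0 h4
      rw [Real.log_pow] at h8
      exact_mod_cast h8
    have hlX0 : 0 < Real.log X := by
      apply Real.log_pos
      nlinarith
    have h9 : Real.log (Real.log X) - Real.log (Real.log W) ≤ Real.log 4 := by
      have h10 := Real.log_le_log hlX0 hlX
      rw [Real.log_mul (by norm_num) hlW.ne'] at h10
      linarith
    have h11 := (abs_le.1 h2).2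
    linarith

theorem env_ev : ∃ b₀ : ℕ, ∀ b : ℕ, b₀ ≤ b → ∀ δ : ℝ, 0 < δ → ∀ K : Finset ℕ,
    ∀ᶠ N : ℕ in atTop, ∃ lp dp : ℕ → Finset ℕ → ℝ, Env δ b N K lp dp := by
  obtain ⟨L₀, hL₀, hblk⟩ := blk_bound
  obtain ⟨b₀, hb₀⟩ := bh2 L₀ hL₀
  refine ⟨b₀, fun b hb δ hδ K => ?_⟩
  have hpw : ∀ᶠ N : ℕ in atTop, 2 ≤ Pool.Agent.Work.MP_2dba45_nt.Sv.pw N δ := by
    have h1 : Tendsto (fun N : ℕ => (N : ℝ) ^ δ) atTop atTop :=
      (tendsto_rpow_atTop hδ).comp tendsto_natCast_atTop_atTop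
    filter_upwards [h1.eventually_ge_atTop 2] with N hN
    unfold Pool.Agent.Work.MP_2dba45_nt.Sv.pw
    have h2 : (2 : ℝ) ≤ ⌈(N : ℝ) ^ δ⌉₊ := hN.trans (Nat.le_ceil _)
    exact_mod_cast h2
  have hzN : ∀ᶠ N : ℕ in atTop, 4 ≤ zN N := by
    filter_upwards [eventually_ge_atTop 4] with N hN
    unfold zN
    have h1 : 2 ≤ Nat.log 2 N := by
      have h2 := Nat.log_mono_right (b := 2) hN
      have h3 : Nat.log 2 4 = 2 := by decide
      omega
    calc 4 ≤ 2 ^ 20 := by norm_num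
      _ ≤ (Nat.log 2 N) ^ 20 := Nat.pow_le_pow_left h1 20
  filter_upwards [hpw, hzN] with N hN1 hN2
  have h : ∀ q : ℕ, ∃ lp dp : Finset ℕ → ℝ,
      BHW (Psm q δ N) g (Pool.Agent.Work.MP_2dba45_nt.Sv.pw N δ) b lp dp := by
    intro q
    have hmem : ∀ p ∈ Psm q δ N, p.Prime ∧ 4 < p ∧
        p < Pool.Agent.Work.MP_2dba45_nt.Sv.pw N δ := by
      intro p hp
      unfold Psm PA at hp
      rw [Finset.mem_filter, Finset.mem_filter, Finset.mem_Ioo] at hp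
      exact ⟨hp.1.2.1, by omega, hp.2⟩
    refine hb₀ b hb _ _ _ hN1 (fun p hp => ?_) (fun p hp => ?_) (hblk _ fun p hp => (hmem p hp).1)
    · obtain ⟨h1, h2, h3⟩ := hmem p hp
      exact ⟨by omega, h3⟩
    · obtain ⟨h1, h2, h3⟩ := hmem p hp
      refine ⟨enve_g_nonneg p, ?_⟩
      unfold g
      have h4 : (4 : ℝ) < p := by exact_mod_cast h2
      rw [div_le_iff₀ (by linarith)]
      linarith
  choose lp dp hlp using h
  exact ⟨lp, dp, fun q _ => hlp q⟩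

theorem par5 (s : ℝ) (hs : 0 < s) (b₀ : ℕ) (δ₁ : ℝ) (hδ₁ : 0 < δ₁) : ∃ (δ : ℝ) (b : ℕ), 0 < δ ∧
    δ ≤ δ₁ ∧ b₀ ≤ b ∧ δ * (4 * b + 10) ≤ 1 / 1000 ∧ Real.exp (-(b : ℝ)) ≤ s * δ := by
  obtain ⟨B1, hB1⟩ := exists_nat_ge (28000 / s)
  obtain ⟨B2, hB2⟩ := exists_nat_ge (1 / δ₁)
  obtain ⟨b, hb⟩ : ∃ b : ℕ, b = b₀ + B1 + B2 + 1 := ⟨_, rfl⟩
  have hb1 : (1 : ℝ) ≤ b := by exact_mod_cast (by omega : 1 ≤ b)
  have hb2 : 28000 / s ≤ (b : ℝ) := hB1.trans (by exact_mod_cast (by omega : B1 ≤ b))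
  have hb3 : 1 / δ₁ ≤ (b : ℝ) := hB2.trans (by exact_mod_cast (by omega : B2 ≤ b))
  have hpos : (0 : ℝ) < 1000 * (4 * b + 10) := by positivity
  refine ⟨1 / (1000 * (4 * b + 10)), b, by positivity, ?_, by omega, ?_, ?_⟩
  · rw [div_le_iff₀ hpos]
    rw [div_le_iff₀ hδ₁] at hb3
    nlinarith
  · have h1 : (4 * (b : ℝ) + 10) ≠ 0 := by positivity
    apply le_of_eq
    field_simp
  · have h1 := Real.quadratic_le_exp_of_nonneg (x := (b : ℝ)) (by linarith)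
    have h2 : (b : ℝ) ^ 2 / 2 ≤ Real.exp b := by nlinarith
    have h3 : 0 < Real.exp (b : ℝ) := Real.exp_pos _
    rw [Real.exp_neg, mul_one_div, inv_eq_one_div, div_le_div_iff₀ h3 hpos, one_mul]
    rw [div_le_iff₀ hs] at hb2
    have h4 : (1000 : ℝ) * (4 * b + 10) ≤ 14000 * b := by nlinarith
    have h5 : (14000 : ℝ) * b ≤ s * ((b : ℝ) ^ 2 / 2) := by nlinarith
    have h6 : s * ((b : ℝ) ^ 2 / 2) ≤ s * Real.exp b := mul_le_mul_of_nonneg_left h2 hs.le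
    linarith

end Pool.Agent.Work.MP_73869e_nt.P5
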