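import Mathlib
import Pool.Agent.Work.MP_73869e_nt.P5.Defs
import Pool.Agent.Work.MP_2dba45_nt.Sv.WWEq
import Pool.Agent.Work.MP_2dba45_nt.Sv.Box
import Pool.Agent.Work.MP_2dba45_nt.Sv.TypeSum

set_option autoImplicit false

/-!
Module PhB (size M). The coefficients ph k N T = phi (190k) (450k) (495k) (wt5 k) lam5 (costs ..).
(1) ph_le_one: |ph| ≤ 1: as Sv.phi_bound (WWEq.lean): 0 ≤ wt5 k x ≤ 1 + 1/450 for x ≤ 450 k and
lam5 (1 + 1/450) ≤ 1.
(2) ph_level: if T is a set of primes p with pw N δ ≤ p (any set of positive integers will do) and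
ph k N T ≠ 0 then the sum of the costs of T is at most 495 k, hence ∏ p in T ≤ N^(495/1000) by
Sv.prod_le_of_cost. Proof of the cost bound: for a list c which is sorted (c.Pairwise (· ≥ ·)) and
L ≥ 0: adm true L c implies c.sum ≤ L, and adm false L c together with (c.head ≤ L or c = []) implies
c.sum ≤ L (induction on c, both statements together: if c = x :: t and par = true then 3x ≤ L, so the
head of t, which is ≤ x, is ≤ L - x, and adm false (L-x) t; if par = false and x ≤ L then
adm true (L-x) t). In phi: in the first case all entries are ≤ 190 k ≤ 495 k and adm false (495k) c; in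
the second case c = x :: t, x ≤ 450 k, adm true (495k - x) t. The list costs (cost ..) T is sorted since
cost is monotone (Sv.cost_mono; see Sv.costs_pairwise in TypeSum.lean).
-/

namespace Pool.Agent.Work.MP_73869e_nt.P5

open Finset Pool.Agent.Work.MP_2dba45_nt.Sv

private lemma phi_one (k : ℕ) (hk : 1 ≤ k) (c : List ℕ) :
    |phi (190 * k) (450 * k) (495 * k) (wt5 k) lam5 c| ≤ 1 := by
  classical
  have hk' : (1 : ℝ) ≤ k := by exact_mod_cast hk
  unfold phi
  split_ifs with h1 h2
  · rw [abs_pow, abs_neg, abs_one, one_pow]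
  · rw [abs_zero]
    norm_num
  · cases c with
    | nil => simp
    | cons x t =>
      simp only
      split_ifs with h3
      · have hx : (x : ℝ) ≤ 450 * k := by exact_mod_cast h3.2.1
        have hx0 : (0 : ℝ) ≤ x := Nat.cast_nonneg x
        have hk0 : (0 : ℝ) < 450 * k := by positivity
        have hw1 : wt5 k x ≤ 1 + 1 / 450 := by
          unfold wt5
          have : -(1 / 450 : ℝ) ≤ ((x : ℝ) - 1) / (450 * k) := by
            rw [le_div_iff₀ hk0]
            nlinarith
          linarith
        have hw0 : 0 ≤ wt5 k x := by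
          unfold wt5
          have : ((x : ℝ) - 1) / (450 * k) ≤ 1 := by
            rw [div_le_one hk0]
            linarith
          linarith
        rw [abs_neg, abs_mul, abs_mul, abs_pow, abs_neg, abs_one, one_pow, mul_one,
          abs_of_nonneg hw0]
        unfold lam5
        rw [abs_of_nonneg (by norm_num)]
        nlinarith
      · rw [abs_zero]
        norm_num

theorem ph_le_one (k : ℕ) (hk : 1 ≤ k) (N : ℕ) (T : Finset ℕ) : |ph k N T| ≤ 1 := by
  unfold ph
  exact phi_one k hk _

private lemma adm_sum (c : List ℕ) : ∀ L : ℤ, c.Pairwise (· ≥ ·) → 0 ≤ L →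
    (adm true L c → ((c.sum : ℕ) : ℤ) ≤ L) ∧
    ((∀ x ∈ c, (x : ℤ) ≤ L) → adm false L c → ((c.sum : ℕ) : ℤ) ≤ L) := by
  induction c with
  | nil =>
    intro L _ hL
    exact ⟨fun _ => by simpa using hL, fun _ _ => by simpa using hL⟩
  | cons x t ih =>
    intro L hp hL
    rw [List.pairwise_cons] at hp
    obtain ⟨hx, ht⟩ := hp
    have hx0 : (0 : ℤ) ≤ (x : ℤ) := Int.natCast_nonneg x
    refine ⟨fun h => ?_, fun hle h => ?_⟩
    · unfold adm at h
      have h3 : 3 * (x : ℤ) ≤ L := h.1 rfl
      have h4 : adm false (L - x) t := h.2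
      have h5 : ∀ y ∈ t, (y : ℤ) ≤ L - x := by
        intro y hy
        have h6 : (y : ℤ) ≤ x := by exact_mod_cast hx y hy
        linarith
      have h7 := (ih (L - x) ht (by linarith)).2 h5 h4
      rw [List.sum_cons]
      push_cast
      push_cast at h7
      linarith
    · unfold adm at h
      have h4 : adm true (L - x) t := h.2
      have h6 : (x : ℤ) ≤ L := hle x List.mem_cons_self
      have h7 := (ih (L - x) ht (by linarith)).1 h4
      rw [List.sum_cons]
      push_cast
      push_cast at h7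
      linarith

private lemma phi_sum (k : ℕ) (c : List ℕ) (hc : c.Pairwise (· ≥ ·))
    (h : phi (190 * k) (450 * k) (495 * k) (wt5 k) lam5 c ≠ 0) : c.sum ≤ 495 * k := by
  classical
  have hk0 : (0 : ℤ) ≤ (k : ℤ) := Int.natCast_nonneg k
  unfold phi at h
  split_ifs at h with h1 h2
  · have h3 := (adm_sum c (495 * k) hc (by linarith)).2 (fun x hx => by
      have h4 : (x : ℤ) ≤ 190 * k := by exact_mod_cast h1 x hx
      linarith) h2
    exact_mod_cast h3
  · exact absurd rfl h
  · cases c with
    | nil => simp at h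
    | cons x t =>
      have h3 : (∀ y ∈ t, y ≤ 190 * k) ∧ x ≤ 450 * k ∧ adm true (495 * (k : ℤ) - x) t := by
        by_contra hc'
        exact h (if_neg hc')
      have h4 : (x : ℤ) ≤ 450 * k := by exact_mod_cast h3.2.1
      have h5 := (adm_sum t (495 * k - x) (List.pairwise_cons.1 hc).2 (by linarith)).1 h3.2.2
      have h6 : ((((x :: t).sum : ℕ)) : ℤ) ≤ 495 * k := by
        rw [List.sum_cons]
        push_cast
        push_cast at h5
        linarith
      exact_mod_cast h6

theorem ph_level (k : ℕ) (hk : 1 ≤ k) (N : ℕ) (hN : 2 ≤ N) (T : Finset ℕ) (hT : ∀ p ∈ T, p.Prime)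
    (h : ph k N T ≠ 0) : ((∏ p ∈ T, p : ℕ) : ℝ) ≤ (N : ℝ) ^ ((495 : ℝ) / 1000) := by
  unfold ph at h
  have h1 : ∀ p ∈ T, 1 ≤ p := fun p hp => (hT p hp).one_lt.le
  have h2 := phi_sum k _ (costs_pairwise (cost (1000 * k) N) T
    fun p hp q _ hpq => cost_mono _ N p q hN (h1 p hp) hpq) h
  have h3 : (T.val.map (cost (1000 * k) N)).sum ≤ 495 * k := by
    rw [← costs_coe, Multiset.sum_coe]
    exact h2
  have h4 := prod_le_of_cost (1000 * k) N (495 * k) (by omega) hN T h1 h3
  have hk' : (k : ℝ) ≠ 0 := by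
    have : 0 < k := hk
    positivity
  have h5 : (((495 * k : ℕ) : ℝ)) / ((1000 * k : ℕ) : ℝ) = (495 : ℝ) / 1000 := by
    push_cast
    rw [mul_div_mul_right _ _ hk']
  rwa [h5] at h4

end Pool.Agent.Work.MP_73869e_nt.P5
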