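import Mathlib
import Pool.Agent.Work.MP_73869e_nt.P5.Defs
import Pool.Agent.Work.MP_73869e_nt.AP.Sums
import Pool.Agent.Work.MP_73869e_nt.AP.MomAsy
import Pool.Agent.Work.MP_73869e_nt.AP.MomB

set_option autoImplicit false

/-!
Module Cb (size M, a port of parts of AP/MomAsy.lean, AP/MomB.lean, AP/Sums.lean).
ev_pow5: copy AP.ev_pow with 1/1000 instead of 1/100 (and an extra factor 4).
sum_PA: Σ over p in PA q N of 2/p ≤ C + log log N: copy AP.sum_g_le (PP replaced by PA: the primes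
zN < p < N; from AP.mert_q and partial summation, psum_diff etc. of AP/Sums.lean; the range starts at a
value ≥ 2 so that the lower limit only helps).
A1_le5, A1p_le5: copy AP.A1_le, AP.A1p_le of AP/MomB.lean (momSum_le, momTri_insert, momTri_gg_le are
general in P).
A2_le5: 2^#(T1 ∪ T2 ∪ T3) ≤ product of the 2^#Ti; for zN N ≥ 2^3000 every T with prd T ≤ N^x has
2^#T ≤ N^(x/3000) (all primes > 2^3000) and the number of such T is at most N^x (prd is injective,
AP.prd_inj); so A2 ≤ (N^(x + x/3000))^2 N^(y + y/3000) ≤ N^(2x + y + 1/1000) as x, y ≤ 1.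
-/

namespace Pool.Agent.Work.MP_73869e_nt.P5

open Finset Filter Pool.Agent.Work.MP_2dba45_nt.Sel Pool.Agent.Work.MP_73869e_nt.AP

private theorem cb_pow {q N : ℕ} {X : ℝ} (hz : 2 ^ 3000 ≤ zN N) {T : Finset ℕ}
    (hT : T ⊆ PA q N) (hX : (prd T : ℝ) ≤ X) : (2 : ℝ) ^ #T ≤ X ^ ((1 : ℝ) / 3000) := by
  have h1 : ((2 : ℝ) ^ #T) ^ 3000 ≤ X := by
    refine le_trans ?_ hX
    have h2 : (2 ^ 3000) ^ #T ≤ prd T := by
      unfold prd
      rw [← prod_const]
      refine prod_le_prod' fun p hp => ?_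
      have h3 := hT hp
      unfold PA at h3
      exact hz.trans (mem_Ioo.1 (mem_filter.1 h3).1).1.le
    have h3 : ((2 ^ #T) ^ 3000 : ℕ) ≤ prd T := by
      rw [← pow_mul, mul_comm, pow_mul]; exact h2
    calc ((2 : ℝ) ^ #T) ^ 3000 = (((2 ^ #T) ^ 3000 : ℕ) : ℝ) := by push_cast; ring
      _ ≤ (prd T : ℝ) := by exact_mod_cast h3
  have h0 : (0 : ℝ) ≤ (2 : ℝ) ^ #T := by positivity
  calc (2 : ℝ) ^ #T = (((2 : ℝ) ^ #T) ^ 3000) ^ ((1 : ℝ) / 3000) := by
        rw [← Real.rpow_natCast ((2 : ℝ) ^ #T) 3000, ← Real.rpow_mul h0]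
        norm_num
    _ ≤ X ^ ((1 : ℝ) / 3000) := by
        apply Real.rpow_le_rpow (by positivity) h1 (by norm_num)

private theorem cb_card {q N : ℕ} {X : ℝ} {D : Finset (Finset ℕ)} (hD : D ⊆ (PA q N).powerset)
    (hX : 0 ≤ X) (h : ∀ T ∈ D, (prd T : ℝ) ≤ X) : (#D : ℝ) ≤ X := by
  have hpr : ∀ T ∈ D, ∀ p ∈ T, p.Prime := by
    intro T hT p hp
    have h3 := (mem_powerset.1 (hD hT)) hp
    unfold PA at h3
    exact (mem_filter.1 h3).2.1
  have h1 : #D ≤ #(Ioc 0 ⌊X⌋₊) := by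
    refine card_le_card_of_injOn prd ?_ ?_
    · intro T hT
      have hpos : 0 < prd T := by
        unfold prd
        exact prod_pos fun p hp => (hpr T hT p hp).pos
      rw [mem_coe, mem_Ioc]
      exact ⟨hpos, Nat.le_floor (h T hT)⟩
    · intro T hT T' hT' h'
      exact prd_inj (hpr T hT) (hpr T' hT') h'
  rw [Nat.card_Ioc, Nat.sub_zero] at h1
  calc (#D : ℝ) ≤ (⌊X⌋₊ : ℝ) := by exact_mod_cast h1
    _ ≤ X := Nat.floor_le hX

theorem ev_pow5 : ∀ᶠ N : ℕ in atTop,
    4 * (1 + 4 * ((zN N : ℕ) : ℝ)) ^ (2 * bN N + 1) ≤ (N : ℝ) ^ ((1 : ℝ) / 1000) := by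
  filter_upwards [tendsto_logN.eventually (ev_t 100000), eventually_ge_atTop 8] with N hN h8
  obtain ⟨t, ht, ht1, hL, hsq, hlog⟩ := hN
  have hL1 : 1 ≤ Real.log N := by rw [hL]; nlinarith [pow_le_pow_left₀ (by norm_num) ht1 4]
  have hL0 : 0 < Real.log N := by linarith
  have hN0 : (0 : ℝ) < N := by exact_mod_cast (by omega : 0 < N)
  have hb : (bN N : ℝ) ≤ √(Real.log N) := Nat.floor_le (Real.sqrt_nonneg _)
  rw [hsq] at hb
  have hz1 : (1 : ℝ) ≤ zN N := by
    have := zN_ge N h8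
    have : (1 : ℝ) ≤ Real.log N ^ 20 := one_le_pow₀ hL1
    linarith
  have hz : Real.log (1 + 4 * (zN N : ℝ)) ≤ 2 + 20 * (1 + t) := by
    calc Real.log (1 + 4 * (zN N : ℝ)) ≤ Real.log (5 * (2 * Real.log N) ^ 20) := by
          apply Real.log_le_log (by linarith)
          have := zN_le N (by omega)
          linarith
      _ = Real.log 5 + 20 * (Real.log 2 + Real.log (Real.log N)) := by
          rw [Real.log_mul (by norm_num) (by positivity), Real.log_pow,
            Real.log_mul (by norm_num) hL0.ne']; norm_num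
      _ ≤ 2 + 20 * (1 + t) := by
          have h2 := Real.log_two_lt_d9
          have h5 : Real.log 5 ≤ 2 := by
            have h6 : Real.log 5 ≤ Real.log (2.7182818283 ^ 2) :=
              Real.log_le_log (by norm_num) (by norm_num)
            have h7 : Real.log (2.7182818283 ^ 2) ≤ Real.log (Real.exp 1 ^ 2) := by
              apply Real.log_le_log (by norm_num)
              have := Real.exp_one_gt_d9
              gcongr
            rw [← Real.exp_nat_mul, Real.log_exp] at h7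
            push_cast at h7
            linarith
          linarith
  have h0 : 0 < 1 + 4 * (zN N : ℝ) := by positivity
  rw [← Real.log_le_log_iff (by positivity) (by positivity), Real.log_mul (by norm_num)
    (by positivity), Real.log_pow, Real.log_rpow hN0, hL]
  push_cast
  have h4 : Real.log 4 ≤ 2 := by
    have h41 : Real.log 4 = 2 * Real.log 2 := by
      rw [show (4 : ℝ) = 2 ^ 2 by norm_num, Real.log_pow]
      norm_num
    have h2 := Real.log_two_lt_d9
    rw [h41]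
    linarith
  have hlz0 : 0 ≤ Real.log (1 + 4 * (zN N : ℝ)) := Real.log_nonneg (by linarith)
  have hmain : (2 * (bN N : ℝ) + 1) * Real.log (1 + 4 * (zN N : ℝ)) ≤ 63 * t ^ 3 := by
    calc (2 * (bN N : ℝ) + 1) * Real.log (1 + 4 * (zN N : ℝ))
        ≤ (2 * t ^ 2 + 1) * (2 + 20 * (1 + t)) := by
          apply mul_le_mul _ hz hlz0 (by positivity)
          linarith
      _ ≤ (3 * t ^ 2) * (21 * t) := by
          apply mul_le_mul
          · nlinarith
          · linarith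
          · positivity
          · positivity
      _ = 63 * t ^ 3 := by ring
  have h3 : 1 ≤ t ^ 3 := one_le_pow₀ ht1
  have h5 : 65 * t ^ 3 ≤ 1 / 1000 * t ^ 4 := by
    have h6 : t ^ 4 = t ^ 3 * t := by ring
    rw [h6]
    nlinarith
  linarith

theorem sum_PA (q : ℕ) (hq : q.Prime) (hq2 : q ≠ 2) : ∃ C : ℝ, 0 ≤ C ∧ ∀ᶠ N : ℕ in atTop,
    ∑ p ∈ PA q N, g p ≤ C + Real.log (Real.log N) := by
  obtain ⟨C, hC0, hC⟩ := mert_q q hq hq2
  have hl4 : 0 < Real.log 4 := Real.log_pos (by norm_num)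
  refine ⟨(2 * C + 1) / Real.log 4 + 2, by positivity, ?_⟩
  filter_upwards [ev_z 0, eventually_ge_atTop 3] with N hN hN3
  obtain ⟨hz4, _⟩ := hN
  have hz4R : (4 : ℝ) ≤ zN N := by exact_mod_cast hz4
  have hN3R : (3 : ℝ) ≤ N := by exact_mod_cast hN3
  have hlN1 : 1 ≤ Real.log N := by
    rw [Real.le_log_iff_exp_le (by linarith)]
    linarith [Real.exp_one_lt_d9]
  have hllN : 0 ≤ Real.log (Real.log N) := Real.log_nonneg hlN1
  have hlz : Real.log 4 ≤ Real.log (zN N) := Real.log_le_log (by norm_num) hz4R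
  have hlz1 : 1 ≤ Real.log (zN N) := by
    rw [Real.le_log_iff_exp_le (by linarith)]
    linarith [Real.exp_one_lt_d9]
  rcases Nat.lt_or_ge N (zN N) with h | h
  · have h1 : PA q N = ∅ := by
      unfold PA
      rw [Finset.Ioo_eq_empty (by omega), Finset.filter_empty]
    rw [h1, Finset.sum_empty]
    positivity
  · have hd := psum_diff hC0 hC (u := zN N) (v := N) (by omega) h
    rw [abs_le] at hd
    have hsub : PA q N ⊆ (Ioc (zN N) N).filter (good q) := by
      intro p hp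
      unfold PA at hp
      rw [Finset.mem_filter, Finset.mem_Ioo] at hp
      exact Finset.mem_filter.2 ⟨Finset.mem_Ioc.2 ⟨hp.1.1, hp.1.2.le⟩, hp.2⟩
    have h0 : ∑ p ∈ PA q N, g p ≤ ∑ p ∈ (Ioc (zN N) N).filter (good q), g p :=
      Finset.sum_le_sum_of_subset_of_nonneg hsub fun p _ _ => g_nonneg p
    have h2 : 0 ≤ Real.log (Real.log (zN N)) := Real.log_nonneg hlz1
    have h3 : (2 * C + 1) / Real.log (zN N) ≤ (2 * C + 1) / Real.log 4 :=
      div_le_div_of_nonneg_left (by linarith) hl4 hlz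
    have h4 : (6 : ℝ) / zN N ≤ 2 := by
      rw [div_le_iff₀ (by linarith)]
      linarith
    linarith [hd.2]

theorem A1_le5 (q N : ℕ) (D E : Finset (Finset ℕ)) (hD : D ⊆ (PA q N).powerset)
    (hE : E ⊆ (PA q N).powerset) : A1 D E ≤ Real.exp (7 * ∑ p ∈ PA q N, g p) := by
  unfold A1
  exact (momSum_le hD hE (gg g) gg_g_nonneg).trans (momTri_gg_le _)

theorem A1p_le5 (q N : ℕ) (D E : Finset (Finset ℕ)) (hD : D ⊆ (PA q N).powerset)
    (hE : E ⊆ (PA q N).powerset) (p : ℕ) (hp : p ∈ PA q N) :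
    A1p D E p ≤ 7 * g p * Real.exp (7 * ∑ p ∈ PA q N, g p) := by
  unfold A1p
  refine (momSum_le hD hE (fun U => if p ∈ U then gg g U else 0) fun T => ?_).trans ?_
  · split_ifs
    · exact gg_g_nonneg T
    · exact le_refl _
  have hins : insert p ((PA q N).erase p) = PA q N := insert_erase hp
  have h1 : momTri (PA q N) (fun U => if p ∈ U then gg g U else 0) =
      7 * g p * momTri ((PA q N).erase p) (gg g) := by
    conv_lhs => rw [← hins]
    rw [momTri_insert _ p (notMem_erase p _), ← momTri_mul]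
    refine momTri_congr _ _ _ fun U hU => ?_
    have hpU : p ∉ U := fun h => notMem_erase p _ (hU h)
    simp only [if_neg hpU, if_pos (mem_insert_self p U)]
    rw [gg_insert_of_sub (notMem_erase p _) hU]
    ring
  rw [h1]
  have h2 : momTri ((PA q N).erase p) (gg g) ≤ Real.exp (7 * ∑ p ∈ PA q N, g p) := by
    refine (momTri_gg_le _).trans (Real.exp_le_exp.mpr ?_)
    have := sum_le_sum_of_subset_of_nonneg (erase_subset p (PA q N))
      (f := g) fun i _ _ => g_nonneg i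
    linarith
  have h3 := g_nonneg p
  gcongr

theorem A2_le5 (x y : ℝ) (hx : 0 ≤ x) (hx1 : x ≤ 1) (hy : 0 ≤ y) (hy1 : y ≤ 1) :
    ∀ᶠ N : ℕ in atTop, ∀ q : ℕ, ∀ D E : Finset (Finset ℕ), D ⊆ (PA q N).powerset →
    E ⊆ (PA q N).powerset → (∀ T ∈ D, (prd T : ℝ) ≤ (N : ℝ) ^ x) →
    (∀ T ∈ E, (prd T : ℝ) ≤ (N : ℝ) ^ y) → A2 D E ≤ (N : ℝ) ^ (2 * x + y + 1 / 1000) := by
  filter_upwards [zN_eventually (2 ^ 3000), eventually_ge_atTop 1] with N hz hN1 q D E hD hE hDx hEy
  have hN : (1 : ℝ) ≤ N := by exact_mod_cast hN1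
  have hN0 : (0 : ℝ) < N := by linarith
  have hsum : ∀ (z : ℝ) (F : Finset (Finset ℕ)), F ⊆ (PA q N).powerset →
      (∀ T ∈ F, (prd T : ℝ) ≤ (N : ℝ) ^ z) →
      ∑ T ∈ F, (2 : ℝ) ^ #T ≤ (N : ℝ) ^ (z + z / 3000) := by
    intro z F hF hFz
    calc ∑ T ∈ F, (2 : ℝ) ^ #T ≤ ∑ T ∈ F, ((N : ℝ) ^ z) ^ ((1 : ℝ) / 3000) :=
          sum_le_sum fun T hT => cb_pow hz (mem_powerset.1 (hF hT)) (hFz T hT)
      _ = #F * ((N : ℝ) ^ z) ^ ((1 : ℝ) / 3000) := by rw [sum_const, nsmul_eq_mul]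
      _ ≤ (N : ℝ) ^ z * ((N : ℝ) ^ z) ^ ((1 : ℝ) / 3000) := by
          gcongr
          exact cb_card hF (by positivity) hFz
      _ = (N : ℝ) ^ (z + z / 3000) := by
          rw [← Real.rpow_mul hN0.le, ← Real.rpow_add hN0]
          congr 1
          ring
  have hA2 : A2 D E ≤ (∑ T ∈ D, (2 : ℝ) ^ #T) * (∑ T ∈ D, (2 : ℝ) ^ #T) *
      ∑ T ∈ E, (2 : ℝ) ^ #T := by
    unfold A2
    rw [sum_mul_sum, sum_mul]
    refine sum_le_sum fun T₁ _ => ?_
    rw [sum_mul]
    refine sum_le_sum fun T₂ _ => ?_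
    rw [mul_sum]
    refine sum_le_sum fun T₃ _ => ?_
    rw [← pow_add, ← pow_add]
    refine pow_le_pow_right₀ (by norm_num) ?_
    exact (card_union_le _ _).trans (by gcongr; exact card_union_le _ _)
  have h1 := hsum x D hD hDx
  have h2 := hsum y E hE hEy
  have hEn : 0 ≤ ∑ T ∈ E, (2 : ℝ) ^ #T := by positivity
  have hDn : 0 ≤ ∑ T ∈ D, (2 : ℝ) ^ #T := by positivity
  calc A2 D E ≤ (N : ℝ) ^ (x + x / 3000) * (N : ℝ) ^ (x + x / 3000) * (N : ℝ) ^ (y + y / 3000) := by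
        refine hA2.trans ?_
        gcongr
    _ = (N : ℝ) ^ (x + x / 3000 + (x + x / 3000) + (y + y / 3000)) := by
        rw [← Real.rpow_add hN0, ← Real.rpow_add hN0]
    _ ≤ _ := by
        apply Real.rpow_le_rpow_of_exponent_le hN
        linarith

end Pool.Agent.Work.MP_73869e_nt.P5
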