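import Mathlib
import Pool.Agent.Work.MP_73869e_nt.P5.PhB
import Pool.Agent.Work.MP_73869e_nt.AP.Mom2

set_option autoImplicit false

/-!
Module Wvb (size S-M). Trivial bound of the weights: with B = the primes of Pbg q δ N dividing n^2+k,
|LS| ≤ Σ over T ⊆ B of |ph| ≤ 2^#B, and #B ≤ 3/δ since ∏ over B divides n^2+k ≤ N^3 and every p in B is
≥ pw N δ ≥ N^δ (copy AP.card_large, file AP/Pt.lean, with ≤ instead of <; AP.X_le for the size).
-/

namespace Pool.Agent.Work.MP_73869e_nt.P5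

open Finset Filter Pool.Agent.Work.MP_2dba45_nt.Sel Pool.Agent.Work.MP_73869e_nt.AP
open Pool.Agent.Work.MP_2dba45_nt.Sv (pw)

theorem wv_abs (δ : ℝ) (κ : ℕ) (hδ : 0 < δ) (hκ : 1 ≤ κ) : ∀ᶠ N : ℕ in atTop, ∀ q k : ℕ, k ≤ N →
    ∀ n ∈ Ioc N (2 * N), |LS (Pbg q δ N).powerset (ph κ N) k n| ≤ (2 : ℝ) ^ (3 / δ) := by
  filter_upwards [ev_ok, eventually_ge_atTop 5] with N hok hN5
  intro q k hk n hn
  set S := (Pbg q δ N).filter (fun p => p ∣ n ^ 2 + k) with hS
  have hNr : (0 : ℝ) < N := by exact_mod_cast (by omega : 0 < N)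
  unfold LS
  have h1 : |∑ T ∈ (Pbg q δ N).powerset, if (∀ p ∈ T, p ∣ n ^ 2 + k) then ph κ N T else 0| ≤
      (2 : ℝ) ^ #S := by
    calc |∑ T ∈ (Pbg q δ N).powerset, if (∀ p ∈ T, p ∣ n ^ 2 + k) then ph κ N T else 0|
        ≤ ∑ T ∈ (Pbg q δ N).powerset, |if (∀ p ∈ T, p ∣ n ^ 2 + k) then ph κ N T else 0| :=
          Finset.abs_sum_le_sum_abs _ _
      _ ≤ ∑ T ∈ (Pbg q δ N).powerset, (if (∀ p ∈ T, p ∣ n ^ 2 + k) then (1 : ℝ) else 0) := by
          refine Finset.sum_le_sum fun T _ => ?_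
          split_ifs
          · exact ph_le_one κ hκ N T
          · simp
      _ = (#((Pbg q δ N).powerset.filter (fun T => ∀ p ∈ T, p ∣ n ^ 2 + k)) : ℝ) := by
          rw [← Finset.sum_filter, Finset.sum_const, nsmul_eq_mul, mul_one]
      _ ≤ (#S.powerset : ℝ) := by
          have : (Pbg q δ N).powerset.filter (fun T => ∀ p ∈ T, p ∣ n ^ 2 + k) ⊆ S.powerset := by
            intro T hT
            rw [Finset.mem_filter, Finset.mem_powerset] at hT
            rw [Finset.mem_powerset]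
            intro p hp
            rw [hS, Finset.mem_filter]
            exact ⟨hT.1 hp, hT.2 p hp⟩
          exact_mod_cast Finset.card_le_card this
      _ = (2 : ℝ) ^ #S := by rw [Finset.card_powerset]; push_cast; rfl
  refine h1.trans ?_
  rw [← Real.rpow_natCast]
  apply Real.rpow_le_rpow_of_exponent_le (by norm_num)
  obtain ⟨hX0, hX⟩ := X_le hok hN5 hn hk
  have h2 : ∏ p ∈ S, p ∣ n ^ 2 + k := by
    refine Finset.prod_primes_dvd _ (fun p hp => ?_) (fun p hp => ?_)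
    · rw [hS, Finset.mem_filter] at hp
      unfold Pbg PA at hp
      simp only [Finset.mem_filter] at hp
      exact hp.1.1.2.1.prime
    · rw [hS, Finset.mem_filter] at hp
      exact hp.2
  have h3 : ((∏ p ∈ S, p : ℕ) : ℝ) ≤ ((n ^ 2 + k : ℕ) : ℝ) := by
    exact_mod_cast Nat.le_of_dvd hX0 h2
  have h4 : ((N : ℝ) ^ δ) ^ #S ≤ ((∏ p ∈ S, p : ℕ) : ℝ) := by
    push_cast
    rw [← Finset.prod_const]
    refine Finset.prod_le_prod (fun p _ => by positivity) fun p hp => ?_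
    rw [hS, Finset.mem_filter] at hp
    unfold Pbg at hp
    rw [Finset.mem_filter] at hp
    have h5 : pw N δ ≤ p := hp.1.2
    unfold Pool.Agent.Work.MP_2dba45_nt.Sv.pw at h5
    exact (Nat.le_ceil _).trans (by exact_mod_cast h5)
  have h5 := Real.log_le_log (by positivity) (h4.trans (h3.trans hX))
  rw [Real.log_pow, Real.log_rpow hNr, Real.log_rpow hNr] at h5
  rw [le_div_iff₀ hδ]
  have h6 : ((#S : ℝ) * δ) * Real.log N ≤ 3 * Real.log N := by linarith
  exact le_of_mul_le_mul_right h6 (by linarith [hok.hL])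

end Pool.Agent.Work.MP_73869e_nt.P5
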