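import Mathlib
import Pool.Agent.Work.MP_73869e_nt.P5.Defs
import Pool.Agent.Work.MP_2dba45_nt.Sv.DdeForm

set_option autoImplicit false

/-!
Module GNum (size M). The numerical inequality of the weighted sieve.
ζ = zE = 19/100, η = yE = 9/20, τ = 99/200, λ = lam5 = 13/20.
f (τ/ζ) = log(τ/ζ - 1)/(τ/ζ) by f_formula (2 ≤ τ/ζ = 99/38 ≤ 4). For v in [ζ, η]:
(τ - v)/ζ in [9/38, 61/38], so F ((τ-v)/ζ) = ζ/(τ-v) by F3, and the integrand is
(1 - v/η) ζ/(v (τ-v)). Since τ/(v(τ-v)) = 1/v + 1/(τ-v), an antiderivative of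
(1 - v/η) τ/(v (τ-v)) is log v - log(τ-v) + (τ/η) log(τ-v) = log v + (τ/η - 1) log(τ - v), so
∫ = (ζ/τ) (log(η/ζ) + (τ/η - 1) log((τ-η)/(τ-ζ))), τ/η - 1 = 1/10, (τ-η)/(τ-ζ) = 9/61.
Hence the difference is (ζ/τ) (log(61/38) - (13/20)(log(45/19) - (1/10) log(61/9)))
= (ζ/τ)(0.47329 - 0.65 * 0.67086) > (ζ/τ) * 0.03. (Alternatively: show that the integrand is at most
this explicit function and integrate by integral_eq_sub_of_hasDerivAt.)
-/

namespace Pool.Agent.Work.MP_73869e_nt.P5

open Finset Pool.Agent.Work.MP_2dba45_nt.Sv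

theorem num_ineq5 (F f : ℝ → ℝ) (h : DDE F f) : ∃ c : ℝ, 0 < c ∧
    c ≤ f ((99 / 200) / zE) -
      lam5 * ∫ v in zE..yE, (1 - v / yE) * F ((99 / 200 - v) / zE) / v := by
  have hz : zE = 19 / 100 := rfl
  have hy : yE = 9 / 20 := rfl
  have hl : lam5 = 13 / 20 := rfl
  have hzy : zE ≤ yE := by rw [hz, hy]; norm_num
  have hf : f ((99 / 200) / zE) = 38 / 99 * Real.log (61 / 38) := by
    rw [hz, f_formula h _ (by norm_num) (by norm_num)]
    rw [show (99 / 200 : ℝ) / (19 / 100) - 1 = 61 / 38 by norm_num,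
      show (99 / 200 : ℝ) / (19 / 100) = 99 / 38 by norm_num]
    ring
  have hI : ∫ v in zE..yE, (1 - v / yE) * F ((99 / 200 - v) / zE) / v =
      38 / 99 * (Real.log (45 / 19) - 1 / 10 * Real.log (61 / 9)) := by
    have h1 : ∫ v in zE..yE, (1 - v / yE) * F ((99 / 200 - v) / zE) / v =
        ∫ v in zE..yE, 38 / 99 * (v⁻¹ - 1 / 10 * (99 / 200 - v)⁻¹) := by
      apply intervalIntegral.integral_congr
      intro v hv
      rw [Set.uIcc_of_le hzy, hz, hy] at hv
      have hv0 : 0 < v := by linarith [hv.1]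
      have hv1 : 0 < 99 / 200 - v := by linarith [hv.2]
      have h3 : F ((99 / 200 - v) / (19 / 100)) = 1 / ((99 / 200 - v) / (19 / 100)) :=
        h.F3 _ (by positivity) (by rw [div_le_iff₀ (by norm_num)]; linarith)
      change (1 - v / yE) * F ((99 / 200 - v) / zE) / v = 38 / 99 * (v⁻¹ - 1 / 10 * (99 / 200 - v)⁻¹)
      rw [hz, hy, h3]
      obtain ⟨w, hw⟩ : ∃ w : ℝ, w = 99 / 200 - v := ⟨_, rfl⟩
      rw [← hw] at hv1 ⊢
      have e1 : (1 - v / (9 / 20)) * (1 / (w / (19 / 100))) / v =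
          (19 / 100 * (1 - v / (9 / 20))) / (v * w) := by
        field_simp
      have e2 : 38 / 99 * (v⁻¹ - 1 / 10 * w⁻¹) = (38 / 99 * (w - 1 / 10 * v)) / (v * w) := by
        field_simp
      rw [e1, e2]
      congr 1
      linarith
    rw [h1]
    have h2 : ∀ v ∈ Set.uIcc zE yE, HasDerivAt
        (fun v => 38 / 99 * (Real.log v + 1 / 10 * Real.log (99 / 200 - v)))
        (38 / 99 * (v⁻¹ - 1 / 10 * (99 / 200 - v)⁻¹)) v := by
      intro v hv
      rw [Set.uIcc_of_le hzy, hz, hy] at hv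
      have hv0 : v ≠ 0 := by linarith [hv.1]
      have hv1 : 99 / 200 - v ≠ 0 := by linarith [hv.2]
      have h4 : HasDerivAt (fun v : ℝ => 99 / 200 - v) (-1) v := by
        simpa using (hasDerivAt_id v).const_sub (99 / 200)
      have h5 := h4.log hv1
      have h6 := ((Real.hasDerivAt_log hv0).add (h5.const_mul (1 / 10))).const_mul (38 / 99)
      refine h6.congr_deriv ?_
      rw [neg_div, one_div (99 / 200 - v)]
      ring
    have h3 : IntervalIntegrable (fun v => 38 / 99 * (v⁻¹ - 1 / 10 * (99 / 200 - v)⁻¹))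
        MeasureTheory.volume zE yE := by
      apply ContinuousOn.intervalIntegrable
      intro v hv
      rw [Set.uIcc_of_le hzy, hz, hy] at hv
      have hv0 : v ≠ 0 := by linarith [hv.1]
      have hv1 : 99 / 200 - v ≠ 0 := by linarith [hv.2]
      have h4 : ContinuousAt (fun v : ℝ => (99 / 200 - v)⁻¹) v :=
        (continuousAt_const.sub continuousAt_id).inv₀ hv1
      exact (continuousAt_const.mul ((continuousAt_inv₀ hv0).sub
        (continuousAt_const.mul h4))).continuousWithinAt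
    rw [intervalIntegral.integral_eq_sub_of_hasDerivAt h2 h3, hz, hy]
    rw [show (99 / 200 - 9 / 20 : ℝ) = 9 / 200 by norm_num,
      show (99 / 200 - 19 / 100 : ℝ) = 61 / 200 by norm_num]
    have e1 : Real.log (45 / 19) = Real.log (9 / 20) - Real.log (19 / 100) := by
      rw [← Real.log_div (by norm_num) (by norm_num)]; norm_num
    have e2 : Real.log (61 / 9) = Real.log (61 / 200) - Real.log (9 / 200) := by
      rw [← Real.log_div (by norm_num) (by norm_num)]; norm_num
    rw [e1, e2]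
    ring
  rw [hf, hI, hl]
  have hpos : 130 * Real.log (45 / 19) < 200 * Real.log (61 / 38) + 13 * Real.log (61 / 9) := by
    have e1 : 130 * Real.log (45 / 19) = Real.log ((45 / 19) ^ 130) := by
      rw [Real.log_pow]; norm_num
    have e2 : 200 * Real.log (61 / 38) = Real.log ((61 / 38) ^ 200) := by
      rw [Real.log_pow]; norm_num
    have e3 : 13 * Real.log (61 / 9) = Real.log ((61 / 9) ^ 13) := by
      rw [Real.log_pow]; norm_num
    rw [e1, e2, e3, ← Real.log_mul (by positivity) (by positivity)]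
    apply Real.log_lt_log (by positivity)
    norm_num
  refine ⟨_, ?_, le_rfl⟩
  linarith

end Pool.Agent.Work.MP_73869e_nt.P5
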