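import Mathlib

set_option autoImplicit false

/-!
Module Abs5 (size M). Abstract counting. K0 = #F > 0, M = Σ m in [m0 K0, m1 K0], U(n) = Σ_x u x n.
Σ_S (U - M)^2 = Σ U^2 - 2 M Σ U + M^2 #S ≤ X (M^2 + η K0^2) - 2 M (M - η K0) X + M^2 (1 + η) X = η X (K0 + M)^2, so
#{U < M/2} ≤ 4 η (1 + K0/M)^2 X ≤ 4 η (1 + 1/m0)^2 X.
Markov: #{n : Σ_x e x n ≥ m0 K0/8} ≤ 8 β/m0 X; #{n : Σ over x with T < cx x of t x n ≥ m0 K0/8} ≤ 16 β/m0 X.
For all other n: M/2 ≤ U ≤ Σ_{Gd} cx + Σ e, so Σ_{Gd} cx > m0 K0/2 - m0 K0/8, the part with cx > T is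
≤ Σ_{big} t < m0 K0/8, so the sum of cx over the x with Gd and cx ≤ T is > m0 K0/4 ≥ kk T, hence there are more than
kk such x (if there were fewer than kk or kk, the sum would be ≤ kk T).
-/

namespace Pool.Agent.Work.MP_73869e_nt.P5

open Finset

open Classical in
theorem abs5 {ι : Type*} (S : Finset ℕ) (F : Finset ι) (X η m0 β ε T : ℝ)
    (u e t : ι → ℕ → ℝ) (cx m : ι → ℝ) (Gd : ι → ℕ → Prop) (kk : ℕ)
    (hX : 0 < X) (hF : 0 < #F) (hη : 0 ≤ η) (hm0 : 0 < m0) (hβ : 0 ≤ β) (hT : 0 < T)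
    (hS : (#S : ℝ) ≤ (1 + η) * X) (hm : ∀ x ∈ F, m0 ≤ m x)
    (hu1 : ∀ x ∈ F, (m x - η) * X ≤ ∑ n ∈ S, u x n)
    (hu2 : ∑ n ∈ S, (∑ x ∈ F, u x n) ^ 2 ≤ X * ((∑ x ∈ F, m x) ^ 2 + η * (#F : ℝ) ^ 2))
    (he0 : ∀ x ∈ F, ∀ n ∈ S, 0 ≤ e x n) (he : ∀ x ∈ F, ∑ n ∈ S, e x n ≤ β * X)
    (ht0 : ∀ x ∈ F, ∀ n ∈ S, 0 ≤ t x n) (ht : ∀ x ∈ F, ∑ n ∈ S, t x n ≤ 2 * X)
    (hpt : ∀ x ∈ F, ∀ n ∈ S, u x n ≤ (if Gd x n then cx x else 0) + e x n)
    (hgt : ∀ x ∈ F, ∀ n ∈ S, Gd x n → cx x ≤ t x n) (hcx0 : ∀ x ∈ F, 0 ≤ cx x)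
    (hbig : (#(F.filter (fun x => T < cx x)) : ℝ) ≤ β * #F)
    (hkT : kk * T ≤ m0 / 4 * #F)
    (hsmall : 4 * η * (1 + 1 / m0) ^ 2 + 24 * β / m0 ≤ ε) :
    (#(S.filter (fun n => #(F.filter (fun x => Gd x n)) < kk)) : ℝ) ≤ ε * X := by
  have hK : (0 : ℝ) < #F := by exact_mod_cast hF
  set K0 : ℝ := (#F : ℝ) with hK0
  set M : ℝ := ∑ x ∈ F, m x with hM
  have hMm : m0 * K0 ≤ M := by
    have h : ∑ x ∈ F, m0 ≤ ∑ x ∈ F, m x := Finset.sum_le_sum hm
    rw [Finset.sum_const, nsmul_eq_mul] at h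
    linarith
  have hM0 : 0 < M := lt_of_lt_of_le (by positivity) hMm
  set U : ℕ → ℝ := fun n => ∑ x ∈ F, u x n with hU
  set B1 := S.filter (fun n => U n < M / 2) with hB1
  set B2 := S.filter (fun n => m0 * K0 / 8 ≤ ∑ x ∈ F, e x n) with hB2
  set B3 := S.filter (fun n => m0 * K0 / 8 ≤ ∑ x ∈ F.filter (fun x => T < cx x), t x n) with hB3
  -- second moment
  have hsumU : (M - η * K0) * X ≤ ∑ n ∈ S, U n := by
    rw [hU, Finset.sum_comm]
    have h : ∑ x ∈ F, (m x - η) * X ≤ ∑ x ∈ F, ∑ n ∈ S, u x n := Finset.sum_le_sum hu1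
    refine le_trans (le_of_eq ?_) h
    rw [← Finset.sum_mul, Finset.sum_sub_distrib, Finset.sum_const, nsmul_eq_mul, hM, hK0]
    ring
  have hvar : ∑ n ∈ S, (U n - M) ^ 2 ≤ η * X * (K0 + M) ^ 2 := by
    have e1 : ∑ n ∈ S, (U n - M) ^ 2 = ∑ n ∈ S, U n ^ 2 - 2 * M * ∑ n ∈ S, U n + M ^ 2 * #S := by
      rw [Finset.mul_sum, ← Finset.sum_sub_distrib]
      have : M ^ 2 * (#S : ℝ) = ∑ n ∈ S, M ^ 2 := by
        rw [Finset.sum_const, nsmul_eq_mul]
        ring
      rw [this, ← Finset.sum_add_distrib]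
      refine Finset.sum_congr rfl fun n _ => ?_
      ring
    rw [e1]
    have h2 : 2 * M * ((M - η * K0) * X) ≤ 2 * M * ∑ n ∈ S, U n :=
      mul_le_mul_of_nonneg_left hsumU (by positivity)
    have h3 : M ^ 2 * (#S : ℝ) ≤ M ^ 2 * ((1 + η) * X) := mul_le_mul_of_nonneg_left hS (by positivity)
    have h4 : ∑ n ∈ S, U n ^ 2 ≤ X * (M ^ 2 + η * K0 ^ 2) := hu2
    nlinarith
  have hc1 : (#B1 : ℝ) ≤ 4 * η * (1 + 1 / m0) ^ 2 * X := by
    have h1 : (#B1 : ℝ) * (M / 2) ^ 2 ≤ ∑ n ∈ S, (U n - M) ^ 2 := by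
      calc (#B1 : ℝ) * (M / 2) ^ 2 = ∑ n ∈ B1, (M / 2) ^ 2 := by
            rw [Finset.sum_const, nsmul_eq_mul]
        _ ≤ ∑ n ∈ B1, (U n - M) ^ 2 := by
            refine Finset.sum_le_sum fun n hn => ?_
            rw [hB1, Finset.mem_filter] at hn
            nlinarith [hn.2]
        _ ≤ ∑ n ∈ S, (U n - M) ^ 2 :=
            Finset.sum_le_sum_of_subset_of_nonneg (Finset.filter_subset _ _)
              (fun _ _ _ => sq_nonneg _)
    have h2 : (#B1 : ℝ) * (M / 2) ^ 2 ≤ η * X * (K0 + M) ^ 2 := h1.trans hvar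
    have h3 : (K0 + M) ≤ (1 + 1 / m0) * M := by
      have : K0 ≤ 1 / m0 * M := by
        rw [one_div, inv_mul_eq_div, le_div_iff₀ hm0]
        linarith
      linarith
    have h4 : η * X * (K0 + M) ^ 2 ≤ η * X * ((1 + 1 / m0) * M) ^ 2 := by
      apply mul_le_mul_of_nonneg_left _ (by positivity)
      exact pow_le_pow_left₀ (by positivity) h3 2
    have h5 : (#B1 : ℝ) * (M / 2) ^ 2 ≤ (4 * η * (1 + 1 / m0) ^ 2 * X) * (M / 2) ^ 2 := by
      refine (h2.trans h4).trans (le_of_eq ?_)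
      ring
    exact le_of_mul_le_mul_right h5 (by positivity)
  have hc2 : (#B2 : ℝ) ≤ 8 * β / m0 * X := by
    have h1 : (#B2 : ℝ) * (m0 * K0 / 8) ≤ ∑ n ∈ S, ∑ x ∈ F, e x n := by
      calc (#B2 : ℝ) * (m0 * K0 / 8) = ∑ n ∈ B2, m0 * K0 / 8 := by
            rw [Finset.sum_const, nsmul_eq_mul]
        _ ≤ ∑ n ∈ B2, ∑ x ∈ F, e x n := by
            refine Finset.sum_le_sum fun n hn => ?_
            rw [hB2, Finset.mem_filter] at hn
            exact hn.2
        _ ≤ ∑ n ∈ S, ∑ x ∈ F, e x n :=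
            Finset.sum_le_sum_of_subset_of_nonneg (Finset.filter_subset _ _)
              (fun n hn _ => Finset.sum_nonneg fun x hx => he0 x hx n hn)
    have h2 : ∑ n ∈ S, ∑ x ∈ F, e x n ≤ K0 * (β * X) := by
      rw [Finset.sum_comm]
      refine (Finset.sum_le_sum he).trans (le_of_eq ?_)
      rw [Finset.sum_const, nsmul_eq_mul]
    have h3 : (#B2 : ℝ) * (m0 * K0 / 8) ≤ (8 * β / m0 * X) * (m0 * K0 / 8) := by
      refine (h1.trans h2).trans (le_of_eq ?_)
      field_simp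
    exact le_of_mul_le_mul_right h3 (by positivity)
  have hc3 : (#B3 : ℝ) ≤ 16 * β / m0 * X := by
    have h1 : (#B3 : ℝ) * (m0 * K0 / 8) ≤
        ∑ n ∈ S, ∑ x ∈ F.filter (fun x => T < cx x), t x n := by
      calc (#B3 : ℝ) * (m0 * K0 / 8) = ∑ n ∈ B3, m0 * K0 / 8 := by
            rw [Finset.sum_const, nsmul_eq_mul]
        _ ≤ ∑ n ∈ B3, ∑ x ∈ F.filter (fun x => T < cx x), t x n := by
            refine Finset.sum_le_sum fun n hn => ?_
            rw [hB3, Finset.mem_filter] at hn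
            exact hn.2
        _ ≤ _ :=
            Finset.sum_le_sum_of_subset_of_nonneg (Finset.filter_subset _ _)
              (fun n hn _ => Finset.sum_nonneg fun x hx => ht0 x (Finset.mem_filter.1 hx).1 n hn)
    have h2 : ∑ n ∈ S, ∑ x ∈ F.filter (fun x => T < cx x), t x n ≤ β * K0 * (2 * X) := by
      rw [Finset.sum_comm]
      refine (Finset.sum_le_sum fun x hx => ht x (Finset.mem_filter.1 hx).1).trans ?_
      rw [Finset.sum_const, nsmul_eq_mul]
      exact mul_le_mul_of_nonneg_right hbig (by positivity)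
    have h3 : (#B3 : ℝ) * (m0 * K0 / 8) ≤ (16 * β / m0 * X) * (m0 * K0 / 8) := by
      refine (h1.trans h2).trans (le_of_eq ?_)
      field_simp
      ring
    exact le_of_mul_le_mul_right h3 (by positivity)
  -- cover
  have hsub : S.filter (fun n => #(F.filter (fun x => Gd x n)) < kk) ⊆ (B1 ∪ B2) ∪ B3 := by
    intro n hn
    rw [Finset.mem_filter] at hn
    obtain ⟨hnS, hnk⟩ := hn
    by_contra hcon
    rw [Finset.mem_union, Finset.mem_union, not_or, not_or] at hcon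
    obtain ⟨⟨h1, h2⟩, h3⟩ := hcon
    have h1' : M / 2 ≤ U n := by
      by_contra hc
      push Not at hc
      exact h1 (Finset.mem_filter.2 ⟨hnS, hc⟩)
    have h2' : ∑ x ∈ F, e x n < m0 * K0 / 8 := by
      by_contra hc
      push Not at hc
      exact h2 (Finset.mem_filter.2 ⟨hnS, hc⟩)
    have h3' : ∑ x ∈ F.filter (fun x => T < cx x), t x n < m0 * K0 / 8 := by
      by_contra hc
      push Not at hc
      exact h3 (Finset.mem_filter.2 ⟨hnS, hc⟩)
    have h4 : U n ≤ ∑ x ∈ F, (if Gd x n then cx x else 0) + ∑ x ∈ F, e x n := by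
      rw [hU, ← Finset.sum_add_distrib]
      exact Finset.sum_le_sum fun x hx => hpt x hx n hnS
    have h5 : ∑ x ∈ F, (if Gd x n then cx x else 0) ≤
        ∑ x ∈ F.filter (fun x => T < cx x), t x n + kk * T := by
      rw [← Finset.sum_filter_add_sum_filter_not F (fun x => T < cx x)]
      refine add_le_add ?_ ?_
      · refine Finset.sum_le_sum fun x hx => ?_
        have hxF := (Finset.mem_filter.1 hx).1
        split_ifs with hg
        · exact hgt x hxF n hnS hg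
        · exact ht0 x hxF n hnS
      · calc ∑ x ∈ F.filter (fun x => ¬ T < cx x), (if Gd x n then cx x else 0)
            ≤ ∑ x ∈ F.filter (fun x => ¬ T < cx x), (if Gd x n then T else 0) := by
              refine Finset.sum_le_sum fun x hx => ?_
              split_ifs
              · exact not_lt.1 (Finset.mem_filter.1 hx).2
              · exact le_rfl
          _ ≤ ∑ x ∈ F, (if Gd x n then T else 0) :=
              Finset.sum_le_sum_of_subset_of_nonneg (Finset.filter_subset _ _)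
                (fun x _ _ => by split_ifs <;> [exact hT.le; exact le_rfl])
          _ = (#(F.filter (fun x => Gd x n)) : ℝ) * T := by
              rw [← Finset.sum_filter, Finset.sum_const, nsmul_eq_mul]
          _ ≤ kk * T := by
              apply mul_le_mul_of_nonneg_right _ hT.le
              exact_mod_cast hnk.le
    nlinarith
  have hcard : (#(S.filter (fun n => #(F.filter (fun x => Gd x n)) < kk)) : ℝ) ≤
      (#B1 : ℝ) + #B2 + #B3 := by
    have h1 := (Finset.card_le_card hsub).trans (Finset.card_union_le _ _)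
    have h2 := Finset.card_union_le B1 B2
    have h3 : #(S.filter (fun n => #(F.filter (fun x => Gd x n)) < kk)) ≤ #B1 + #B2 + #B3 := by
      omega
    exact_mod_cast h3
  calc (#(S.filter (fun n => #(F.filter (fun x => Gd x n)) < kk)) : ℝ)
      ≤ (#B1 : ℝ) + #B2 + #B3 := hcard
    _ ≤ 4 * η * (1 + 1 / m0) ^ 2 * X + 8 * β / m0 * X + 16 * β / m0 * X := by linarith
    _ = (4 * η * (1 + 1 / m0) ^ 2 + 24 * β / m0) * X := by ring
    _ ≤ ε * X := mul_le_mul_of_nonneg_right hsmall hX.le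

end Pool.Agent.Work.MP_73869e_nt.P5
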