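import Mathlib
import Pool.Agent.Work.MP_73869e_nt.P5.Defs
import Pool.Agent.Work.MP_2dba45_nt.Sv.Box

set_option autoImplicit false

/-!
Module Om5 (size S-M, a port of AP.omega_le, file AP/SqOm.lean). Put m = n^2 + k ≤ 5 N^2, η = 9/20, ly = η log N.
For the primes p < pw N yE (that is p < N^η, Sv.lt_pw_iff) the exponent of p in m is 1 and
ly ≤ ly (1 - log p/ly) + log p, for p ≥ N^η: ly ≤ log p. So Ω(m) ly ≤ ly Σ_{p | m, p < N^η} (1 - log p/ly) + log m.
Since cost - 1 = ⌊1000 κ log p/log N⌋ ≤ 1000 κ log p/log N, wt5 κ (cost (1000 κ) N p) ≥ 1 - log p/ly, hence the sum is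
< 1/lam5 = 20/13, and Ω(m) < 20/13 + (2 log N + log 5)/ly = 20/13 + 40/9 + log 5/ly < 6 for N large
(20/13 + 40/9 = 5.98291).
-/

namespace Pool.Agent.Work.MP_73869e_nt.P5

open Finset Filter
open Pool.Agent.Work.MP_2dba45_nt.Sv (pw cost)

theorem om5 (c : ℝ) (hc : 0 < c) (κ : ℕ) (hκ : 1 ≤ κ) : ∀ᶠ N : ℕ in atTop, ∀ n ∈ Ioc N (2 * N),
    ∀ k : ℕ, (k : ℝ) ≤ c * Real.log N ^ 2 →
    (∀ p : ℕ, p.Prime → p ∣ n ^ 2 + k → pw N zE ≤ p) →
    (∀ p : ℕ, p.Prime → pw N zE ≤ p → p < pw N yE → ¬ p ^ 2 ∣ n ^ 2 + k) →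
    lam5 * ∑ p ∈ (n ^ 2 + k).primeFactors.filter (fun p => p < pw N yE),
      wt5 κ (cost (1000 * κ) N p) < 1 →
    ArithmeticFunction.cardFactors (n ^ 2 + k) ≤ 5 := by
  have e1 : ∀ᶠ N : ℕ in atTop, c * Real.log N ^ 2 ≤ N := by
    have h := (Real.isLittleO_pow_log_id_atTop (n := 2)).tendsto_div_nhds_zero
    have h1 := (h.comp tendsto_natCast_atTop_atTop).const_mul c
    rw [mul_zero] at h1
    filter_upwards [h1.eventually (gt_mem_nhds one_pos), eventually_ge_atTop 1] with N h2 hN
    simp only [Function.comp, id] at h2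
    have hN0 : (0 : ℝ) < N := by exact_mod_cast (by omega : 0 < N)
    rw [← mul_div_assoc, div_lt_one hN0] at h2
    exact h2.le
  have e2 : ∀ᶠ N : ℕ in atTop, (200 : ℝ) * Real.log 5 + 1 ≤ Real.log N :=
    (Real.tendsto_log_atTop.comp tendsto_natCast_atTop_atTop).eventually_ge_atTop _
  filter_upwards [e1, e2, eventually_ge_atTop 2] with N h1 h2 hN n hn k hk hsm hsq hsum
  rw [Finset.mem_Ioc] at hn
  set X := n ^ 2 + k with hX
  have hN0 : (0 : ℝ) < N := by exact_mod_cast (by omega : 0 < N)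
  have hl5 : 0 < Real.log 5 := Real.log_pos (by norm_num)
  have hlN : 0 < Real.log N := by linarith
  have hX0 : X ≠ 0 := by
    rw [hX]
    have : 0 < n ^ 2 := pow_pos (by omega) 2
    omega
  have hXr : (0 : ℝ) < X := by exact_mod_cast Nat.pos_of_ne_zero hX0
  have hXle : (X : ℝ) ≤ 5 * (N : ℝ) ^ 2 := by
    have h3 : (n : ℝ) ≤ 2 * N := by exact_mod_cast hn.2
    have h4 : (1 : ℝ) ≤ N := by exact_mod_cast (by omega : 1 ≤ N)
    rw [hX]
    push_cast
    have h5 : (n : ℝ) ^ 2 ≤ (2 * N) ^ 2 := by gcongr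
    nlinarith
  have hlogX : Real.log X ≤ Real.log 5 + 2 * Real.log N := by
    calc Real.log X ≤ Real.log (5 * (N : ℝ) ^ 2) := Real.log_le_log hXr hXle
      _ = _ := by
        rw [Real.log_mul (by norm_num) (by positivity), Real.log_pow]
        push_cast
        ring
  set ly := (9 / 20 : ℝ) * Real.log N with hly
  have hly0 : 0 < ly := by rw [hly]; positivity
  have hκ0 : (0 : ℝ) < κ := by exact_mod_cast hκ
  -- the weights
  have hwt : ∀ p : ℕ, p.Prime → 1 - Real.log p / ly ≤ wt5 κ (cost (1000 * κ) N p) := by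
    intro p hp
    have hlp : 0 ≤ Real.log p := Real.log_natCast_nonneg p
    unfold wt5 cost
    push_cast
    rw [add_sub_cancel_right]
    have h3 := Nat.floor_le (show (0 : ℝ) ≤ 1000 * (κ : ℝ) * (Real.log p / Real.log N) by positivity)
    have h4 : (⌊1000 * (κ : ℝ) * (Real.log p / Real.log N)⌋₊ : ℝ) / (450 * κ) ≤
        Real.log p / ly := by
      rw [div_le_iff₀ (by positivity)]
      refine h3.trans (le_of_eq ?_)
      rw [hly]
      field_simp
      ring
    linarith
  -- main inequality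
  have key : (ArithmeticFunction.cardFactors X : ℝ) * ly ≤
      ly * (∑ p ∈ X.primeFactors.filter (fun p : ℕ => p < pw N yE), (1 - Real.log p / ly)) +
        Real.log X := by
    rw [ArithmeticFunction.cardFactors_eq_sum_factorization, Real.log_nat_eq_sum_factorization X]
    simp only [Finsupp.sum, Nat.support_factorization]
    push_cast
    rw [Finset.sum_mul, Finset.mul_sum, Finset.sum_filter, ← Finset.sum_add_distrib]
    apply Finset.sum_le_sum
    intro p hp
    have hpp : p.Prime := Nat.prime_of_mem_primeFactors hp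
    have hpd : p ∣ X := Nat.dvd_of_mem_primeFactors hp
    have hlp : 0 ≤ Real.log p := Real.log_natCast_nonneg p
    split_ifs with hpy
    · have hv : X.factorization p = 1 := by
        apply le_antisymm
        · by_contra hcon
          push Not at hcon
          exact hsq p hpp (hsm p hpp hpd) hpy
            ((Nat.Prime.pow_dvd_iff_le_factorization hpp hX0).2 hcon)
        · exact (hpp.dvd_iff_one_le_factorization hX0).1 hpd
      rw [hv]
      have : ly * (1 - Real.log p / ly) = ly - Real.log p := by field_simp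
      rw [this]
      simp
    · rw [Pool.Agent.Work.MP_2dba45_nt.Sv.lt_pw_iff, not_lt] at hpy
      rw [zero_add]
      apply mul_le_mul_of_nonneg_left _ (by positivity)
      have h5 := Real.log_le_log (by positivity) hpy
      rw [Real.log_rpow hN0] at h5
      unfold yE at h5
      rw [hly]
      exact h5
  have hsum2 : ∑ p ∈ X.primeFactors.filter (fun p : ℕ => p < pw N yE), (1 - Real.log p / ly) ≤
      ∑ p ∈ X.primeFactors.filter (fun p : ℕ => p < pw N yE), wt5 κ (cost (1000 * κ) N p) := by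
    refine Finset.sum_le_sum fun p hp => hwt p ?_
    rw [Finset.mem_filter] at hp
    exact Nat.prime_of_mem_primeFactors hp.1
  have hsum3 : ∑ p ∈ X.primeFactors.filter (fun p : ℕ => p < pw N yE), (1 - Real.log p / ly) <
      20 / 13 := by
    unfold lam5 at hsum
    linarith
  have h3 : (ArithmeticFunction.cardFactors X : ℝ) * ly < 6 * ly := by
    have h4 := mul_lt_mul_of_pos_left hsum3 hly0
    have h6 : Real.log X < (6 - 20 / 13) * ly := by
      rw [hly]
      nlinarith
    nlinarith
  have h4 : (ArithmeticFunction.cardFactors X : ℝ) < 6 := lt_of_mul_lt_mul_right h3 hly0.le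
  have h5 : ArithmeticFunction.cardFactors X < 6 := by exact_mod_cast h4
  omega

end Pool.Agent.Work.MP_73869e_nt.P5
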