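import Mathlib
import Pool.Agent.Work.MP_73869e_nt.P5.Defs
import Pool.Agent.Work.MP_2dba45_nt.Sv.Mert2

set_option autoImplicit false

/-!
Module GMert (size S-M, a port). Prime sums with a general density h of dimension one.
mert_lip_g is Sv.mert_lip (file Sv/Mert2.lean) with g1 replaced by h: copy mt_mass (it only uses the
hypothesis hC), mt_piece and mert_lip; the only facts on g1 used are mt_g1_nonneg (now hh.nn) and
sum_g1 (now hh.law). mtS, mtS_eq, mtS_add, mtS_self, mt_cont can be cited from Sv.Mert2.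
mass_g: from hh.law with w = N^δ, x = N: sum over PQ (pw N δ) N of h = log(1/δ) + O(C/(δ log N)),
which is at most log(1/δ) + 1 for large N (copy the proof of Sv.mass_le; now N₀ may depend on h).
-/

namespace Pool.Agent.Work.MP_73869e_nt.P5

open Finset Pool.Agent.Work.MP_2dba45_nt.Sv

private theorem gm_mass (h : ℕ → ℝ) {C : ℝ} (hC : ∀ w x : ℝ, 2 ≤ w → w ≤ x →
    |∑ p ∈ (Ico ⌈w⌉₊ ⌈x⌉₊).filter Nat.Prime, h p -
      (Real.log (Real.log x) - Real.log (Real.log w))| ≤ C / Real.log w)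
    (N : ℕ) (hN : 2 ≤ N) (s t : ℝ) (hs : 0 < s) (hst : s ≤ t)
    (h2 : 2 ≤ (N : ℝ) ^ s) :
    |∑ p ∈ (Ico ⌈(N : ℝ) ^ s⌉₊ ⌈(N : ℝ) ^ t⌉₊).filter Nat.Prime, h p - Real.log (t / s)|
      ≤ C / (s * Real.log N) := by
  have hN1 : (1 : ℝ) < N := by exact_mod_cast (by omega : 1 < N)
  have hN0 : (0 : ℝ) < N := by linarith
  have hl : 0 < Real.log N := Real.log_pos hN1
  have h3 : (N : ℝ) ^ s ≤ (N : ℝ) ^ t := Real.rpow_le_rpow_of_exponent_le hN1.le hst
  have h4 := hC _ _ h2 h3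
  rw [Real.log_rpow hN0, Real.log_rpow hN0] at h4
  have ht : 0 < t := lt_of_lt_of_le hs hst
  rw [Real.log_mul ht.ne' hl.ne', Real.log_mul hs.ne' hl.ne'] at h4
  rw [Real.log_div ht.ne' hs.ne']
  have h5 : Real.log t + Real.log (Real.log N) - (Real.log s + Real.log (Real.log N))
      = Real.log t - Real.log s := by ring
  rw [h5] at h4
  exact h4

private theorem gm_piece (h : ℕ → ℝ) (hnn : ∀ p, 0 ≤ h p) {C : ℝ} (hC0 : 0 ≤ C) (hC : ∀ w x : ℝ, 2 ≤ w → w ≤ x →
    |∑ p ∈ (Ico ⌈w⌉₊ ⌈x⌉₊).filter Nat.Prime, h p -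
      (Real.log (Real.log x) - Real.log (Real.log w))| ≤ C / Real.log w)
    (N : ℕ) (hN : 2 ≤ N) (δ s t B Λ r : ℝ) (hδ : 0 < δ) (hs : δ ≤ s) (hst : s ≤ t) (ht : t ≤ 1)
    (h2 : 2 ≤ (N : ℝ) ^ δ) (hB : 0 ≤ B) (hΛ : 0 ≤ Λ) (hr : t - s ≤ r) (φ : ℝ → ℝ)
    (hhB : ∀ v ∈ Set.Icc s t, |φ v| ≤ B)
    (hhL : ∀ v ∈ Set.Icc s t, ∀ w ∈ Set.Icc s t, |φ v - φ w| ≤ Λ * |v - w|) :
    |∑ p ∈ mtS N s t, h p * φ (Real.log p / Real.log N) - ∫ v in s..t, φ v / v|
      ≤ 2 * Λ * r * Real.log (t / s) + (Λ * r + B) * (C / (δ * Real.log N)) := by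
  classical
  have hN1 : (1 : ℝ) < N := by exact_mod_cast (by omega : 1 < N)
  have hl : 0 < Real.log N := Real.log_pos hN1
  have hs0 : 0 < s := lt_of_lt_of_le hδ hs
  have ht0 : 0 < t := lt_of_lt_of_le hs0 hst
  have hr0 : 0 ≤ r := le_trans (by linarith) hr
  have h2s : 2 ≤ (N : ℝ) ^ s := h2.trans (Real.rpow_le_rpow_of_exponent_le hN1.le hs)
  have hmass := gm_mass h hC N hN s t hs0 hst h2s
  rw [← mtS_eq N hN s t ht] at hmass
  have hE : C / (s * Real.log N) ≤ C / (δ * Real.log N) :=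
    div_le_div_of_nonneg_left hC0 (by positivity) (by gcongr)
  set E := C / (δ * Real.log N) with hEdef
  have hE0 : 0 ≤ E := by positivity
  have hlog0 : 0 ≤ Real.log (t / s) := Real.log_nonneg (by rw [le_div_iff₀ hs0]; linarith)
  set M := ∑ p ∈ mtS N s t, h p with hM
  have hMle : M ≤ Real.log (t / s) + E := by
    have := (abs_le.1 (hmass.trans hE)).2
    linarith
  have hs_mem : s ∈ Set.Icc s t := ⟨le_rfl, hst⟩
  -- the sum against the value at `s`
  have e1 : |∑ p ∈ mtS N s t, h p * φ (Real.log p / Real.log N) - φ s * M| ≤ Λ * r * M := by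
    rw [hM, Finset.mul_sum, Finset.mul_sum, ← Finset.sum_sub_distrib]
    refine (Finset.abs_sum_le_sum_abs _ _).trans (Finset.sum_le_sum fun p hp => ?_)
    have hp' := hp
    unfold mtS at hp'
    rw [Finset.mem_filter] at hp'
    have hmem : Real.log p / Real.log N ∈ Set.Icc s t := ⟨hp'.2.2.1, hp'.2.2.2.le⟩
    have e2 : h p * φ (Real.log p / Real.log N) - φ s * h p
        = h p * (φ (Real.log p / Real.log N) - φ s) := by ring
    rw [e2, abs_mul, abs_of_nonneg (hnn p), mul_comm]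
    refine mul_le_mul_of_nonneg_right ?_ (hnn p)
    refine (hhL _ hmem _ hs_mem).trans (mul_le_mul_of_nonneg_left ?_ hΛ)
    rw [abs_of_nonneg (by linarith [hmem.1])]
    linarith [hmem.2]
  have e3 : |φ s * M - φ s * Real.log (t / s)| ≤ B * E := by
    rw [← mul_sub, abs_mul]
    exact mul_le_mul (hhB s hs_mem) (hmass.trans hE) (abs_nonneg _) hB
  have hint1 : ∫ v in s..t, v⁻¹ = Real.log (t / s) := integral_inv_of_pos hs0 ht0
  have hci : IntervalIntegrable (fun v : ℝ => v⁻¹) MeasureTheory.volume s t :=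
    intervalIntegral.intervalIntegrable_inv (fun x hx => by
      rw [Set.uIcc_of_le hst] at hx
      exact (lt_of_lt_of_le hs0 hx.1).ne') continuousOn_id
  have hch : IntervalIntegrable (fun v : ℝ => φ v / v) MeasureTheory.volume s t := by
    refine ContinuousOn.intervalIntegrable ?_
    rw [Set.uIcc_of_le hst]
    exact mt_cont hs0 hhL
  have e4 : |φ s * Real.log (t / s) - ∫ v in s..t, φ v / v| ≤ Λ * r * Real.log (t / s) := by
    rw [← hint1, ← intervalIntegral.integral_const_mul, ← intervalIntegral.integral_sub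
      (hci.const_mul _) hch, ← intervalIntegral.integral_const_mul, ← Real.norm_eq_abs]
    refine intervalIntegral.norm_integral_le_of_norm_le hst ?_ (hci.const_mul _)
    refine Filter.Eventually.of_forall fun v hv => ?_
    have hv0 : 0 < v := lt_trans hs0 hv.1
    have hvm : v ∈ Set.Icc s t := ⟨hv.1.le, hv.2⟩
    have e5 : φ s * v⁻¹ - φ v / v = (φ s - φ v) * v⁻¹ := by
      rw [div_eq_mul_inv]; ring
    rw [e5, Real.norm_eq_abs, abs_mul, abs_of_pos (inv_pos.2 hv0)]
    refine mul_le_mul_of_nonneg_right ?_ (inv_pos.2 hv0).le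
    refine (hhL _ hs_mem _ hvm).trans (mul_le_mul_of_nonneg_left ?_ hΛ)
    rw [abs_of_nonpos (by linarith [hvm.1])]
    linarith [hvm.2]
  have e6 : Λ * r * M ≤ Λ * r * (Real.log (t / s) + E) :=
    mul_le_mul_of_nonneg_left hMle (by positivity)
  have e7 : ∑ p ∈ mtS N s t, h p * φ (Real.log p / Real.log N) - ∫ v in s..t, φ v / v
      = (∑ p ∈ mtS N s t, h p * φ (Real.log p / Real.log N) - φ s * M)
        + (φ s * M - φ s * Real.log (t / s))
        + (φ s * Real.log (t / s) - ∫ v in s..t, φ v / v) := by ring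
  rw [e7]
  refine (abs_add_le _ _).trans ?_
  have e8 := abs_add_le (∑ p ∈ mtS N s t, h p * φ (Real.log p / Real.log N) - φ s * M)
    (φ s * M - φ s * Real.log (t / s))
  nlinarith

theorem mert_lip_g (h : ℕ → ℝ) (hh : Dim1 h) (δ B Λ ε : ℝ) (hδ : 0 < δ) (hB : 0 ≤ B)
    (hΛ : 0 ≤ Λ) (hε : 0 < ε) :
    ∃ N₀ : ℕ, ∀ N : ℕ, N₀ ≤ N → ∀ v₁ v₂ : ℝ, δ ≤ v₁ → v₁ ≤ v₂ → v₂ ≤ 1 → ∀ φ : ℝ → ℝ,
      (∀ v ∈ Set.Icc v₁ v₂, |φ v| ≤ B) →
      (∀ v ∈ Set.Icc v₁ v₂, ∀ w ∈ Set.Icc v₁ v₂, |φ v - φ w| ≤ Λ * |v - w|) →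
      |∑ p ∈ (range N).filter (fun p : ℕ => p.Prime ∧ v₁ ≤ Real.log p / Real.log N ∧
          Real.log p / Real.log N < v₂), h p * φ (Real.log p / Real.log N) -
        ∫ v in v₁..v₂, φ v / v| ≤ ε := by
  obtain ⟨C, hC0, hC⟩ := hh.law
  have hnn := hh.nn
  -- number of pieces
  obtain ⟨m, hm⟩ := exists_nat_gt (4 * Λ * |Real.log δ| / ε)
  have hlogd : 0 ≤ |Real.log δ| := abs_nonneg _
  have hm0 : (0 : ℝ) < m := lt_of_le_of_lt (by positivity) hm
  have hmne : m ≠ 0 := by rintro rfl; simp at hm0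
  have hm1 : 4 * Λ * |Real.log δ| ≤ ε * m := by
    rw [div_lt_iff₀ hε] at hm
    linarith
  -- threshold
  have htend : Filter.Tendsto (fun N : ℕ => Real.log (N : ℝ)) Filter.atTop Filter.atTop :=
    Real.tendsto_log_atTop.comp tendsto_natCast_atTop_atTop
  obtain ⟨N₁, hN₁⟩ := Filter.eventually_atTop.1
    (htend.eventually_ge_atTop (max 1 (max (Real.log 2 / δ) (2 * (Λ + m * B) * C / (δ * ε)))))
  refine ⟨max N₁ 2, fun N hN v₁ v₂ h1 h12 h21 φ hhB hhL => ?_⟩
  have hN2 : 2 ≤ N := (le_max_right _ _).trans hN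
  have hlogN := hN₁ N ((le_max_left _ _).trans hN)
  have hl1 : 1 ≤ Real.log N := (le_max_left _ _).trans hlogN
  have hl2 : Real.log 2 / δ ≤ Real.log N :=
    (le_max_left _ _).trans ((le_max_right _ _).trans hlogN)
  have hl3 : 2 * (Λ + m * B) * C / (δ * ε) ≤ Real.log N :=
    (le_max_right _ _).trans ((le_max_right _ _).trans hlogN)
  have hl : 0 < Real.log N := by linarith
  have hN0 : (0 : ℝ) < N := by exact_mod_cast (by omega : 0 < N)
  have h2 : 2 ≤ (N : ℝ) ^ δ := by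
    rw [← Real.log_le_log_iff (by norm_num) (Real.rpow_pos_of_pos hN0 _), Real.log_rpow hN0]
    rw [div_le_iff₀ hδ] at hl2
    linarith
  set r := (v₂ - v₁) / m with hr
  have hr0 : 0 ≤ r := div_nonneg (by linarith) hm0.le
  have hr1 : r ≤ 1 / m := by
    rw [hr]
    exact div_le_div_of_nonneg_right (by linarith) hm0.le
  have hmr : m * r = v₂ - v₁ := by rw [hr]; field_simp
  have hv1 : 0 < v₁ := lt_of_lt_of_le hδ h1
  have key : ∀ j : ℕ, j ≤ m → |∑ p ∈ mtS N v₁ (v₁ + j * r), h p * φ (Real.log p / Real.log N)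
      - ∫ v in v₁..(v₁ + j * r), φ v / v|
      ≤ 2 * Λ * (1 / m) * Real.log ((v₁ + j * r) / v₁)
        + j * ((Λ * (1 / m) + B) * (C / (δ * Real.log N))) := by
    intro j
    induction j with
    | zero =>
      intro _
      simp [mtS_self, hv1.ne']
    | succ j ih =>
      intro hj
      have ih' := ih (by omega)
      have hjm : ((j + 1 : ℕ) : ℝ) ≤ m := by exact_mod_cast hj
      set s := v₁ + (j : ℝ) * r with hs
      set t := v₁ + ((j + 1 : ℕ) : ℝ) * r with ht
      have hst : t - s = r := by rw [hs, ht]; push_cast; ring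
      have hv1s : v₁ ≤ s := by rw [hs]; nlinarith [mul_nonneg (Nat.cast_nonneg (α := ℝ) j) hr0]
      have hsle : s ≤ t := by linarith
      have htv2 : t ≤ v₂ := by
        rw [ht]
        have := mul_le_mul_of_nonneg_right hjm hr0
        linarith
      have hs0 : 0 < s := lt_of_lt_of_le hv1 hv1s
      have hp := gm_piece h hnn hC0 hC N hN2 δ s t B Λ (1 / m) hδ (h1.trans hv1s) hsle
        (htv2.trans h21) h2 hB hΛ (by linarith) φ
        (fun v hv => hhB v ⟨hv1s.trans hv.1, hv.2.trans htv2⟩)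
        (fun v hv w hw => hhL v ⟨hv1s.trans hv.1, hv.2.trans htv2⟩ w
          ⟨hv1s.trans hw.1, hw.2.trans htv2⟩)
      rw [mtS_add N v₁ s t hv1s hsle]
      have hcont := mt_cont (h := φ) (Λ := Λ) (a := v₁) (b := v₂) hv1 hhL
      have hi1 : IntervalIntegrable (fun v => φ v / v) MeasureTheory.volume v₁ s := by
        refine ContinuousOn.intervalIntegrable ?_
        rw [Set.uIcc_of_le hv1s]
        exact hcont.mono (Set.Icc_subset_Icc le_rfl (hsle.trans htv2))
      have hi2 : IntervalIntegrable (fun v => φ v / v) MeasureTheory.volume s t := by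
        refine ContinuousOn.intervalIntegrable ?_
        rw [Set.uIcc_of_le hsle]
        exact hcont.mono (Set.Icc_subset_Icc hv1s htv2)
      rw [← intervalIntegral.integral_add_adjacent_intervals hi1 hi2]
      have hlog : Real.log (t / v₁) = Real.log (s / v₁) + Real.log (t / s) := by
        rw [← Real.log_mul (by positivity) (by have : 0 < t := by linarith
                                               positivity)]
        congr 1
        field_simp
      rw [hlog]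
      have e1 : ∑ p ∈ mtS N v₁ s, h p * φ (Real.log p / Real.log N)
          + ∑ p ∈ mtS N s t, h p * φ (Real.log p / Real.log N)
          - ((∫ v in v₁..s, φ v / v) + ∫ v in s..t, φ v / v)
          = (∑ p ∈ mtS N v₁ s, h p * φ (Real.log p / Real.log N) - ∫ v in v₁..s, φ v / v)
            + (∑ p ∈ mtS N s t, h p * φ (Real.log p / Real.log N) - ∫ v in s..t, φ v / v) := by
        ring
      rw [e1]
      refine (abs_add_le _ _).trans ?_
      push_cast
      nlinarith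
  have hfin := key m le_rfl
  have hv2 : v₁ + m * r = v₂ := by rw [hmr]; ring
  rw [hv2] at hfin
  have hsum : ∑ p ∈ (range N).filter (fun p : ℕ => p.Prime ∧ v₁ ≤ Real.log p / Real.log N ∧
          Real.log p / Real.log N < v₂), h p * φ (Real.log p / Real.log N)
      = ∑ p ∈ mtS N v₁ v₂, h p * φ (Real.log p / Real.log N) := by
    unfold mtS
    refine Finset.sum_congr ?_ fun _ _ => rfl
    ext p
    simp only [Finset.mem_filter]
  rw [hsum]
  refine hfin.trans ?_
  have hlogle : Real.log (v₂ / v₁) ≤ |Real.log δ| := by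
    have h3 : v₂ / v₁ ≤ 1 / δ := by
      rw [div_le_div_iff₀ hv1 hδ]
      nlinarith
    have h4 := Real.log_le_log (div_pos (by linarith) hv1) h3
    rw [one_div, Real.log_inv] at h4
    exact h4.trans (neg_le_abs _)
  have e1 : 2 * Λ * (1 / m) * Real.log (v₂ / v₁) ≤ ε / 2 := by
    calc 2 * Λ * (1 / m) * Real.log (v₂ / v₁) ≤ 2 * Λ * (1 / m) * |Real.log δ| := by gcongr
      _ = (4 * Λ * |Real.log δ|) / m / 2 := by ring
      _ ≤ (ε * m) / m / 2 := by gcongr
      _ = ε / 2 := by field_simp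
  have e2 : (m : ℝ) * ((Λ * (1 / m) + B) * (C / (δ * Real.log N))) ≤ ε / 2 := by
    have h5 : (m : ℝ) * ((Λ * (1 / m) + B) * (C / (δ * Real.log N)))
        = (Λ + m * B) * C / (δ * Real.log N) := by
      field_simp
    rw [h5, div_le_div_iff₀ (by positivity) (by norm_num)]
    rw [div_le_iff₀ (by positivity)] at hl3
    nlinarith
  linarith

theorem mass_g (h : ℕ → ℝ) (hh : Dim1 h) (δ : ℝ) (hδ : 0 < δ) (hδ1 : δ ≤ 1) :
    ∃ N₀ : ℕ, ∀ N : ℕ, N₀ ≤ N → ∑ p ∈ PQ (pw N δ) N, h p ≤ Real.log (1 / δ) + 1 := by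
  obtain ⟨C, hC0, hC⟩ := hh.law
  have htend : Filter.Tendsto (fun N : ℕ => Real.log (N : ℝ)) Filter.atTop Filter.atTop :=
    Real.tendsto_log_atTop.comp tendsto_natCast_atTop_atTop
  obtain ⟨N₁, hN₁⟩ := Filter.eventually_atTop.1
    (htend.eventually_ge_atTop (max (Real.log 2 / δ) (C / δ)))
  refine ⟨max N₁ 2, fun N hN => ?_⟩
  have hN2 : 2 ≤ N := (le_max_right _ _).trans hN
  have hl0 := hN₁ N ((le_max_left _ _).trans hN)
  have hl2 := (le_max_left _ _).trans hl0
  have hl3 := (le_max_right _ _).trans hl0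
  have hN1 : (1 : ℝ) < N := by exact_mod_cast (by omega : 1 < N)
  have hN0 : (0 : ℝ) < N := by linarith
  have hl : 0 < Real.log N := Real.log_pos hN1
  rw [div_le_iff₀ hδ] at hl2 hl3
  have h2 : 2 ≤ (N : ℝ) ^ δ := by
    rw [← Real.log_le_log_iff (by norm_num) (Real.rpow_pos_of_pos hN0 _), Real.log_rpow hN0]
    linarith
  have h3 := gm_mass h hC N hN2 δ 1 hδ hδ1 h2
  rw [Real.rpow_one, Nat.ceil_natCast] at h3
  have h4 : PQ (pw N δ) N = (Ico ⌈(N : ℝ) ^ δ⌉₊ N).filter Nat.Prime := rfl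
  rw [h4]
  have h5 : C / (δ * Real.log N) ≤ 1 := by
    rw [div_le_one (by positivity)]
    linarith
  linarith [(abs_le.1 h3).2]

end Pool.Agent.Work.MP_73869e_nt.P5
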