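import Mathlib
import Pool.Agent.Work.MP_73869e_nt.P5.Defs
import Pool.Agent.Work.MP_73869e_nt.AP.MertQ
import Pool.Agent.Work.MP_2dba45_nt.Sv.Mert1

set_option autoImplicit false

/-!
Module DimQ (size M, a port). gq q is a density of dimension one.
nn and le: unfold. law: apply Sv.mt_psum (partial summation, file Sv/Mert1.lean) with
a n = if n is prime and jacobiSym n q = 1 then 2 else 0 and AP.mert_q
(|sum over such p ≤ N of 2 log p/p - log N| ≤ C), then copy the proof of Sv.sum_g1 with g1 replaced by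
gq q (mt_shift, mt_loglog can be cited).
-/

namespace Pool.Agent.Work.MP_73869e_nt.P5

open Finset Pool.Agent.Work.MP_73869e_nt.AP

private theorem gq_nonneg (q p : ℕ) : 0 ≤ gq q p := by
  unfold gq
  split_ifs
  · positivity
  · exact le_rfl

private theorem gq_le (q p : ℕ) : gq q p ≤ 2 / p := by
  unfold gq
  split_ifs
  · exact le_rfl
  · positivity

private theorem psum_gq (q : ℕ) (hq : q.Prime) (hq2 : q ≠ 2) : ∃ C : ℝ, 0 ≤ C ∧ ∀ w z : ℕ,
    2 ≤ w → w ≤ z → |∑ p ∈ (Ioc w z).filter Nat.Prime, gq q p -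
      (Real.log (Real.log z) - Real.log (Real.log w))| ≤ C / Real.log w := by
  obtain ⟨C, hC0, hC⟩ := mert_q q hq hq2
  refine ⟨2 * C + 7, by linarith, fun w z hw hwz => ?_⟩
  have h := Pool.Agent.Work.MP_2dba45_nt.Sv.mt_psum
    (fun n => if n.Prime ∧ jacobiSym n q = 1 then (2 : ℝ) else 0) C hC0 (fun N hN => ?_) w z hw hwz
  · have e : ∑ p ∈ (Ioc w z).filter Nat.Prime, gq q p =
        ∑ n ∈ Ioc w z, (if n.Prime ∧ jacobiSym n q = 1 then (2 : ℝ) else 0) / n := by
      rw [Finset.sum_filter]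
      refine Finset.sum_congr rfl fun n _ => ?_
      unfold gq
      by_cases h1 : n.Prime
      · by_cases h2 : jacobiSym n q = 1
        · rw [if_pos h1, if_pos ⟨h1, h2⟩, if_pos ⟨h1, h2⟩]
        · rw [if_pos h1, if_neg (fun h => h2 h.2), if_neg (fun h => h2 h.2), zero_div]
      · rw [if_neg h1, if_neg (fun h => h1 h.1), zero_div]
    rw [e]
    exact h
  · have h3 := hC N hN
    have e : ∑ p ∈ (Ioc 0 N).filter (fun p : ℕ => p.Prime ∧ jacobiSym p q = 1),
        2 * Real.log p / p = ∑ n ∈ Ioc 0 N,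
          (if n.Prime ∧ jacobiSym n q = 1 then (2 : ℝ) else 0) * (Real.log n / n) := by
      rw [Finset.sum_filter]
      refine Finset.sum_congr rfl fun n _ => ?_
      split_ifs
      · ring
      · ring
    rw [e] at h3
    exact h3

theorem dim1_gq (q : ℕ) (hq : q.Prime) (hq2 : q ≠ 2) : Dim1 (gq q) := by
  refine ⟨gq_nonneg q, fun p _ => gq_le q p, ?_⟩
  obtain ⟨C, hC0, hC⟩ := psum_gq q hq hq2
  refine ⟨C + 6, by linarith, fun w x hw hwx => ?_⟩
  set W := ⌈w⌉₊ with hW
  set X := ⌈x⌉₊ with hX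
  have hwW : w ≤ W := Nat.le_ceil w
  have hWw : (W : ℝ) ≤ w + 1 := (Nat.ceil_lt_add_one (by linarith)).le
  have hxX : x ≤ X := Nat.le_ceil x
  have hXx : (X : ℝ) ≤ x + 1 := (Nat.ceil_lt_add_one (by linarith)).le
  have hWX : W ≤ X := Nat.ceil_le_ceil hwx
  have hW2 : 2 ≤ W := by
    have : (2 : ℝ) ≤ W := hw.trans hwW
    exact_mod_cast this
  have hlw : 0 < Real.log w := Real.log_pos (by linarith)
  have hlW : Real.log w ≤ Real.log W := Real.log_le_log (by linarith) hwW
  have hlx : Real.log w ≤ Real.log x := Real.log_le_log (by linarith) hwx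
  have h1 := hC W X hW2 hWX
  have h2 := Pool.Agent.Work.MP_2dba45_nt.Sv.mt_loglog hw hwW hWw
  have h3 := Pool.Agent.Work.MP_2dba45_nt.Sv.mt_loglog (hw.trans hwx) hxX hXx
  have h4 : ∀ Y : ℕ, w ≤ Y → 0 ≤ (if Y.Prime then gq q Y else 0) ∧
      (if Y.Prime then gq q Y else 0) ≤ 2 / Real.log w := by
    intro Y hY
    have hb : 2 / (Y : ℝ) ≤ 2 / Real.log w := by
      apply div_le_div_of_nonneg_left (by norm_num) hlw
      have := Real.log_le_sub_one_of_pos (x := w) (by linarith)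
      linarith
    split_ifs with hp
    · exact ⟨gq_nonneg q Y, (gq_le q Y).trans hb⟩
    · exact ⟨le_rfl, by positivity⟩
  have h5 := h4 W hwW
  have h6 := h4 X (hwx.trans hxX)
  have h7 : C / Real.log W ≤ C / Real.log w := div_le_div_of_nonneg_left hC0 hlw hlW
  have h8 : 1 / Real.log x ≤ 1 / Real.log w := one_div_le_one_div_of_le hlw hlx
  rw [Pool.Agent.Work.MP_2dba45_nt.Sv.mt_shift (gq q) W X hWX]
  have e6 : (C + 6) / Real.log w = C / Real.log w + 2 / Real.log w + 2 / Real.log w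
      + 1 / Real.log w + 1 / Real.log w := by ring
  rw [e6]
  have h0 : 0 ≤ 1 / Real.log w := by positivity
  have h00 : 0 ≤ 2 / Real.log w := by positivity
  rw [abs_le] at h1 ⊢
  constructor
  · linarith [h1.1, h2.1, h2.2, h3.1, h3.2, h5.1, h5.2, h6.1, h6.2]
  · linarith [h1.2, h2.1, h2.2, h3.1, h3.2, h5.1, h5.2, h6.1, h6.2]

end Pool.Agent.Work.MP_73869e_nt.P5
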