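import Mathlib
import Pool.Agent.Work.MP_73869e_nt.P5.Defs
import Pool.Agent.Work.MP_2dba45_nt.Nu

set_option autoImplicit false

/-!
Module V0G (size M). The product over the middle primes against the Selberg sum of AP, by Rankin's trick.
Put hh p = g p/(1 - g p) (so ∏ (1 - g p)^(-1) = ∏ (1 + hh p) = Σ over T ⊆ Psm of hh T), z = N^δ, R = RR N =
N^(1/21). For N large Psm q δ N ⊆ PP q N (p < pw N δ implies p ≤ N^δ ≤ yR N), so the T with prd T ≤ R
contribute at most G q N (RR N) = Σ over T ⊆ PP q N, prd T ≤ R of hh T (AP.G, Sel.GG, Sel.hh). The others: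
Σ_{prd T > R} hh T ≤ R^(-s) Σ_T hh T (prd T)^s = R^(-s) ∏ (1 + hh p p^s), s = 1/(δ log N) = 1/log z, and
1 + hh p p^s ≤ (1 + hh p)(1 + hh p (p^s - 1)), p^s - 1 ≤ (e - 1) s log p ≤ 2 s log p for p ≤ z,
Σ_{p in Psm} hh p 2 s log p ≤ 2 s * 2.2 * (log z + C) ≤ 5 for N large (hh p ≤ 2.2/p, Mertens
Σ_{p ≤ z} log p/p ≤ log z + C, MP_2dba45_nt.Mert.mertens_one; jac = 1 is not even used). Hence the tail is
≤ exp(5 - 1/(21 δ)) ∏ (1 + hh) ≤ (1/2) ∏ (1 + hh) as 1/(21 δ) ≥ 200/21 > 9.5 for δ ≤ 1/200 (exp(-4.5) ≤ 1/2).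
So ∏ (1 + hh) ≤ 2 G.
-/

namespace Pool.Agent.Work.MP_73869e_nt.P5

open Finset Filter Pool.Agent.Work.MP_2dba45_nt.Sel Pool.Agent.Work.MP_73869e_nt.AP

private theorem v0_one_add (P : Finset ℕ) (h : ℕ → ℝ) (s R : ℝ) (hR : 0 < R) (hs : 0 ≤ s)
    (h0 : ∀ p ∈ P, 0 ≤ h p) (h1 : ∀ p ∈ P, 1 ≤ p) :
    ∑ T ∈ P.powerset.filter (fun T => ¬ (prd T : ℝ) ≤ R), ∏ p ∈ T, h p ≤
      R ^ (-s) * ((∏ p ∈ P, (1 + h p)) * Real.exp (∑ p ∈ P, h p * ((p : ℝ) ^ s - 1))) := by
  have hRs : 0 < R ^ (-s) := Real.rpow_pos_of_pos hR _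
  have hps : ∀ p ∈ P, 1 ≤ (p : ℝ) ^ s := fun p hp =>
    Real.one_le_rpow (by exact_mod_cast h1 p hp) hs
  have e1 : ∀ T ∈ P.powerset.filter (fun T => ¬ (prd T : ℝ) ≤ R), ∏ p ∈ T, h p ≤
      R ^ (-s) * ∏ p ∈ T, (h p * (p : ℝ) ^ s) := by
    intro T hT
    rw [Finset.mem_filter, Finset.mem_powerset] at hT
    have a1 : 0 ≤ ∏ p ∈ T, h p := Finset.prod_nonneg fun p hp => h0 p (hT.1 hp)
    have a2 : ∏ p ∈ T, (p : ℝ) ^ s = (prd T : ℝ) ^ s := by
      rw [prd]
      push_cast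
      exact Real.finset_prod_rpow T (fun p => (p : ℝ)) (fun p _ => Nat.cast_nonneg p) s
    rw [Finset.prod_mul_distrib, a2]
    have a3 : R ^ s ≤ (prd T : ℝ) ^ s := Real.rpow_le_rpow hR.le (le_of_lt (not_le.1 hT.2)) hs
    have a4 : R ^ (-s) * R ^ s = 1 := by
      rw [← Real.rpow_add hR, neg_add_cancel, Real.rpow_zero]
    calc ∏ p ∈ T, h p = (∏ p ∈ T, h p) * (R ^ (-s) * R ^ s) := by rw [a4, mul_one]
      _ ≤ (∏ p ∈ T, h p) * (R ^ (-s) * (prd T : ℝ) ^ s) :=
          mul_le_mul_of_nonneg_left (mul_le_mul_of_nonneg_left a3 hRs.le) a1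
      _ = _ := by ring
  refine (Finset.sum_le_sum e1).trans ?_
  rw [← Finset.mul_sum]
  refine mul_le_mul_of_nonneg_left ?_ hRs.le
  have e2 : ∑ T ∈ P.powerset.filter (fun T => ¬ (prd T : ℝ) ≤ R), ∏ p ∈ T, (h p * (p : ℝ) ^ s) ≤
      ∑ T ∈ P.powerset, ∏ p ∈ T, (h p * (p : ℝ) ^ s) := by
    refine Finset.sum_le_sum_of_subset_of_nonneg (Finset.filter_subset _ _) fun T hT _ => ?_
    rw [Finset.mem_powerset] at hT
    exact Finset.prod_nonneg fun p hp =>
      mul_nonneg (h0 p (hT hp)) (by linarith [hps p (hT hp)])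
  refine e2.trans ?_
  rw [← Finset.prod_one_add, Real.exp_sum, ← Finset.prod_mul_distrib]
  refine Finset.prod_le_prod (fun p hp => ?_) fun p hp => ?_
  · have := h0 p hp
    have := hps p hp
    nlinarith
  · have a1 := h0 p hp
    have a2 := hps p hp
    have a3 := Real.add_one_le_exp (h p * ((p : ℝ) ^ s - 1))
    have a4 : 0 ≤ h p * ((p : ℝ) ^ s - 1) := mul_nonneg a1 (by linarith)
    have a5 : 1 + h p * (p : ℝ) ^ s ≤ (1 + h p) * (1 + h p * ((p : ℝ) ^ s - 1)) := by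
      have e : (1 + h p) * (1 + h p * ((p : ℝ) ^ s - 1)) =
          1 + h p * (p : ℝ) ^ s + h p * (h p * ((p : ℝ) ^ s - 1)) := by ring
      rw [e]
      have := mul_nonneg a1 a4
      linarith
    refine a5.trans (mul_le_mul_of_nonneg_left ?_ (by linarith))
    linarith

theorem V0_G (q : ℕ) (hq : q.Prime) (δ : ℝ) (hδ : 0 < δ) (hδ1 : δ ≤ 1 / 200) :
    ∀ᶠ N : ℕ in atTop, 0 < ∏ p ∈ Psm q δ N, (1 - g p) ∧ ∏ p ∈ Psm q δ N, (1 - g p) ≤ 1 ∧
      1 ≤ 2 * G q N (RR N) * ∏ p ∈ Psm q δ N, (1 - g p) := by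
  classical
  obtain ⟨C, hC⟩ := Pool.Agent.Work.MP_2dba45_nt.Mert.mertens_one
  have hC0 : 0 ≤ C := (abs_nonneg _).trans (hC 1 one_pos)
  have hlog : Tendsto (fun N : ℕ => Real.log (N : ℝ)) atTop atTop :=
    Real.tendsto_log_atTop.comp tendsto_natCast_atTop_atTop
  filter_upwards [eventually_ge_atTop 4, hlog.eventually_ge_atTop ((1 + 22 / 3 * C) / δ)]
    with N hN4 hNL
  have hN0 : (0 : ℝ) < N := by exact_mod_cast (by omega : 0 < N)
  have hN1 : (1 : ℝ) ≤ N := by exact_mod_cast (by omega : 1 ≤ N)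
  set L : ℝ := Real.log N with hL
  have hδL : 1 + 22 / 3 * C ≤ δ * L := by
    rw [div_le_iff₀ hδ] at hNL
    linarith
  have hδL1 : 1 ≤ δ * L := by
    have : 0 ≤ 22 / 3 * C := by positivity
    linarith
  have hδL0 : 0 < δ * L := by linarith
  set z : ℝ := (N : ℝ) ^ δ with hz
  have hz0 : 0 < z := Real.rpow_pos_of_pos hN0 _
  have hlz : Real.log z = δ * L := Real.log_rpow hN0 δ
  have hz1 : 1 ≤ z := Real.one_le_rpow hN1 hδ.le
  have hzN : 22 ≤ zN N := by
    have h1 : 2 ≤ Nat.log 2 N := Nat.le_log_of_pow_le (by norm_num) (by omega)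
    calc 22 ≤ 2 ^ 20 := by norm_num
      _ ≤ (Nat.log 2 N) ^ 20 := Nat.pow_le_pow_left h1 20
  set P : Finset ℕ := Psm q δ N with hP
  have hmem : ∀ p ∈ P, zN N < p ∧ (p : ℝ) ≤ z ∧ p.Prime ∧ jacobiSym p q = 1 := by
    intro p hp
    rw [hP, Psm, Finset.mem_filter, PA, Finset.mem_filter, Finset.mem_Ioo] at hp
    refine ⟨hp.1.1.1, ?_, hp.1.2.1, hp.1.2.2⟩
    exact (Nat.lt_ceil.1 hp.2).le
  have hp23 : ∀ p ∈ P, (23 : ℝ) ≤ p := by
    intro p hp
    have := (hmem p hp).1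
    exact_mod_cast (by omega : 23 ≤ p)
  set h : ℕ → ℝ := fun p => g p / (1 - g p) with hh'
  have hg : ∀ p ∈ P, 0 < g p ∧ g p ≤ 1 / 11 := by
    intro p hp
    have h1 := hp23 p hp
    have h2 : (0 : ℝ) < p := by linarith
    unfold g
    refine ⟨by positivity, ?_⟩
    rw [div_le_div_iff₀ h2 (by norm_num)]
    linarith
  have hh0 : ∀ p ∈ P, 0 ≤ h p := fun p hp =>
    div_nonneg (hg p hp).1.le (by linarith [(hg p hp).2])
  have hh1 : ∀ p ∈ P, h p ≤ 11 / 5 / p := by
    intro p hp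
    have h1 := hp23 p hp
    have h2 : (0 : ℝ) < p := by linarith
    have h3 : 0 < 1 - g p := by linarith [(hg p hp).2]
    change g p / (1 - g p) ≤ _
    rw [div_le_div_iff₀ h3 h2]
    unfold g
    have e : 11 / 5 * (1 - 2 / (p : ℝ)) = 11 / 5 - 22 / 5 / p := by ring
    rw [e, div_mul_cancel₀ _ h2.ne']
    have h4 : 22 / 5 / (p : ℝ) ≤ 1 / 5 := by
      rw [div_le_div_iff₀ h2 (by norm_num)]
      linarith
    linarith
  have hV0 : 0 < ∏ p ∈ P, (1 - g p) := Finset.prod_pos fun p hp => by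
    linarith [(hg p hp).2]
  have hV1 : ∏ p ∈ P, (1 - g p) ≤ 1 := Finset.prod_le_one
    (fun p hp => by linarith [(hg p hp).2]) (fun p hp => by linarith [(hg p hp).1])
  refine ⟨hV0, hV1, ?_⟩
  have hVW : (∏ p ∈ P, (1 + h p)) * ∏ p ∈ P, (1 - g p) = 1 := by
    rw [← Finset.prod_mul_distrib]
    refine Finset.prod_eq_one fun p hp => ?_
    have h3 : (1 - g p) ≠ 0 := by linarith [(hg p hp).2]
    change (1 + g p / (1 - g p)) * (1 - g p) = 1
    field_simp
    ring
  have hW0 : 0 < ∏ p ∈ P, (1 + h p) := Finset.prod_pos fun p hp => by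
    linarith [hh0 p hp]
  -- the claim for the product
  have hmain : ∏ p ∈ P, (1 + h p) ≤ 2 * G q N (RR N) := by
    have hsplit : ∏ p ∈ P, (1 + h p) =
        ∑ T ∈ P.powerset.filter (fun T => (prd T : ℝ) ≤ RR N), ∏ p ∈ T, h p +
        ∑ T ∈ P.powerset.filter (fun T => ¬ (prd T : ℝ) ≤ RR N), ∏ p ∈ T, h p := by
      rw [Finset.prod_one_add, Finset.sum_filter_add_sum_filter_not]
    have hPP : P ⊆ PP q N := by
      intro p hp
      obtain ⟨h1, h2, h3, h4⟩ := hmem p hp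
      rw [PP, Finset.mem_filter, Finset.mem_Ioc]
      refine ⟨⟨h1, Nat.le_floor ?_⟩, h3, h4⟩
      refine h2.trans ?_
      rw [hz, yR]
      exact Real.rpow_le_rpow_of_exponent_le hN1 (by linarith)
    have hS1 : ∑ T ∈ P.powerset.filter (fun T => (prd T : ℝ) ≤ RR N), ∏ p ∈ T, h p ≤
        G q N (RR N) := by
      unfold G GG
      refine Finset.sum_le_sum_of_subset_of_nonneg ?_ fun T hT _ => ?_
      · intro T hT
        rw [Finset.mem_filter, Finset.mem_powerset] at hT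
        rw [DD, Finset.mem_filter, Finset.mem_powerset]
        exact ⟨hT.1.trans hPP, hT.2⟩
      · rw [DD, Finset.mem_filter, Finset.mem_powerset] at hT
        refine Finset.prod_nonneg fun p hp => ?_
        have h1 := hT.1 hp
        rw [PP, Finset.mem_filter, Finset.mem_Ioc] at h1
        have h2 : (23 : ℝ) ≤ p := by exact_mod_cast (by omega : 23 ≤ p)
        have h3 : (0 : ℝ) < p := by linarith
        have h4 : g p ≤ 1 := by
          unfold g
          rw [div_le_one h3]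
          linarith
        exact div_nonneg (by unfold g; positivity) (by linarith)
    have hR0 : 0 < RR N := Real.rpow_pos_of_pos hN0 _
    set s : ℝ := 1 / (δ * L) with hs
    have hs0 : 0 ≤ s := by positivity
    have hS2 := v0_one_add P h s (RR N) hR0 hs0 hh0 (fun p hp => (hmem p hp).2.2.1.one_lt.le)
    have hRs : RR N ^ (-s) ≤ Real.exp (-(19 / 2)) := by
      rw [RR, ← Real.rpow_mul hN0.le, Real.rpow_def_of_pos hN0]
      refine Real.exp_le_exp.2 ?_
      rw [← hL]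
      have hL0 : 0 < L := by
        by_contra hcon
        push Not at hcon
        nlinarith
      have e : L * (1 / 21 * -s) = -(1 / (21 * δ)) := by
        rw [hs]
        field_simp
      rw [e]
      have e2 : (19 : ℝ) / 2 ≤ 1 / (21 * δ) := by
        rw [div_le_div_iff₀ (by norm_num) (by positivity)]
        nlinarith
      linarith
    have hsum : ∑ p ∈ P, h p * ((p : ℝ) ^ s - 1) ≤ 5 := by
      have t1 : ∀ p ∈ P, h p * ((p : ℝ) ^ s - 1) ≤ 22 / 5 * s * (Real.log p / p) := by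
        intro p hp
        have hp0 : (0 : ℝ) < p := by linarith [hp23 p hp]
        have hlp0 : 0 ≤ Real.log p := Real.log_nonneg (by linarith [hp23 p hp])
        have hlp : Real.log p ≤ δ * L := by
          rw [← hlz]
          exact Real.log_le_log hp0 (hmem p hp).2.1
        have hx0 : 0 ≤ s * Real.log p := mul_nonneg hs0 hlp0
        have hx1 : s * Real.log p ≤ 1 := by
          rw [hs, one_div_mul_eq_div, div_le_one hδL0]
          exact hlp
        have h1 : (p : ℝ) ^ s - 1 ≤ 2 * (s * Real.log p) := by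
          rw [Real.rpow_def_of_pos hp0, mul_comm (Real.log p) s]
          have h2 := (abs_le.1 (Real.abs_exp_sub_one_sub_id_le
            (x := s * Real.log p) (by rw [abs_of_nonneg hx0]; exact hx1))).2
          nlinarith
        have h2 : 0 ≤ 2 * (s * Real.log p) := by positivity
        calc h p * ((p : ℝ) ^ s - 1) ≤ h p * (2 * (s * Real.log p)) :=
              mul_le_mul_of_nonneg_left h1 (hh0 p hp)
          _ ≤ 11 / 5 / p * (2 * (s * Real.log p)) := mul_le_mul_of_nonneg_right (hh1 p hp) h2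
          _ = 22 / 5 * s * (Real.log p / p) := by ring
      refine (Finset.sum_le_sum t1).trans ?_
      rw [← Finset.mul_sum]
      have hM0 : 0 < ⌊z⌋₊ := Nat.floor_pos.2 hz1
      have t2 : ∑ p ∈ P, Real.log p / p ≤ δ * L + C := by
        have t3 : ∑ p ∈ P, Real.log p / p ≤
            ∑ p ∈ (Ioc 0 ⌊z⌋₊).filter Nat.Prime, Real.log p / p := by
          refine Finset.sum_le_sum_of_subset_of_nonneg ?_ fun p hp _ => ?_
          · intro p hp
            obtain ⟨h1, h2, h3, h4⟩ := hmem p hp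
            rw [Finset.mem_filter, Finset.mem_Ioc]
            exact ⟨⟨h3.pos, Nat.le_floor h2⟩, h3⟩
          · rw [Finset.mem_filter] at hp
            have : (1 : ℝ) ≤ p := by exact_mod_cast hp.2.one_lt.le
            exact div_nonneg (Real.log_nonneg this) (by linarith)
        have t4 := (abs_le.1 (hC _ hM0)).2
        have t5 : Real.log (⌊z⌋₊ : ℝ) ≤ δ * L := by
          rw [← hlz]
          exact Real.log_le_log (by exact_mod_cast hM0) (Nat.floor_le hz0.le)
        linarith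
      calc 22 / 5 * s * ∑ p ∈ P, Real.log p / p ≤ 22 / 5 * s * (δ * L + C) :=
            mul_le_mul_of_nonneg_left t2 (by positivity)
        _ ≤ 5 := by
            rw [hs]
            have e : 22 / 5 * (1 / (δ * L)) * (δ * L + C) = 22 / 5 * (δ * L + C) / (δ * L) := by
              ring
            rw [e, div_le_iff₀ hδL0]
            linarith
    have hS3 : ∑ T ∈ P.powerset.filter (fun T => ¬ (prd T : ℝ) ≤ RR N), ∏ p ∈ T, h p ≤
        1 / 2 * ∏ p ∈ P, (1 + h p) := by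
      refine hS2.trans ?_
      have a1 : Real.exp (∑ p ∈ P, h p * ((p : ℝ) ^ s - 1)) ≤ Real.exp 5 :=
        Real.exp_le_exp.2 hsum
      have a2 : Real.exp (-(19 / 2)) * Real.exp 5 ≤ 1 / 2 := by
        rw [← Real.exp_add]
        have a3 : (-(19 / 2) + 5 : ℝ) = -(9 / 2) := by norm_num
        rw [a3, Real.exp_neg]
        have a4 := Real.add_one_le_exp (9 / 2 : ℝ)
        rw [one_div]
        exact inv_anti₀ (by norm_num) (by linarith)
      calc RR N ^ (-s) * ((∏ p ∈ P, (1 + h p)) *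
            Real.exp (∑ p ∈ P, h p * ((p : ℝ) ^ s - 1)))
          ≤ Real.exp (-(19 / 2)) * ((∏ p ∈ P, (1 + h p)) * Real.exp 5) :=
            mul_le_mul hRs (mul_le_mul_of_nonneg_left a1 hW0.le)
              (mul_nonneg hW0.le (Real.exp_pos _).le) (Real.exp_pos _).le
        _ = (Real.exp (-(19 / 2)) * Real.exp 5) * ∏ p ∈ P, (1 + h p) := by ring
        _ ≤ 1 / 2 * ∏ p ∈ P, (1 + h p) := mul_le_mul_of_nonneg_right a2 hW0.le
    linarith
  calc (1 : ℝ) = (∏ p ∈ P, (1 + h p)) * ∏ p ∈ P, (1 - g p) := hVW.symm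
    _ ≤ 2 * G q N (RR N) * ∏ p ∈ P, (1 - g p) := mul_le_mul_of_nonneg_right hmain hV0.le

end Pool.Agent.Work.MP_73869e_nt.P5
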