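import Mathlib
import Pool.Agent.Work.MP_73869e_nt.P5.Defs
import Pool.Agent.Work.MP_73869e_nt.P5.V0G
import Pool.Agent.Work.MP_73869e_nt.AP.Mom2

set_option autoImplicit false

/-!
Module C5f (size S-M). The coefficients c5 = 1/(VV * ThM).
With V0 = ∏ over Psm of (1 - g p): V0 ≤ ThM ≤ 2 V0 ≤ 2 (BHW.main1, BHW.main2: ThM is
Σ lp d ∏_{d} g = Σ lp d gg g d), 0 < VV {k} w N ≤ 1 (AP.VV_pos; each factor is ≤ 1), and V0_G:
c5 ≤ 1/(VV V0) ≤ 2 G/VV = 2 cw. The last bound is AP.ev_cw (cw ≤ (log N)^(3/2)).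
-/

namespace Pool.Agent.Work.MP_73869e_nt.P5

open Finset Filter Pool.Agent.Work.MP_2dba45_nt.Sel Pool.Agent.Work.MP_73869e_nt.AP

private theorem VV_le_one (k w N : ℕ) (hw : 4 ≤ w) : VV {k} w N ≤ 1 := by
  unfold VV
  apply Finset.prod_le_one
  · intro p hp
    simp only [SS, Finset.mem_filter, Finset.mem_Ioc] at hp
    have h1 : nu {k} p ≤ 2 := nu_le_two k p hp.2 (by omega)
    have h2 : (nu {k} p : ℝ) ≤ 2 := by exact_mod_cast h1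
    have h3 : (5 : ℝ) ≤ p := by exact_mod_cast (by omega : 5 ≤ p)
    rw [sub_nonneg, div_le_one (by linarith)]
    linarith
  · intro p hp
    have : (0 : ℝ) ≤ (nu {k} p : ℝ) / p := by positivity
    linarith

theorem c5_facts (δ : ℝ) (b : ℕ) (K : Finset ℕ) (w : ℕ) (hδ : 0 < δ) (hδ1 : δ ≤ 1 / 200)
    (hK : ∀ q ∈ K, q.Prime ∧ q % 4 = 3) (hw : 16 ≤ w) :
    ∀ᶠ N : ℕ in atTop, ∀ lp dp : ℕ → Finset ℕ → ℝ, Env δ b N K lp dp → ∀ q ∈ K,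
      0 < ∏ p ∈ Psm q δ N, (1 - g p) ∧ ∏ p ∈ Psm q δ N, (1 - g p) ≤ ThM δ N lp q ∧
      ThM δ N lp q ≤ 2 ∧ ∀ j : ℕ, 0 < VV {q * j ^ 2} w N ∧ VV {q * j ^ 2} w N ≤ 1 ∧
        1 / 2 ≤ c5 δ w N lp ⟨q, j⟩ ∧ c5 δ w N lp ⟨q, j⟩ ≤ 2 * cw w N ⟨q, j⟩ ∧
        c5 δ w N lp ⟨q, j⟩ ≤ 2 * Real.log N ^ ((3 : ℝ) / 2) := by
  have h1 : ∀ᶠ N : ℕ in atTop, ∀ q ∈ K, 0 < ∏ p ∈ Psm q δ N, (1 - g p) ∧
      ∏ p ∈ Psm q δ N, (1 - g p) ≤ 1 ∧
      1 ≤ 2 * G q N (RR N) * ∏ p ∈ Psm q δ N, (1 - g p) := by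
    rw [Filter.eventually_all_finset]
    intro q hq
    exact V0_G q (hK q hq).1 δ hδ hδ1
  filter_upwards [h1, ev_cw K hK w (by omega), ev_ok] with N hN hcw hok
  intro lp dp henv q hq
  obtain ⟨hV0, hV1, hG⟩ := hN q hq
  have hE := henv q hq
  have hm1 : ∏ p ∈ Psm q δ N, (1 - g p) ≤ ThM δ N lp q := hE.main1
  have hm2 : ThM δ N lp q ≤ 2 * ∏ p ∈ Psm q δ N, (1 - g p) := hE.main2
  have hGp : 0 < G q N (RR N) := G_pos hok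
  refine ⟨hV0, hm1, by linarith, fun j => ?_⟩
  have hVp := VV_pos (q * j ^ 2) w N (by omega)
  have hVl := VV_le_one (q * j ^ 2) w N (by omega)
  have hT : 0 < ThM δ N lp q := hV0.trans_le hm1
  have hT2 : ThM δ N lp q ≤ 2 := by linarith
  have hc1 : c5 δ w N lp ⟨q, j⟩ ≤ 2 * cw w N ⟨q, j⟩ := by
    show 1 / (VV {q * j ^ 2} w N * ThM δ N lp q) ≤ 2 * (G q N (RR N) / VV {q * j ^ 2} w N)
    rw [mul_div_assoc', div_le_div_iff₀ (by positivity) hVp]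
    have : 1 ≤ 2 * G q N (RR N) * ThM δ N lp q := by
      refine hG.trans ?_
      gcongr
    nlinarith
  refine ⟨hVp, hVl, ?_, hc1, hc1.trans ?_⟩
  · show 1 / 2 ≤ 1 / (VV {q * j ^ 2} w N * ThM δ N lp q)
    apply one_div_le_one_div_of_le (by positivity)
    nlinarith
  · have := hcw q hq j
    linarith

end Pool.Agent.Work.MP_73869e_nt.P5
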