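import Mathlib
import Pool.Agent.Work.MP_73869e_nt.P5.Cb

set_option autoImplicit false

/-!
Module MomL (size M, a port of AP.moment_single, file AP/Mom.lean).
ev_PA: copy AP.ev_PP with PA (the primes of PA q N are > zN N; jac = 1; nu {q j^2} p = 2).
mom_lin: AP.momA_single with D = {∅}, lam = 1 (then FF = LS and MM = ML, since gg g (∅ ∪ ∅ ∪ T) = gg g T),
P = PA q N, b = bN N, z = zN N; errors: 2 (N/Q) exp(..) A1 ≤ 2 N log^(-30) K log^7 N (AP.ev_exp, A1_le5,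
sum_PA) and 4 (1+4z)^(2b+1) A2 ≤ N^(1/1000) N^(497/1000 + 1/1000) (ev_pow5, A2_le5 with x = 0, y = 497/1000).
mom_sq: AP.momA_single with D, lam and E = {∅}, om = 1 (FF = (LS D lam)^2,
MM = Σ Σ lam lam gg (T1 ∪ T2 ∪ ∅)); A2 ≤ N^(4/1000 + 1/1000) (x = 2/1000, y = 0).
-/

namespace Pool.Agent.Work.MP_73869e_nt.P5

open Finset Filter Pool.Agent.Work.MP_2dba45_nt.Sel Pool.Agent.Work.MP_73869e_nt.AP

theorem ev_PA (q : ℕ) (hq : q.Prime) (hq4 : q % 4 = 3) (w : ℕ) (c : ℝ) (hc : 0 < c) :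
    ∀ᶠ N : ℕ in atTop, ∀ j ∈ Icc 1 (JJ c q N),
    q * j ^ 2 < zN N ∧ ∀ p ∈ PA q N, p.Prime ∧ zN N < p ∧ w < p ∧ nu {q * j ^ 2} p = 2 := by
  filter_upwards [ev_shift_lt c hc q hq.pos, ev_zN_ge (w + 2)] with N hN hz
  intro j hj
  obtain ⟨h1, h2, h3⟩ := hN j hj
  refine ⟨h1, fun p hp => ?_⟩
  unfold PA at hp
  rw [Finset.mem_filter, Finset.mem_Ioo] at hp
  obtain ⟨⟨hpz, -⟩, hpp, hjac⟩ := hp
  have hzw : w + 2 ≤ zN N := by exact_mod_cast hz
  have hj1 : 1 ≤ j := (Finset.mem_Icc.1 hj).1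
  have hndvd : ¬ p ∣ q * j := by
    intro h
    rcases (Nat.Prime.dvd_mul hpp).1 h with h | h
    · have := Nat.le_of_dvd hq.pos h; omega
    · have := Nat.le_of_dvd (by omega) h; omega
  have hnu := nu_single q j p hq hq4 hpp (by omega) hndvd
  rw [hjac] at hnu
  exact ⟨hpp, hpz, by omega, by exact_mod_cast hnu⟩

private theorem ml_expC (q : ℕ) (hq : q.Prime) (hq2 : q ≠ 2) : ∃ K : ℝ, 0 < K ∧ ∀ᶠ N : ℕ in atTop,
    Real.exp (7 * ∑ p ∈ PA q N, g p) ≤ K * Real.log N ^ 7 := by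
  obtain ⟨C, hC0, hC⟩ := sum_PA q hq hq2
  refine ⟨Real.exp (7 * C), Real.exp_pos _, ?_⟩
  filter_upwards [hC, ev_log_ge 1] with N hN hL
  have hL0 : 0 < Real.log N := by linarith
  calc Real.exp (7 * ∑ p ∈ PA q N, g p) ≤ Real.exp (7 * C + 7 * Real.log (Real.log N)) := by
        apply Real.exp_le_exp.2; linarith
    _ = Real.exp (7 * C) * Real.log N ^ 7 := by
        rw [Real.exp_add, show (7 : ℝ) * Real.log (Real.log N) = Real.log (Real.log N ^ 7) by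
          rw [Real.log_pow]; norm_num, Real.exp_log (by positivity)]

private theorem ml_gen (q : ℕ) (hq : q.Prime) (hq4 : q % 4 = 3) (w : ℕ) (hw : 6 ≤ w) (c : ℝ)
    (hc : 0 < c) (x y : ℝ) (hx : 0 ≤ x) (hx1 : x ≤ 1) (hy : 0 ≤ y) (hy1 : y ≤ 1)
    (hxy : 2 * x + y + 1 / 1000 + 1 / 1000 < 1) :
    ∀ᶠ N : ℕ in atTop, ∀ a < primorial w, ∀ j ∈ Icc 1 (JJ c q N),
    ∀ (lam om : Finset ℕ → ℝ) (D E : Finset (Finset ℕ)), (∀ T, |lam T| ≤ 1) → (∀ T, |om T| ≤ 1) →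
    D ⊆ (PA q N).powerset → E ⊆ (PA q N).powerset →
    (∀ T ∈ D, (prd T : ℝ) ≤ (N : ℝ) ^ x) → (∀ T ∈ E, (prd T : ℝ) ≤ (N : ℝ) ^ y) →
    |∑ n ∈ AA {q * j ^ 2} w N a, FF D lam E om (q * j ^ 2) n -
      (N : ℝ) / primorial w * VV {q * j ^ 2} w N * MM D lam E om| ≤ N / Real.log N ^ 5 := by
  have hq2 : q ≠ 2 := by rintro rfl; norm_num at hq4
  obtain ⟨K, hK0, hK⟩ := ml_expC q hq hq2
  filter_upwards [ev_PA q hq hq4 w c hc, hK, A2_le5 x y hx hx1 hy hy1, ev_exp, ev_pow5,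
    ev_log_ge (4 * K + 2), ev_rpow_small (2 * x + y + 1 / 1000 + 1 / 1000) hxy 2 5, ev_zN_ge 1,
    eventually_ge_atTop 8] with N hPP hKN hA2 hexp hpow hL hsmall hz1 h8
  intro a ha j hj lam om D E hlam hom hD hE hDx hEy
  obtain ⟨-, hP⟩ := hPP j hj
  have hz1' : 1 ≤ zN N := by exact_mod_cast hz1
  have hmain := momA_single N w a (q * j ^ 2) (bN N) (zN N) ha rfl hz1' (PA q N) hP
    D E hD hE lam om hlam hom (by omega)
  refine hmain.trans ?_
  have hN0 : (0 : ℝ) < N := by exact_mod_cast (by omega : 0 < N)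
  have hL0 : 0 < Real.log N := by linarith
  have hQ : (1 : ℝ) ≤ primorial w := by exact_mod_cast primorial_pos w
  have h1 := A1_le5 q N D E hD hE
  have h2 := hA2 q D E hD hE hDx hEy
  have hNQ : (N : ℝ) / primorial w ≤ N := div_le_self hN0.le hQ
  have hNQ0 : 0 ≤ (N : ℝ) / primorial w := by positivity
  have t1 : 2 * ((N : ℝ) / primorial w) *
      Real.exp (11 * (1 + Real.log (zN N)) - (2 * (bN N : ℝ) + 1)) * A1 D E ≤
      (N / Real.log N ^ 5) / 2 := by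
    calc _ ≤ 2 * (N : ℝ) * (1 / Real.log N ^ 30) * (K * Real.log N ^ 7) := by
          have := A1_nonneg D E
          gcongr
          exact h1.trans hKN
      _ = (N / Real.log N ^ 5) / 2 * (4 * K / Real.log N ^ 18) := by
          field_simp
          norm_num
      _ ≤ (N / Real.log N ^ 5) / 2 * 1 := by
          gcongr
          rw [div_le_one (by positivity)]
          calc 4 * K ≤ Real.log N := by linarith
            _ ≤ Real.log N ^ 18 := le_self_pow₀ (by linarith) (by norm_num)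
      _ = _ := by ring
  have t2 : 4 * (1 + 4 * ((zN N : ℕ) : ℝ)) ^ (2 * bN N + 1) * A2 D E ≤
      (N / Real.log N ^ 5) / 2 := by
    calc _ ≤ (N : ℝ) ^ ((1 : ℝ) / 1000) * (N : ℝ) ^ (2 * x + y + 1 / 1000) := by
          have := A2_nonneg D E
          gcongr
      _ = (2 * (N : ℝ) ^ (2 * x + y + 1 / 1000 + 1 / 1000)) / 2 := by
          rw [Real.rpow_add hN0 (2 * x + y + 1 / 1000)]
          ring
      _ ≤ _ := by gcongr
  linarith

theorem mom_lin (q : ℕ) (hq : q.Prime) (hq4 : q % 4 = 3) (w : ℕ) (hw : 6 ≤ w) (hwq : w < q)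
    (c : ℝ) (hc : 0 < c) : ∀ᶠ N : ℕ in atTop, ∀ a < primorial w, ∀ j ∈ Icc 1 (JJ c q N),
    ∀ (om : Finset ℕ → ℝ) (E : Finset (Finset ℕ)), (∀ T, |om T| ≤ 1) →
    E ⊆ (PA q N).powerset → (∀ T ∈ E, (prd T : ℝ) ≤ (N : ℝ) ^ ((497 : ℝ) / 1000)) →
    |∑ n ∈ AA {q * j ^ 2} w N a, LS E om (q * j ^ 2) n -
      (N : ℝ) / primorial w * VV {q * j ^ 2} w N * ML E om| ≤ N / Real.log N ^ 5 := by
  filter_upwards [ml_gen q hq hq4 w hw c hc 0 (497 / 1000) le_rfl (by norm_num) (by norm_num)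
    (by norm_num) (by norm_num)] with N hN
  intro a ha j hj om E hom hE hEy
  have h := hN a ha j hj (fun _ => 1) om {∅} E (fun _ => by norm_num) hom
    (by intro T hT; rw [Finset.mem_singleton] at hT; subst hT; simp) hE
    (by intro T hT; rw [Finset.mem_singleton] at hT; subst hT; simp [prd]) hEy
  have e1 : ∀ n, FF {∅} (fun _ => 1) E om (q * j ^ 2) n = LS E om (q * j ^ 2) n := by
    intro n
    unfold FF LS
    rw [Finset.sum_singleton, if_pos (fun p hp => absurd hp (Finset.notMem_empty p))]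
    ring
  have e2 : MM {∅} (fun _ => 1) E om = ML E om := by
    unfold MM ML
    simp
  rw [e2] at h
  simpa only [e1] using h

theorem mom_sq (q : ℕ) (hq : q.Prime) (hq4 : q % 4 = 3) (w : ℕ) (hw : 6 ≤ w) (hwq : w < q)
    (c : ℝ) (hc : 0 < c) : ∀ᶠ N : ℕ in atTop, ∀ a < primorial w, ∀ j ∈ Icc 1 (JJ c q N),
    ∀ (lam : Finset ℕ → ℝ) (D : Finset (Finset ℕ)), (∀ T, |lam T| ≤ 1) →
    D ⊆ (PA q N).powerset → (∀ T ∈ D, (prd T : ℝ) ≤ (N : ℝ) ^ ((2 : ℝ) / 1000)) →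
    |∑ n ∈ AA {q * j ^ 2} w N a, LS D lam (q * j ^ 2) n ^ 2 -
      (N : ℝ) / primorial w * VV {q * j ^ 2} w N *
        ∑ d ∈ D, ∑ e ∈ D, lam d * lam e * gg g (d ∪ e)| ≤ N / Real.log N ^ 5 := by
  filter_upwards [ml_gen q hq hq4 w hw c hc (2 / 1000) 0 (by norm_num) (by norm_num) le_rfl
    (by norm_num) (by norm_num)] with N hN
  intro a ha j hj lam D hlam hD hDx
  have h := hN a ha j hj lam (fun _ => 1) D {∅} hlam (fun _ => by norm_num) hD
    (by intro T hT; rw [Finset.mem_singleton] at hT; subst hT; simp) hDx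
    (by intro T hT; rw [Finset.mem_singleton] at hT; subst hT; simp [prd])
  have e1 : ∀ n, FF D lam {∅} (fun _ => 1) (q * j ^ 2) n = LS D lam (q * j ^ 2) n ^ 2 := by
    intro n
    unfold FF LS
    rw [Finset.sum_singleton, if_pos (fun p hp => absurd hp (Finset.notMem_empty p))]
    ring
  have e2 : MM D lam {∅} (fun _ => 1) = ∑ d ∈ D, ∑ e ∈ D, lam d * lam e * gg g (d ∪ e) := by
    unfold MM
    simp
  rw [e2] at h
  simpa only [e1] using h

end Pool.Agent.Work.MP_73869e_nt.P5
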