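import Mathlib
import Pool.Agent.Work.MP_73869e_nt.P5.C5f
import Pool.Agent.Work.MP_73869e_nt.P5.Comb
import Pool.Agent.Work.MP_73869e_nt.P5.MomL
import Pool.Agent.Work.MP_73869e_nt.P5.Wvb

set_option autoImplicit false

/-!
Module Diag (size M). Σ over NN of uu^2 = c5^2 Σ over AA of th^2 wv^2 ≤ c5^2 4^(3/δ) Σ over AA of th^2
(wv_abs; k = q j^2 ≤ N for j ≤ JJ c q N, N large, see the event ev4 in AP.second_moment). th = LS E lp
(sing_lp), mom_sq and BHW.sq: Σ th^2 ≤ X VV 4 V0 + N/log^5 N. c5 VV V0 ≤ 1 (V0 ≤ ThM) and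
c5 N/log^5 N ≤ 2 N (log N)^(-7/2) ≤ 2 X for N large. Total ≤ 6 * 4^(3/δ) X c5.
-/

namespace Pool.Agent.Work.MP_73869e_nt.P5

open Finset Filter Pool.Agent.Work.MP_2dba45_nt.Sel Pool.Agent.Work.MP_73869e_nt.AP

theorem diag_u (c δ : ℝ) (b κ : ℕ) (K : Finset ℕ) (w : ℕ) (hc : 0 < c) (hδ : 0 < δ)
    (hδ1 : δ ≤ 1 / 200) (hlev : δ * (4 * b + 10) ≤ 1 / 1000) (hκ : 1 ≤ κ)
    (hK : ∀ q ∈ K, q.Prime ∧ q % 4 = 3) (hw : 16 ≤ w) (hwq : ∀ q ∈ K, w < q) :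
    ∀ᶠ N : ℕ in atTop, ∀ lp dp : ℕ → Finset ℕ → ℝ, Env δ b N K lp dp → ∀ a < primorial w,
    ∀ bb : ℕ, ∀ x ∈ Fam c K N (primorial w) bb,
    ∑ n ∈ NN w N a, uu δ κ w N a lp x n ^ 2 ≤
      6 * (4 : ℝ) ^ (3 / δ) * ((N : ℝ) / primorial w) * c5 δ w N lp x := by
  classical
  have ev4 : ∀ᶠ N : ℕ in atTop, ∀ q ∈ K, ∀ j ∈ Icc 1 (JJ c q N), q * j ^ 2 ≤ N := by
    rw [Filter.eventually_all_finset]
    intro q hq
    filter_upwards [ev_rpow_small 0 (by norm_num) c 2, eventually_ge_atTop 8] with N hN h8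
    intro j hj
    have h1 := (jj_bound c hc q N j (hK q hq).1.pos hj).1
    have hl : 0 < Real.log N := Real.log_pos (by exact_mod_cast (by omega : 1 < N))
    rw [Real.rpow_zero, mul_one, le_div_iff₀ (by positivity)] at hN
    exact_mod_cast h1.trans hN
  have evs : ∀ᶠ N : ℕ in atTop, ∀ q ∈ K, ∀ a < primorial w, ∀ j ∈ Icc 1 (JJ c q N),
      ∀ (lam : Finset ℕ → ℝ) (D : Finset (Finset ℕ)), (∀ T, |lam T| ≤ 1) →
      D ⊆ (PA q N).powerset → (∀ T ∈ D, (prd T : ℝ) ≤ (N : ℝ) ^ ((2 : ℝ) / 1000)) →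
      |∑ n ∈ AA {q * j ^ 2} w N a, LS D lam (q * j ^ 2) n ^ 2 -
        (N : ℝ) / primorial w * VV {q * j ^ 2} w N *
          ∑ d ∈ D, ∑ e ∈ D, lam d * lam e * gg g (d ∪ e)| ≤ N / Real.log N ^ 5 := by
    rw [Filter.eventually_all_finset]
    intro q hq
    exact mom_sq q (hK q hq).1 (hK q hq).2 w (by omega) (hwq q hq) c hc
  filter_upwards [c5_facts δ b K w hδ hδ1 hK hw, sing_lp δ b hδ hlev, evs, ev4,
    wv_abs δ κ hδ hκ, ev_log_ge (max 1 (primorial w : ℝ)), eventually_ge_atTop 8]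
    with N hc5 hsing hmom h4 hwv hLm h8
  intro lp dp hE a ha bb x hx
  obtain ⟨hx1, hx2, -⟩ := mem_Fam.1 hx
  have hL1 : 1 ≤ Real.log N := (le_max_left _ _).trans hLm
  have hLQ : (primorial w : ℝ) ≤ Real.log N := (le_max_right _ _).trans hLm
  have hL0 : 0 < Real.log N := by linarith
  have hN0 : (0 : ℝ) < N := by exact_mod_cast (by omega : 0 < N)
  have hQ0 : (0 : ℝ) < primorial w := by exact_mod_cast primorial_pos w
  obtain ⟨hV0, hV1, hT2, hj⟩ := hc5 lp dp hE x.1 hx1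
  obtain ⟨hVV0, hVV1, hc5a, hc5b, hc5c⟩ := hj x.2
  have hBH := hE x.1 hx1
  obtain ⟨D, hD1, hD2, hD3, hD4, hD5⟩ := hsing x.1 (lp x.1) (dp x.1) hBH
  have hm := (abs_le.1 (hmom x.1 hx1 a ha x.2 hx2 (lp x.1) D hBH.lp_le hD1 hD2)).2
  have hc5a' : 1 / 2 ≤ c5 δ w N lp x := hc5a
  have hc5c' : c5 δ w N lp x ≤ 2 * Real.log N ^ ((3 : ℝ) / 2) := hc5c
  have hc0 : 0 < c5 δ w N lp x := by linarith
  set V := ∏ p ∈ Psm x.1 δ N, (1 - g p) with hV
  set W := VV {x.1 * x.2 ^ 2} w N with hW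
  set X := (N : ℝ) / primorial w with hX
  have hX0 : 0 < X := by positivity
  have hsq : ∑ d ∈ D, ∑ e ∈ D, lp x.1 d * lp x.1 e * gg g (d ∪ e) ≤ 4 * V := by
    rw [hD5]
    exact hBH.sq
  have hth : ∑ n ∈ AA {x.1 * x.2 ^ 2} w N a, th δ N lp x n ^ 2 ≤
      X * W * (4 * V) + N / Real.log N ^ 5 := by
    have e : ∑ n ∈ AA {x.1 * x.2 ^ 2} w N a, th δ N lp x n ^ 2 =
        ∑ n ∈ AA {x.1 * x.2 ^ 2} w N a, LS D (lp x.1) (x.1 * x.2 ^ 2) n ^ 2 := by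
      refine Finset.sum_congr rfl fun n _ => ?_
      unfold th
      rw [hD3]
    rw [e]
    have h1 : X * W * ∑ d ∈ D, ∑ e ∈ D, lp x.1 d * lp x.1 e * gg g (d ∪ e) ≤
        X * W * (4 * V) := mul_le_mul_of_nonneg_left hsq (by positivity)
    linarith
  have hcV : c5 δ w N lp x * (X * W * (4 * V)) ≤ 4 * X := by
    have hThM : 0 < ThM δ N lp x.1 := lt_of_lt_of_le hV0 hV1
    have e : c5 δ w N lp x = 1 / (W * ThM δ N lp x.1) := rfl
    rw [e]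
    have h1 : V / ThM δ N lp x.1 ≤ 1 := (div_le_one hThM).2 hV1
    calc 1 / (W * ThM δ N lp x.1) * (X * W * (4 * V)) =
          4 * X * (V / ThM δ N lp x.1) := by field_simp
      _ ≤ 4 * X * 1 := by gcongr
      _ = 4 * X := by ring
  have hcE : c5 δ w N lp x * (N / Real.log N ^ 5) ≤ 2 * X := by
    have h1 : Real.log N ^ ((3 : ℝ) / 2) ≤ Real.log N ^ (2 : ℕ) := by
      rw [← Real.rpow_natCast]
      exact Real.rpow_le_rpow_of_exponent_le hL1 (by norm_num)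
    have h2 : (N : ℝ) / Real.log N ≤ X := by
      rw [hX]
      exact div_le_div_of_nonneg_left hN0.le hQ0 hLQ
    have h3 : (1 : ℝ) ≤ Real.log N ^ 2 := one_le_pow₀ hL1
    calc c5 δ w N lp x * (N / Real.log N ^ 5) ≤
          (2 * Real.log N ^ (2 : ℕ)) * (N / Real.log N ^ 5) := by
          gcongr
          linarith
      _ = 2 * (N / Real.log N) * (1 / Real.log N ^ 2) := by field_simp
      _ ≤ 2 * (N / Real.log N) * 1 := by
          gcongr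
          rw [div_le_one (by positivity)]
          exact h3
      _ ≤ 2 * X := by linarith
  have hmain : c5 δ w N lp x * ∑ n ∈ AA {x.1 * x.2 ^ 2} w N a, th δ N lp x n ^ 2 ≤ 6 * X := by
    have := mul_le_mul_of_nonneg_left hth hc0.le
    rw [mul_add] at this
    linarith
  have hstep : ∑ n ∈ NN w N a, uu δ κ w N a lp x n ^ 2 ≤
      c5 δ w N lp x ^ 2 * ((4 : ℝ) ^ (3 / δ) *
        ∑ n ∈ AA {x.1 * x.2 ^ 2} w N a, th δ N lp x n ^ 2) := by
    rw [Finset.mul_sum, Finset.mul_sum, ← Finset.sum_subset (AA_sub {x.1 * x.2 ^ 2} w N a)]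
    · refine Finset.sum_le_sum fun n hn => ?_
      unfold uu
      rw [if_pos hn, mul_pow, mul_pow]
      apply mul_le_mul_of_nonneg_left _ (sq_nonneg _)
      have hn1 : n ∈ Ioc N (2 * N) := by
        unfold AA at hn
        exact (Finset.mem_filter.1 hn).1
      have hb : |wv δ κ N x n| ≤ (2 : ℝ) ^ (3 / δ) :=
        hwv x.1 (x.1 * x.2 ^ 2) (h4 x.1 hx1 x.2 hx2) n hn1
      have hb2 : wv δ κ N x n ^ 2 ≤ (4 : ℝ) ^ (3 / δ) := by
        rw [← sq_abs]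
        calc |wv δ κ N x n| ^ 2 ≤ ((2 : ℝ) ^ (3 / δ)) ^ 2 := by gcongr
          _ = (4 : ℝ) ^ (3 / δ) := by
              rw [← Real.rpow_natCast, ← Real.rpow_mul (by norm_num), mul_comm,
                Real.rpow_mul (by norm_num)]
              norm_num
      rw [mul_comm]
      exact mul_le_mul_of_nonneg_right hb2 (sq_nonneg _)
    · intro n _ hn
      unfold uu
      rw [if_neg hn]
      simp
  refine hstep.trans ?_
  have h40 : (0 : ℝ) < (4 : ℝ) ^ (3 / δ) := by positivity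
  calc c5 δ w N lp x ^ 2 * ((4 : ℝ) ^ (3 / δ) *
        ∑ n ∈ AA {x.1 * x.2 ^ 2} w N a, th δ N lp x n ^ 2) =
        c5 δ w N lp x * (4 : ℝ) ^ (3 / δ) * (c5 δ w N lp x *
          ∑ n ∈ AA {x.1 * x.2 ^ 2} w N a, th δ N lp x n ^ 2) := by ring
    _ ≤ c5 δ w N lp x * (4 : ℝ) ^ (3 / δ) * (6 * X) := by gcongr
    _ = 6 * (4 : ℝ) ^ (3 / δ) * X * c5 δ w N lp x := by ring

end Pool.Agent.Work.MP_73869e_nt.P5
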