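import Mathlib
import Pool.Agent.Work.MP_73869e_nt.P5.MomL

set_option autoImplicit false

/-!
Module MomP (size M, a port of AP.moment_pair, file AP/Mom.lean).
AP.momA_pair with D = D' = {∅}, lam = lam' = 1, P = PA q N, P' = PA q' N (k ≠ k' are < zN N, so they are
different mod every prime of P ∩ P'). Errors as in AP.moment_pair: A1, A1p from Cb; the last one is
4 (1+4z)^(2b+1) A2 A2' ≤ N^(1/1000) N^(2 (497/1000 + 1/1000)) = N^(997/1000).
-/

namespace Pool.Agent.Work.MP_73869e_nt.P5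

open Finset Filter Pool.Agent.Work.MP_2dba45_nt.Sel Pool.Agent.Work.MP_73869e_nt.AP

private theorem FF_one (E : Finset (Finset ℕ)) (om : Finset ℕ → ℝ) (k n : ℕ) :
    FF {∅} (fun _ => 1) E om k n = LS E om k n := by
  unfold FF LS
  rw [Finset.sum_singleton, if_pos (by intro p hp; simp at hp), one_pow, one_mul]

private theorem MM_one (E : Finset (Finset ℕ)) (om : Finset ℕ → ℝ) :
    MM {∅} (fun _ => 1) E om = ML E om := by
  unfold MM ML
  rw [Finset.sum_singleton, Finset.sum_singleton]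
  refine Finset.sum_congr rfl fun T _ => ?_
  rw [Finset.empty_union, Finset.empty_union, one_mul, one_mul]

private theorem sub_one (P : Finset ℕ) : ({∅} : Finset (Finset ℕ)) ⊆ P.powerset := by
  rw [Finset.singleton_subset_iff, Finset.mem_powerset]
  exact Finset.empty_subset _

private theorem ev_expA (q : ℕ) (hq : q.Prime) (hq2 : q ≠ 2) : ∃ K : ℝ, 0 < K ∧
    ∀ᶠ N : ℕ in atTop, Real.exp (7 * ∑ p ∈ PA q N, g p) ≤ K * Real.log N ^ 7 := by
  obtain ⟨C, hC0, hC⟩ := sum_PA q hq hq2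
  refine ⟨Real.exp (7 * C), Real.exp_pos _, ?_⟩
  filter_upwards [hC, ev_log_ge 1] with N hN hL
  have hL0 : 0 < Real.log N := by linarith
  calc Real.exp (7 * ∑ p ∈ PA q N, g p) ≤ Real.exp (7 * C + 7 * Real.log (Real.log N)) := by
        apply Real.exp_le_exp.2; linarith
    _ = Real.exp (7 * C) * Real.log N ^ 7 := by
        rw [Real.exp_add, show (7 : ℝ) * Real.log (Real.log N) = Real.log (Real.log N ^ 7) by
          rw [Real.log_pow]; norm_num, Real.exp_log (by positivity)]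

theorem mom_pair (q q' : ℕ) (hq : q.Prime) (hq4 : q % 4 = 3) (hq' : q'.Prime) (hq4' : q' % 4 = 3)
    (w : ℕ) (hw : 6 ≤ w) (hwq : w < q) (hwq' : w < q')
    (c : ℝ) (hc : 0 < c) : ∀ᶠ N : ℕ in atTop, ∀ a < primorial w, ∀ j ∈ Icc 1 (JJ c q N),
    ∀ j' ∈ Icc 1 (JJ c q' N), q * j ^ 2 ≠ q' * j' ^ 2 →
    ∀ (om om' : Finset ℕ → ℝ) (E E' : Finset (Finset ℕ)), (∀ T, |om T| ≤ 1) →
    (∀ T, |om' T| ≤ 1) → E ⊆ (PA q N).powerset → E' ⊆ (PA q' N).powerset →
    (∀ T ∈ E, (prd T : ℝ) ≤ (N : ℝ) ^ ((497 : ℝ) / 1000)) →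
    (∀ T ∈ E', (prd T : ℝ) ≤ (N : ℝ) ^ ((497 : ℝ) / 1000)) →
    |∑ n ∈ AA {q * j ^ 2, q' * j' ^ 2} w N a, LS E om (q * j ^ 2) n * LS E' om' (q' * j' ^ 2) n -
      (N : ℝ) / primorial w * VV {q * j ^ 2, q' * j' ^ 2} w N * (ML E om * ML E' om')| ≤
      N / Real.log N ^ 5 := by
  have hq2 : q ≠ 2 := by rintro rfl; norm_num at hq4
  have hq2' : q' ≠ 2 := by rintro rfl; norm_num at hq4'
  obtain ⟨K, hK0, hK⟩ := ev_expA q hq hq2
  obtain ⟨K', hK0', hK'⟩ := ev_expA q' hq' hq2'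
  filter_upwards [ev_PA q hq hq4 w c hc, ev_PA q' hq' hq4' w c hc, hK, hK',
    A2_le5 0 ((497 : ℝ) / 1000) le_rfl zero_le_one (by norm_num) (by norm_num),
    ev_exp, ev_pow5, ev_log_ge (max (600 * (K * K')) 2),
    ev_rpow_small ((997 : ℝ) / 1000) (by norm_num) 3 5,
    ev_zN_ge 1, eventually_ge_atTop 8]
    with N hPP hPP' hKN hKN' hA2 hexp hpow hLm hsmall hz1 h8
  intro a ha j hj j' hj' hne om om' E E' hom hom' hE hE' hE1 hE1'
  obtain ⟨hk, hP⟩ := hPP j hj
  obtain ⟨hk', hP'⟩ := hPP' j' hj'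
  have hL : 600 * (K * K') ≤ Real.log N := (le_max_left _ _).trans hLm
  have hL2 : 2 ≤ Real.log N := (le_max_right _ _).trans hLm
  have hz1' : 1 ≤ zN N := by exact_mod_cast hz1
  have hkk : ∀ p ∈ PA q N ∩ PA q' N, ¬ q * j ^ 2 ≡ q' * j' ^ 2 [MOD p] := by
    intro p hp h
    have hpz := (hP p (Finset.mem_inter.1 hp).1).2.1
    exact hne (Nat.ModEq.eq_of_lt_of_lt h (by omega) (by omega))
  have hone : ∀ T : Finset ℕ, |(fun _ => (1 : ℝ)) T| ≤ 1 := by intro T; simp
  have hmain := momA_pair N w a (q * j ^ 2) (q' * j' ^ 2) (bN N) (zN N) ha rfl hz1' (PA q N)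
    (PA q' N) hP hP' hkk {∅} E {∅} E' (sub_one _) hE
    (sub_one _) hE' (fun _ => 1) om (fun _ => 1) om' hone hom hone hom' (by omega)
  simp only [FF_one, MM_one] at hmain
  refine hmain.trans ?_
  have hN0 : (0 : ℝ) < N := by exact_mod_cast (by omega : 0 < N)
  have hL0 : 0 < Real.log N := by linarith
  have hQ : (1 : ℝ) ≤ primorial w := by exact_mod_cast primorial_pos w
  have h1 := (A1_le5 q N {∅} E (sub_one _) hE).trans hKN
  have h1' := (A1_le5 q' N {∅} E' (sub_one _) hE').trans hKN'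
  have hemp : ∀ T ∈ ({∅} : Finset (Finset ℕ)), (prd T : ℝ) ≤ (N : ℝ) ^ (0 : ℝ) := by
    intro T hT
    rw [Finset.mem_singleton] at hT
    rw [hT, Real.rpow_zero]
    unfold prd
    simp
  have h2 := hA2 q {∅} E (sub_one _) hE hemp hE1
  have h2' := hA2 q' {∅} E' (sub_one _) hE' hemp hE1'
  have hNQ : (N : ℝ) / primorial w ≤ N := div_le_self hN0.le hQ
  have hNQ0 : 0 ≤ (N : ℝ) / primorial w := by positivity
  have n1 := A1_nonneg {∅} E
  have n1' := A1_nonneg {∅} E'
  have n2 := A2_nonneg {∅} E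
  have n2' := A2_nonneg {∅} E'
  have t0 : (N : ℝ) / primorial w * ∑ p ∈ PA q N ∩ PA q' N, A1p {∅} E p *
      A1p {∅} E' p ≤ (N / Real.log N ^ 5) / 3 := by
    have hb : ∀ p ∈ PA q N ∩ PA q' N, A1p {∅} E p * A1p {∅} E' p ≤
        196 * (K * K') * Real.log N ^ 14 * (1 / (p : ℝ) ^ 2) := by
      intro p hp
      rw [Finset.mem_inter] at hp
      have b1 := A1p_le5 q N {∅} E (sub_one _) hE p hp.1
      have b2 := A1p_le5 q' N {∅} E' (sub_one _) hE' p hp.2
      have c1 : A1p {∅} E p ≤ 7 * g p * (K * Real.log N ^ 7) := by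
        refine b1.trans ?_
        have := g_nonneg p
        gcongr
      have c2 : A1p {∅} E' p ≤ 7 * g p * (K' * Real.log N ^ 7) := by
        refine b2.trans ?_
        have := g_nonneg p
        gcongr
      have hg0 := g_nonneg p
      calc A1p {∅} E p * A1p {∅} E' p
          ≤ (7 * g p * (K * Real.log N ^ 7)) * (7 * g p * (K' * Real.log N ^ 7)) :=
            mul_le_mul c1 c2 (A1p_nonneg _ _ _) (by positivity)
        _ = 196 * (K * K') * Real.log N ^ 14 * (1 / (p : ℝ) ^ 2) := by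
            unfold g
            ring
    have hs : ∑ p ∈ PA q N ∩ PA q' N, 1 / (p : ℝ) ^ 2 ≤ 1 / (zN N : ℝ) := by
      refine le_trans ?_ (sum_inv_sq_le (zN N) N hz1')
      apply Finset.sum_le_sum_of_subset_of_nonneg
      · intro p hp
        rw [Finset.mem_inter] at hp
        have hp1 := Finset.mem_Ioo.1 (Finset.mem_filter.1 hp.1).1
        exact Finset.mem_Ioc.2 ⟨hp1.1, hp1.2.le⟩
      · intros; positivity
    have hz20 := zN_ge N h8
    calc (N : ℝ) / primorial w * ∑ p ∈ PA q N ∩ PA q' N, A1p {∅} E p * A1p {∅} E' p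
        ≤ N * (196 * (K * K') * Real.log N ^ 14 * (1 / Real.log N ^ 20)) := by
          apply mul_le_mul hNQ _ _ hN0.le
          · calc _ ≤ ∑ p ∈ PA q N ∩ PA q' N, 196 * (K * K') * Real.log N ^ 14 * (1 / (p : ℝ) ^ 2) :=
                  Finset.sum_le_sum hb
              _ = 196 * (K * K') * Real.log N ^ 14 * ∑ p ∈ PA q N ∩ PA q' N, (1 / (p : ℝ) ^ 2) := by
                  rw [Finset.mul_sum]
              _ ≤ 196 * (K * K') * Real.log N ^ 14 * (1 / Real.log N ^ 20) := by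
                  gcongr
                  refine hs.trans ?_
                  apply one_div_le_one_div_of_le (by positivity) hz20
          · exact Finset.sum_nonneg fun p _ => mul_nonneg (A1p_nonneg _ _ _) (A1p_nonneg _ _ _)
      _ = (N / Real.log N ^ 5) / 3 * (588 * (K * K') / Real.log N) := by
          field_simp
          norm_num
      _ ≤ (N / Real.log N ^ 5) / 3 * 1 := by
          gcongr
          rw [div_le_one hL0]
          have : 0 < K * K' := by positivity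
          linarith
      _ = _ := by ring
  have t1 : 2 * ((N : ℝ) / primorial w) *
      Real.exp (11 * (1 + Real.log (zN N)) - (2 * (bN N : ℝ) + 1)) *
      (A1 {∅} E * A1 {∅} E') ≤ (N / Real.log N ^ 5) / 3 := by
    calc _ ≤ 2 * (N : ℝ) * (1 / Real.log N ^ 30) * ((K * Real.log N ^ 7) * (K' * Real.log N ^ 7)) := by
          gcongr
      _ = (N / Real.log N ^ 5) / 3 * (6 * (K * K') / Real.log N ^ 11) := by
          field_simp
          norm_num
      _ ≤ (N / Real.log N ^ 5) / 3 * 1 := by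
          gcongr
          rw [div_le_one (by positivity)]
          have : 0 < K * K' := by positivity
          calc 6 * (K * K') ≤ Real.log N := by linarith
            _ ≤ Real.log N ^ 11 := le_self_pow₀ (by linarith) (by norm_num)
      _ = _ := by ring
  have t2 : 4 * (1 + 4 * ((zN N : ℕ) : ℝ)) ^ (2 * bN N + 1) *
      (A2 {∅} E * A2 {∅} E') ≤ (N / Real.log N ^ 5) / 3 := by
    calc _ ≤ (N : ℝ) ^ ((1 : ℝ) / 1000) *
          ((N : ℝ) ^ (2 * 0 + (497 : ℝ) / 1000 + 1 / 1000) *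
            (N : ℝ) ^ (2 * 0 + (497 : ℝ) / 1000 + 1 / 1000)) := by
          gcongr
      _ = (3 * (N : ℝ) ^ ((997 : ℝ) / 1000)) / 3 := by
          rw [← Real.rpow_add hN0, ← Real.rpow_add hN0]
          norm_num
      _ ≤ _ := by gcongr
  linarith

end Pool.Agent.Work.MP_73869e_nt.P5
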