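import Mathlib
import Pool.Agent.Work.MP_73869e_nt.P5.C5f
import Pool.Agent.Work.MP_73869e_nt.P5.Comb
import Pool.Agent.Work.MP_73869e_nt.P5.MomP

set_option autoImplicit false

/-!
Module PairU (size M). uu x n * uu y n = c5 x c5 y * (if n in AA {kx, ky} then (th wv)(x) (th wv)(y) else 0)
(n in AA {kx} and n in AA {ky} ↔ n in AA {kx, ky}; AP.mem_AA_pair, AP.AA_sub), th wv = LS E om (comb),
mom_pair, ML E om = ThM * WM; c5 x c5 y ThM ThM' = 1/(VV VV'); error c5 c5' N/log^5 N ≤ 4 N/log^2 N.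
-/

namespace Pool.Agent.Work.MP_73869e_nt.P5

open Finset Filter Pool.Agent.Work.MP_2dba45_nt.Sel Pool.Agent.Work.MP_73869e_nt.AP

theorem pair_u (c δ : ℝ) (b κ : ℕ) (K : Finset ℕ) (w : ℕ) (hc : 0 < c) (hδ : 0 < δ)
    (hδ1 : δ ≤ 1 / 200) (hlev : δ * (4 * b + 10) ≤ 1 / 1000) (hκ : 1 ≤ κ)
    (hK : ∀ q ∈ K, q.Prime ∧ q % 4 = 3) (hw : 16 ≤ w) (hwq : ∀ q ∈ K, w < q) :
    ∀ᶠ N : ℕ in atTop, ∀ lp dp : ℕ → Finset ℕ → ℝ, Env δ b N K lp dp → ∀ a < primorial w,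
    ∀ bb : ℕ, ∀ x ∈ Fam c K N (primorial w) bb, ∀ y ∈ Fam c K N (primorial w) bb,
    x.1 * x.2 ^ 2 ≠ y.1 * y.2 ^ 2 →
    |∑ n ∈ NN w N a, uu δ κ w N a lp x n * uu δ κ w N a lp y n -
      (N : ℝ) / primorial w * (VV {x.1 * x.2 ^ 2, y.1 * y.2 ^ 2} w N /
        (VV {x.1 * x.2 ^ 2} w N * VV {y.1 * y.2 ^ 2} w N) * (WM δ κ N x.1 * WM δ κ N y.1))| ≤
      4 * (N / Real.log N ^ 2) := by
  have hmom : ∀ᶠ N : ℕ in atTop, ∀ q ∈ K, ∀ q' ∈ K, ∀ a < primorial w, ∀ j ∈ Icc 1 (JJ c q N),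
      ∀ j' ∈ Icc 1 (JJ c q' N), q * j ^ 2 ≠ q' * j' ^ 2 →
      ∀ (om om' : Finset ℕ → ℝ) (E E' : Finset (Finset ℕ)), (∀ T, |om T| ≤ 1) →
      (∀ T, |om' T| ≤ 1) → E ⊆ (PA q N).powerset → E' ⊆ (PA q' N).powerset →
      (∀ T ∈ E, (prd T : ℝ) ≤ (N : ℝ) ^ ((497 : ℝ) / 1000)) →
      (∀ T ∈ E', (prd T : ℝ) ≤ (N : ℝ) ^ ((497 : ℝ) / 1000)) →
      |∑ n ∈ AA {q * j ^ 2, q' * j' ^ 2} w N a, LS E om (q * j ^ 2) n * LS E' om' (q' * j' ^ 2) n -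
        (N : ℝ) / primorial w * VV {q * j ^ 2, q' * j' ^ 2} w N * (ML E om * ML E' om')| ≤
        N / Real.log N ^ 5 := by
    rw [Filter.eventually_all_finset]
    intro q hq
    rw [Filter.eventually_all_finset]
    intro q' hq'
    exact mom_pair q q' (hK q hq).1 (hK q hq).2 (hK q' hq').1 (hK q' hq').2 w (by omega)
      (hwq q hq) (hwq q' hq') c hc
  filter_upwards [hmom, comb δ b κ hδ hlev hκ, c5_facts δ b K w hδ hδ1 hK hw,
    ev_log_ge 1] with N hmom hcomb hfacts hL1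
  intro lp dp hEnv a ha bb x hx y hy hne
  rw [mem_Fam] at hx hy
  obtain ⟨hxK, hxj, -⟩ := hx
  obtain ⟨hyK, hyj, -⟩ := hy
  obtain ⟨E, om, hE, hom, hEx, hLS, hML⟩ := hcomb x.1 (lp x.1) (dp x.1) (hEnv x.1 hxK)
  obtain ⟨E', om', hE', hom', hEx', hLS', hML'⟩ := hcomb y.1 (lp y.1) (dp y.1) (hEnv y.1 hyK)
  obtain ⟨hV0, hVT, -, hf⟩ := hfacts lp dp hEnv x.1 hxK
  obtain ⟨hVx, -, hcx1, -, hcx2⟩ := hf x.2
  obtain ⟨hV0', hVT', -, hf'⟩ := hfacts lp dp hEnv y.1 hyK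
  obtain ⟨hVy, -, hcy1, -, hcy2⟩ := hf' y.2
  have hm := hmom x.1 hxK y.1 hyK a ha x.2 hxj y.2 hyj hne om om' E E' hom hom' hE hE' hEx hEx'
  have hL0 : 0 < Real.log N := by linarith
  have hT : 0 < ThM δ N lp x.1 := hV0.trans_le hVT
  have hT' : 0 < ThM δ N lp y.1 := hV0'.trans_le hVT'
  have hcx : c5 δ w N lp x = 1 / (VV {x.1 * x.2 ^ 2} w N * ThM δ N lp x.1) := rfl
  have hcy : c5 δ w N lp y = 1 / (VV {y.1 * y.2 ^ 2} w N * ThM δ N lp y.1) := rfl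
  -- the sum
  have hsum : ∑ n ∈ NN w N a, uu δ κ w N a lp x n * uu δ κ w N a lp y n =
      c5 δ w N lp x * c5 δ w N lp y * ∑ n ∈ AA {x.1 * x.2 ^ 2, y.1 * y.2 ^ 2} w N a,
        LS E om (x.1 * x.2 ^ 2) n * LS E' om' (y.1 * y.2 ^ 2) n := by
    rw [Finset.mul_sum, ← Finset.sum_subset (AA_sub {x.1 * x.2 ^ 2, y.1 * y.2 ^ 2} w N a)]
    · refine Finset.sum_congr rfl fun n hn => ?_
      have hnx : n ∈ AA {x.1 * x.2 ^ 2} w N a := by
        unfold AA at hn ⊢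
        rw [Finset.mem_filter] at hn ⊢
        refine ⟨hn.1, hn.2.1, fun p hp k hk => hn.2.2 p hp k ?_⟩
        rw [Finset.mem_singleton] at hk
        rw [hk]
        exact Finset.mem_insert_self _ _
      have hny : n ∈ AA {y.1 * y.2 ^ 2} w N a := by
        unfold AA at hn ⊢
        rw [Finset.mem_filter] at hn ⊢
        refine ⟨hn.1, hn.2.1, fun p hp k hk => hn.2.2 p hp k ?_⟩
        rw [Finset.mem_singleton] at hk
        rw [hk]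
        exact Finset.mem_insert_of_mem (Finset.mem_singleton_self _)
      unfold uu
      rw [if_pos hnx, if_pos hny, hLS, hLS']
      unfold th wv
      ring
    · intro n _ hn
      unfold uu
      by_cases h1 : n ∈ AA {x.1 * x.2 ^ 2} w N a
      · by_cases h2 : n ∈ AA {y.1 * y.2 ^ 2} w N a
        · exact absurd (mem_AA_pair h1 h2) hn
        · rw [if_neg h2]
          ring
      · rw [if_neg h1]
        ring
  have hmain : (N : ℝ) / primorial w * (VV {x.1 * x.2 ^ 2, y.1 * y.2 ^ 2} w N /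
        (VV {x.1 * x.2 ^ 2} w N * VV {y.1 * y.2 ^ 2} w N) * (WM δ κ N x.1 * WM δ κ N y.1)) =
      c5 δ w N lp x * c5 δ w N lp y * ((N : ℝ) / primorial w *
        VV {x.1 * x.2 ^ 2, y.1 * y.2 ^ 2} w N * (ML E om * ML E' om')) := by
    rw [hML, hML', hcx, hcy]
    change _ = _ * (_ * ((ThM δ N lp x.1 * WM δ κ N x.1) * (ThM δ N lp y.1 * WM δ κ N y.1)))
    field_simp
  rw [hsum, hmain, ← mul_sub, abs_mul]
  have hc0 : 0 < c5 δ w N lp x := by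
    have : c5 δ w N lp x = c5 δ w N lp ⟨x.1, x.2⟩ := rfl
    linarith
  have hc0' : 0 < c5 δ w N lp y := by
    have : c5 δ w N lp y = c5 δ w N lp ⟨y.1, y.2⟩ := rfl
    linarith
  rw [abs_of_pos (mul_pos hc0 hc0')]
  have hr : Real.log N ^ ((3 : ℝ) / 2) * Real.log N ^ ((3 : ℝ) / 2) = Real.log N ^ 3 := by
    rw [← Real.rpow_add hL0, ← Real.rpow_natCast]
    norm_num
  calc c5 δ w N lp x * c5 δ w N lp y * _ ≤ (2 * Real.log N ^ ((3 : ℝ) / 2)) *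
        (2 * Real.log N ^ ((3 : ℝ) / 2)) * (N / Real.log N ^ 5) := by
        refine mul_le_mul (mul_le_mul hcx2 hcy2 hc0'.le (by positivity)) hm (abs_nonneg _)
          (by positivity)
    _ = 4 * (Real.log N ^ ((3 : ℝ) / 2) * Real.log N ^ ((3 : ℝ) / 2)) *
        (N / Real.log N ^ 5) := by ring
    _ = 4 * (N / Real.log N ^ 2) := by
        rw [hr]
        field_simp

end Pool.Agent.Work.MP_73869e_nt.P5
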