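import Mathlib
import Pool.Agent.Work.MP_73869e_nt.P5.Diag
import Pool.Agent.Work.MP_73869e_nt.P5.PairU

set_option autoImplicit false

/-!
Module Sec (size M-L, a port of AP.second_moment, file AP/Mom2.lean).
Expand the square: pairs with the same shift are x = y (AP.shift_inj): diag_u, and Σ_x c5 x ≤ 2 Σ_x cw x ≤
2 C2 √c log^2 N S2 with S2 = Σ_K log q/√q (hVG, as in AP.second_moment); pairs with different shifts:
pair_u and AP.pair_sum with m = WM δ κ N (nonnegative), constant 1 + C1/w; number of pairs (#Fam)^2 times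
4 N/log^2 N ≤ η/3 X (#Fam)^2 for N large. (C1/w)(Σ WM)^2 ≤ (C1/w)(3/δ)^2 (#Fam)^2 ≤ η/3 (#Fam)^2;
12 * 4^(3/δ) X C2 √c log^2 N S2 ≤ X η/3 (#Fam)^2 by AP.card_Fam_ge (#Fam ≥ √c log N S1/(2Q)) and hKd.
sum_c5 is used again in Big.
-/

namespace Pool.Agent.Work.MP_73869e_nt.P5

open Finset Filter Pool.Agent.Work.MP_2dba45_nt.Sel Pool.Agent.Work.MP_73869e_nt.AP

theorem sum_c5 (c δ : ℝ) (b : ℕ) (K : Finset ℕ) (w : ℕ) (hc : 0 < c) (hδ : 0 < δ)
    (hδ1 : δ ≤ 1 / 200) (hK : ∀ q ∈ K, q.Prime ∧ q % 4 = 3) (hw : 16 ≤ w) (hwq : ∀ q ∈ K, w < q)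
    (C2 : ℝ) (hC2 : 0 < C2)
    (hVG : ∀ q : ℕ, q.Prime → q % 4 = 3 → w < q →
      ∀ c : ℝ, 0 < c → ∀ᶠ N : ℕ in atTop,
      ∑ j ∈ Icc 1 (JJ c q N), G q N (RR N) / VV {q * j ^ 2} w N ≤
      C2 * Real.log q * √(c / q) * Real.log N ^ 2) :
    ∀ᶠ N : ℕ in atTop, ∀ lp dp : ℕ → Finset ℕ → ℝ, Env δ b N K lp dp → ∀ bb : ℕ,
      ∑ x ∈ Fam c K N (primorial w) bb, c5 δ w N lp x ≤
        2 * C2 * √c * Real.log N ^ 2 * ∑ q ∈ K, Real.log q / √(q : ℝ) := by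
  have ev2 : ∀ᶠ N : ℕ in atTop, ∀ q ∈ K,
      ∑ j ∈ Icc 1 (JJ c q N), G q N (RR N) / VV {q * j ^ 2} w N ≤
      C2 * Real.log q * √(c / q) * Real.log N ^ 2 := by
    rw [Filter.eventually_all_finset]
    intro q hq
    exact hVG q (hK q hq).1 (hK q hq).2 (hwq q hq) c hc
  filter_upwards [ev2, ev_ok, c5_facts δ b K w hδ hδ1 hK hw] with N hN2 hok hcf
  intro lp dp hE bb
  have h0 : ∑ x ∈ Fam c K N (primorial w) bb, c5 δ w N lp x ≤
      2 * ∑ x ∈ Fam c K N (primorial w) bb, cw w N x := by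
    rw [Finset.mul_sum]
    refine Finset.sum_le_sum fun x hx => ?_
    obtain ⟨hx1, -, -⟩ := mem_Fam.1 hx
    obtain ⟨-, -, -, hj⟩ := hcf lp dp hE x.1 hx1
    exact (hj x.2).2.2.2.1
  have h1 : ∑ x ∈ Fam c K N (primorial w) bb, cw w N x ≤
      C2 * √c * Real.log N ^ 2 * ∑ q ∈ K, Real.log q / √(q : ℝ) := by
    unfold Fam
    rw [Finset.sum_sigma, Finset.mul_sum]
    refine Finset.sum_le_sum fun q hq => ?_
    have h2 : ∑ j ∈ js c q N (primorial w) bb, cw w N ⟨q, j⟩ ≤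
        ∑ j ∈ Icc 1 (JJ c q N), G q N (RR N) / VV {q * j ^ 2} w N := by
      apply Finset.sum_le_sum_of_subset_of_nonneg (Finset.filter_subset _ _)
      intro j _ _
      exact cw_nonneg (by omega) hok ⟨q, j⟩
    refine h2.trans ((hN2 q hq).trans (le_of_eq ?_))
    rw [Real.sqrt_div hc.le]
    ring
  calc _ ≤ 2 * ∑ x ∈ Fam c K N (primorial w) bb, cw w N x := h0
    _ ≤ 2 * (C2 * √c * Real.log N ^ 2 * ∑ q ∈ K, Real.log q / √(q : ℝ)) := by gcongr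
    _ = _ := by ring

theorem sec_u (c δ η : ℝ) (b κ : ℕ) (K : Finset ℕ) (w : ℕ) (hc : 0 < c) (hδ : 0 < δ)
    (hδ1 : δ ≤ 1 / 200) (hη : 0 < η) (hlev : δ * (4 * b + 10) ≤ 1 / 1000) (hκ : 1 ≤ κ)
    (hK : ∀ q ∈ K, q.Prime ∧ q % 4 = 3) (hw : 16 ≤ w) (hwq : ∀ q ∈ K, w < q)
    (C1 C2 : ℝ) (hC1 : 0 < C1) (hC2 : 0 < C2)
    (hpair : ∀ q q' : ℕ, q.Prime → q'.Prime →
      q % 4 = 3 → q' % 4 = 3 → w < q → w < q' → ∀ c : ℝ, 0 < c → ∀ᶠ N : ℕ in atTop, ∀ b : ℕ,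
      ∑ j ∈ js c q N (primorial w) b, ∑ j' ∈ js c q' N (primorial w) b,
      (if q * j ^ 2 = q' * j' ^ 2 then 0 else
        VV {q * j ^ 2, q' * j' ^ 2} w N / (VV {q * j ^ 2} w N * VV {q' * j' ^ 2} w N)) ≤
      (1 + C1 / w) * #(js c q N (primorial w) b) * #(js c q' N (primorial w) b))
    (hVG : ∀ q : ℕ, q.Prime → q % 4 = 3 → w < q →
      ∀ c : ℝ, 0 < c → ∀ᶠ N : ℕ in atTop,
      ∑ j ∈ Icc 1 (JJ c q N), G q N (RR N) / VV {q * j ^ 2} w N ≤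
      C2 * Real.log q * √(c / q) * Real.log N ^ 2)
    (hw9 : C1 / w * (3 / δ) ^ 2 ≤ η / 3)
    (hS : 0 < ∑ q ∈ K, 1 / √(q : ℝ))
    (hKd : 144 * (4 : ℝ) ^ (3 / δ) * C2 * (primorial w) ^ 2 / (√c * η) *
      ∑ q ∈ K, Real.log q / √(q : ℝ) ≤ (∑ q ∈ K, 1 / √(q : ℝ)) ^ 2) :
    ∀ᶠ N : ℕ in atTop, ∀ lp dp : ℕ → Finset ℕ → ℝ, Env δ b N K lp dp →
      (∀ q ∈ K, 0 ≤ WM δ κ N q ∧ WM δ κ N q ≤ 3 / δ) → ∀ a < primorial w, ∀ bb : ℕ,
    ∑ n ∈ NN w N a, (∑ x ∈ Fam c K N (primorial w) bb, uu δ κ w N a lp x n) ^ 2 ≤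
      (N : ℝ) / primorial w * ((∑ x ∈ Fam c K N (primorial w) bb, WM δ κ N x.1) ^ 2 +
        η * (#(Fam c K N (primorial w) bb) : ℝ) ^ 2) := by
  classical
  have hQpos : 0 < primorial w := primorial_pos w
  have hQ0 : (0 : ℝ) < primorial w := by exact_mod_cast hQpos
  have ev1 : ∀ᶠ N : ℕ in atTop, ∀ q ∈ K, ∀ q' ∈ K, ∀ b : ℕ,
      ∑ j ∈ js c q N (primorial w) b, ∑ j' ∈ js c q' N (primorial w) b,
      (if q * j ^ 2 = q' * j' ^ 2 then 0 else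
        VV {q * j ^ 2, q' * j' ^ 2} w N / (VV {q * j ^ 2} w N * VV {q' * j' ^ 2} w N)) ≤
      (1 + C1 / w) * #(js c q N (primorial w) b) * #(js c q' N (primorial w) b) := by
    rw [Filter.eventually_all_finset]
    intro q hq
    rw [Filter.eventually_all_finset]
    intro q' hq'
    exact hpair q q' (hK q hq).1 (hK q' hq').1 (hK q hq).2 (hK q' hq').2 (hwq q hq) (hwq q' hq') c hc
  filter_upwards [ev1, ev_ok, sum_c5 c δ b K w hc hδ hδ1 hK hw hwq C2 hC2 hVG,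
    diag_u c δ b κ K w hc hδ hδ1 hlev hκ hK hw hwq,
    pair_u c δ b κ K w hc hδ hδ1 hlev hκ hK hw hwq,
    card_Fam_ge c hc K (fun q hq => (hK q hq).1) (primorial w) hQpos,
    ev_log_ge (max (primorial w) (12 * (primorial w) / η))] with N hN1 hok hsum hdiag hpr hcard hLm
  intro lp dp hE hmu a ha bb
  have hL1 := hok.hL
  have hL0 : 0 < Real.log N := by linarith
  have hLη : 12 * (primorial w : ℝ) / η ≤ Real.log N := (le_max_right _ _).trans hLm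
  have hN0 : (0 : ℝ) < N := by
    have := hok.hN
    exact_mod_cast (by omega : 0 < N)
  have hs5 := hsum lp dp hE bb
  have hdg := hdiag lp dp hE a ha bb
  have hpu := hpr lp dp hE a ha bb
  have hcd := hcard bb
  clear hsum hdiag hpr hcard
  set F := Fam c K N (primorial w) bb with hF
  set X := (N : ℝ) / (primorial w : ℕ) with hX
  have hX0 : 0 < X := by positivity
  set m := WM δ κ N with hm
  set B := (4 : ℝ) ^ (3 / δ) with hB
  have hB0 : 0 < B := by positivity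
  -- the pair bound
  have hpairb : ∀ x ∈ F, ∀ y ∈ F, ∑ n ∈ NN w N a, uu δ κ w N a lp x n * uu δ κ w N a lp y n ≤
      (if y = x then 6 * B * X * c5 δ w N lp x else 0) +
      X * (if x.1 * x.2 ^ 2 = y.1 * y.2 ^ 2 then 0 else
        VV {x.1 * x.2 ^ 2, y.1 * y.2 ^ 2} w N / (VV {x.1 * x.2 ^ 2} w N * VV {y.1 * y.2 ^ 2} w N) *
          (m x.1 * m y.1)) + 4 * (N / Real.log N ^ 2) := by
    intro x hx y hy
    obtain ⟨hx1, hx2, -⟩ := mem_Fam.1 hx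
    obtain ⟨hy1, hy2, -⟩ := mem_Fam.1 hy
    by_cases hs : x.1 * x.2 ^ 2 = y.1 * y.2 ^ 2
    · obtain ⟨h1, h2⟩ := shift_inj (hK _ hx1).1 (hK _ hy1).1 (Finset.mem_Icc.1 hx2).1
        (Finset.mem_Icc.1 hy2).1 hs
      have hxy : y = x := by
        obtain ⟨x1, x2⟩ := x
        obtain ⟨y1, y2⟩ := y
        simp only at h1 h2
        rw [h1, h2]
      subst hxy
      rw [if_pos rfl, if_pos rfl, mul_zero, add_zero]
      have h3 := hdg y hy
      have h4 : ∑ n ∈ NN w N a, uu δ κ w N a lp y n * uu δ κ w N a lp y n =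
          ∑ n ∈ NN w N a, uu δ κ w N a lp y n ^ 2 :=
        Finset.sum_congr rfl fun n _ => (sq _).symm
      have h7 : 0 ≤ (N : ℝ) / Real.log N ^ 2 := by positivity
      rw [h4]
      linarith
    · have hxy : y ≠ x := by rintro rfl; exact hs rfl
      rw [if_neg hxy, if_neg hs, zero_add]
      have h3 := (abs_le.1 (hpu x hx y hy hs)).2
      linarith
  have hexp : ∑ n ∈ NN w N a, (∑ x ∈ F, uu δ κ w N a lp x n) ^ 2 =
      ∑ x ∈ F, ∑ y ∈ F, ∑ n ∈ NN w N a, uu δ κ w N a lp x n * uu δ κ w N a lp y n := by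
    have : ∀ n ∈ NN w N a, (∑ x ∈ F, uu δ κ w N a lp x n) ^ 2 =
        ∑ x ∈ F, ∑ y ∈ F, uu δ κ w N a lp x n * uu δ κ w N a lp y n := by
      intro n _
      rw [sq, Finset.sum_mul_sum]
    rw [Finset.sum_congr rfl this, Finset.sum_comm]
    refine Finset.sum_congr rfl fun x _ => ?_
    rw [Finset.sum_comm]
  rw [hexp]
  have hbig : ∑ x ∈ F, ∑ y ∈ F, ∑ n ∈ NN w N a, uu δ κ w N a lp x n * uu δ κ w N a lp y n ≤
      6 * B * X * ∑ x ∈ F, c5 δ w N lp x +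
      X * ((1 + C1 / w) * (∑ x ∈ F, m x.1) ^ 2) + (#F : ℝ) ^ 2 * (4 * (N / Real.log N ^ 2)) := by
    calc _ ≤ ∑ x ∈ F, ∑ y ∈ F, ((if y = x then 6 * B * X * c5 δ w N lp x else 0) +
          X * (if x.1 * x.2 ^ 2 = y.1 * y.2 ^ 2 then 0 else
            VV {x.1 * x.2 ^ 2, y.1 * y.2 ^ 2} w N /
              (VV {x.1 * x.2 ^ 2} w N * VV {y.1 * y.2 ^ 2} w N) *
              (m x.1 * m y.1)) + 4 * (N / Real.log N ^ 2)) :=
          Finset.sum_le_sum fun x hx => Finset.sum_le_sum fun y hy => hpairb x hx y hy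
      _ = 6 * B * X * ∑ x ∈ F, c5 δ w N lp x + X * (∑ x ∈ F, ∑ y ∈ F,
          (if x.1 * x.2 ^ 2 = y.1 * y.2 ^ 2 then 0 else
            VV {x.1 * x.2 ^ 2, y.1 * y.2 ^ 2} w N /
              (VV {x.1 * x.2 ^ 2} w N * VV {y.1 * y.2 ^ 2} w N) *
              (m x.1 * m y.1))) + (#F : ℝ) ^ 2 * (4 * (N / Real.log N ^ 2)) := by
          simp_rw [Finset.sum_add_distrib]
          congr 1
          · congr 1
            · rw [Finset.mul_sum]
              refine Finset.sum_congr rfl fun x hx => ?_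
              rw [Finset.sum_ite_eq' F x, if_pos hx]
            · rw [Finset.mul_sum]
              refine Finset.sum_congr rfl fun x hx => ?_
              rw [Finset.mul_sum]
          · simp only [Finset.sum_const, nsmul_eq_mul]
            ring
      _ ≤ _ := by
          gcongr
          exact pair_sum c K N (primorial w) bb m
            (fun k k' => VV {k, k'} w N / (VV {k} w N * VV {k'} w N))
            (1 + C1 / w) (fun q hq => (hmu q hq).1) (fun q hq q' hq' => hN1 q hq q' hq' bb)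
  refine hbig.trans ?_
  -- final numerical estimates
  have hM3 : ∑ x ∈ F, m x.1 ≤ 3 / δ * (#F : ℝ) := by
    calc ∑ x ∈ F, m x.1 ≤ ∑ x ∈ F, (3 / δ : ℝ) :=
          Finset.sum_le_sum fun x hx => (hmu x.1 (mem_Fam.1 hx).1).2
      _ = _ := by rw [Finset.sum_const, nsmul_eq_mul]; ring
  have hM0 : 0 ≤ ∑ x ∈ F, m x.1 :=
    Finset.sum_nonneg fun x hx => (hmu x.1 (mem_Fam.1 hx).1).1
  have hw0 : (0 : ℝ) < w := by exact_mod_cast (by omega : 0 < w)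
  have f1 : C1 / w * (∑ x ∈ F, m x.1) ^ 2 ≤ η / 3 * (#F : ℝ) ^ 2 := by
    calc C1 / w * (∑ x ∈ F, m x.1) ^ 2 ≤ C1 / w * (3 / δ * (#F : ℝ)) ^ 2 := by gcongr
      _ = C1 / w * (3 / δ) ^ 2 * (#F : ℝ) ^ 2 := by ring
      _ ≤ _ := by gcongr
  have f2 : (#F : ℝ) ^ 2 * (4 * (N / Real.log N ^ 2)) ≤ X * (η / 3 * (#F : ℝ) ^ 2) := by
    have h1 : 4 * ((N : ℝ) / Real.log N ^ 2) ≤ X * (η / 3) := by
      rw [hX, div_mul_div_comm, ← mul_div_assoc, div_le_div_iff₀ (by positivity) (by positivity)]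
      have h2 : 12 * (primorial w : ℝ) ≤ Real.log N * η := by
        rw [div_le_iff₀ hη] at hLη
        exact hLη
      have h3 : Real.log N ≤ Real.log N ^ 2 := le_self_pow₀ hL1 (by norm_num)
      have h4 : (primorial w : ℝ) * 12 ≤ η * Real.log N ^ 2 := by nlinarith
      nlinarith
    calc (#F : ℝ) ^ 2 * (4 * (N / Real.log N ^ 2)) ≤ (#F : ℝ) ^ 2 * (X * (η / 3)) := by gcongr
      _ = _ := by ring
  have f3 : 6 * B * X * ∑ x ∈ F, c5 δ w N lp x ≤ X * (η / 3 * (#F : ℝ) ^ 2) := by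
    set S1 := ∑ q ∈ K, 1 / √(q : ℝ)
    set S2 := ∑ q ∈ K, Real.log q / √(q : ℝ)
    have h3 : (√c * Real.log N / (2 * (primorial w : ℝ)) * S1) ^ 2 ≤ (#F : ℝ) ^ 2 := by
      gcongr
    have h4 : c * Real.log N ^ 2 / (4 * (primorial w : ℝ) ^ 2) * S1 ^ 2 ≤ (#F : ℝ) ^ 2 := by
      refine le_trans (le_of_eq ?_) h3
      rw [mul_pow, div_pow, mul_pow, Real.sq_sqrt hc.le]
      ring
    have hsc : 0 < √c := Real.sqrt_pos.2 hc
    have h5 : 144 * B * C2 * (primorial w : ℝ) ^ 2 * S2 ≤ √c * η * S1 ^ 2 := by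
      have := hKd
      rw [div_mul_eq_mul_div, div_le_iff₀ (by positivity)] at this
      linarith
    have h6 : 6 * B * (2 * C2 * √c * Real.log N ^ 2 * S2) ≤
        η / 3 * (c * Real.log N ^ 2 / (4 * (primorial w : ℝ) ^ 2) * S1 ^ 2) := by
      have e1 : η / 3 * (c * Real.log N ^ 2 / (4 * (primorial w : ℝ) ^ 2) * S1 ^ 2) =
          (Real.log N ^ 2 * √c / (12 * (primorial w : ℝ) ^ 2)) * (√c * η * S1 ^ 2) := by
        have : c = √c * √c := (Real.mul_self_sqrt hc.le).symm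
        field_simp
        nlinarith
      have e2 : 6 * B * (2 * C2 * √c * Real.log N ^ 2 * S2) =
          (Real.log N ^ 2 * √c / (12 * (primorial w : ℝ) ^ 2)) *
            (144 * B * C2 * (primorial w : ℝ) ^ 2 * S2) := by
        field_simp
        ring
      rw [e1, e2]
      gcongr
    calc 6 * B * X * ∑ x ∈ F, c5 δ w N lp x
        ≤ 6 * B * X * (2 * C2 * √c * Real.log N ^ 2 * S2) := by gcongr
      _ = X * (6 * B * (2 * C2 * √c * Real.log N ^ 2 * S2)) := by ring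
      _ ≤ X * (η / 3 * (c * Real.log N ^ 2 / (4 * (primorial w : ℝ) ^ 2) * S1 ^ 2)) := by gcongr
      _ ≤ _ := by gcongr
  have f1' : X * (C1 / w * (∑ x ∈ F, m x.1) ^ 2) ≤ X * (η / 3 * (#F : ℝ) ^ 2) := by gcongr
  have e : X * ((1 + C1 / w) * (∑ x ∈ F, m x.1) ^ 2) = X * (∑ x ∈ F, m x.1) ^ 2 +
      X * (C1 / w * (∑ x ∈ F, m x.1) ^ 2) := by ring
  have e' : X * ((∑ x ∈ F, m x.1) ^ 2 + η * (#F : ℝ) ^ 2) = X * (∑ x ∈ F, m x.1) ^ 2 +
      3 * (X * (η / 3 * (#F : ℝ) ^ 2)) := by ring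
  rw [e, e']
  linarith

end Pool.Agent.Work.MP_73869e_nt.P5
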