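import Mathlib
import Pool.Agent.Work.MP_73869e_nt.P5.Sec

set_option autoImplicit false

namespace Pool.Agent.Work.MP_73869e_nt.P5

open Finset Filter Pool.Agent.Work.MP_2dba45_nt.Sel Pool.Agent.Work.MP_73869e_nt.AP

open Classical in
theorem big_x (c δ T : ℝ) (b : ℕ) (K : Finset ℕ) (w : ℕ) (hc : 0 < c) (hδ : 0 < δ)
    (hδ1 : δ ≤ 1 / 200) (hT : 0 < T) (hK : ∀ q ∈ K, q.Prime ∧ q % 4 = 3) (hw : 16 ≤ w)
    (hwq : ∀ q ∈ K, w < q) (C2 : ℝ) (hC2 : 0 < C2)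
    (hVG : ∀ q : ℕ, q.Prime → q % 4 = 3 → w < q →
      ∀ c : ℝ, 0 < c → ∀ᶠ N : ℕ in atTop,
      ∑ j ∈ Icc 1 (JJ c q N), G q N (RR N) / VV {q * j ^ 2} w N ≤
      C2 * Real.log q * √(c / q) * Real.log N ^ 2)
    (hS : 0 < ∑ q ∈ K, 1 / √(q : ℝ)) :
    ∀ᶠ N : ℕ in atTop, ∀ lp dp : ℕ → Finset ℕ → ℝ, Env δ b N K lp dp → ∀ bb : ℕ,
      (#((Fam c K N (primorial w) bb).filter (fun x => T * Real.log N < c5 δ w N lp x)) : ℝ) ≤
        4 * C2 * primorial w * (∑ q ∈ K, Real.log q / √(q : ℝ)) /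
          (T * ∑ q ∈ K, 1 / √(q : ℝ)) * #(Fam c K N (primorial w) bb) := by
  have hQpos : 0 < primorial w := primorial_pos w
  filter_upwards [sum_c5 c δ b K w hc hδ hδ1 hK hw hwq C2 hC2 hVG,
    c5_facts δ b K w hδ hδ1 hK hw,
    card_Fam_ge c hc K (fun q hq => (hK q hq).1) (primorial w) hQpos, ev_log_ge 1]
    with N hsum hcf hcard hlog
  intro lp dp hEnv bb
  set Q := primorial w with hQdef
  have hQ0 : (0 : ℝ) < Q := by exact_mod_cast hQpos
  set S1 : ℝ := ∑ q ∈ K, 1 / √(q : ℝ)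
  set S2 : ℝ := ∑ q ∈ K, Real.log q / √(q : ℝ)
  set F := Fam c K N Q bb with hF
  have hS2 : 0 ≤ S2 := by
    apply Finset.sum_nonneg
    intro q hq
    have hq1 : (1 : ℝ) ≤ q := by exact_mod_cast (hK q hq).1.one_lt.le
    exact div_nonneg (Real.log_nonneg hq1) (Real.sqrt_nonneg _)
  have hL0 : 0 < Real.log N := by linarith
  have hsc : 0 < √c := Real.sqrt_pos.2 hc
  set B := F.filter (fun x => T * Real.log N < c5 δ w N lp x) with hB
  have h1 : (#B : ℝ) * (T * Real.log N) ≤ ∑ x ∈ F, c5 δ w N lp x := by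
    calc (#B : ℝ) * (T * Real.log N) = ∑ x ∈ B, T * Real.log N := by
          rw [Finset.sum_const, nsmul_eq_mul]
      _ ≤ ∑ x ∈ B, c5 δ w N lp x :=
          Finset.sum_le_sum fun x hx => (Finset.mem_filter.1 hx).2.le
      _ ≤ _ := by
          apply Finset.sum_le_sum_of_subset_of_nonneg (Finset.filter_subset _ _)
          intro x hx _
          have := ((hcf lp dp hEnv x.1 (mem_Fam.1 hx).1).2.2.2 x.2).2.2.1
          linarith
  have h2 : ∑ x ∈ F, c5 δ w N lp x ≤ 2 * C2 * √c * Real.log N ^ 2 * S2 := hsum lp dp hEnv bb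
  have h3 : √c * Real.log N / (2 * Q) * S1 ≤ (#F : ℝ) := hcard bb
  have h4 : (#B : ℝ) ≤ 2 * C2 * √c * Real.log N * S2 / T := by
    rw [le_div_iff₀ hT]
    have h5 : (#B : ℝ) * T * Real.log N ≤ 2 * C2 * √c * Real.log N * S2 * Real.log N := by
      calc (#B : ℝ) * T * Real.log N = (#B : ℝ) * (T * Real.log N) := by ring
        _ ≤ 2 * C2 * √c * Real.log N ^ 2 * S2 := h1.trans h2
        _ = _ := by ring
    exact le_of_mul_le_mul_right h5 hL0
  calc (#B : ℝ) ≤ 2 * C2 * √c * Real.log N * S2 / T := h4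
    _ = 4 * C2 * Q * S2 / (T * S1) * (√c * Real.log N / (2 * Q) * S1) := by
        field_simp
        ring
    _ ≤ 4 * C2 * Q * S2 / (T * S1) * #F := by gcongr

end Pool.Agent.Work.MP_73869e_nt.P5
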