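import Mathlib
import Pool.Agent.Work.MP_73869e_nt.P5.C5f
import Pool.Agent.Work.MP_73869e_nt.P5.Comb
import Pool.Agent.Work.MP_73869e_nt.P5.MomL

set_option autoImplicit false

/-!
Module First (size M). First moments. X = N / primorial w. As in AP.tt_sum the sum over NN w N a of
uu x n is c5 x * Σ over n in AA {k} w N a of th * wv (AP.AA_sub).
first_u: th * wv = LS E om (comb), mom_lin, ML E om = ThM * WM, and c5 * VV * ThM = 1; the error is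
c5 N/log^5 N ≤ 2 N/(log N)^(7/2) ≤ N/log^3 N.
first_t: the same with LS E lp (sing_lp; 2/1000 ≤ 497/1000).
first_e: pointwise th x n - (if Ro then 1 else 0) ≤ LS (Psm).powerset dp k n: with B = the p in Psm dividing
n^2+k, LS (Psm).powerset f k n = Σ over d ⊆ B of f d, and Ro ↔ B = ∅ (BHW.up). Sum over AA: sing_dp and
mom_lin: Σ ≤ X VV ML dp + 2 log N * N/log^5 N, ML dp ≤ exp(-b) V0 (BHW.errm), c5 VV V0 ≤ 1, and
c5 * 2 N/log^4 N ≤ 4 N (log N)^(-5/2) ≤ N/log^2 N.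
-/

namespace Pool.Agent.Work.MP_73869e_nt.P5

open Finset Filter Pool.Agent.Work.MP_2dba45_nt.Sel Pool.Agent.Work.MP_73869e_nt.AP

private theorem pw_aux {L A : ℝ} (hA : 0 ≤ A) (hL : A ^ 2 ≤ L) (hL1 : 0 < L) :
    A * L ^ ((3 : ℝ) / 2) ≤ L ^ 2 := by
  have h1 : A ≤ L ^ ((1 : ℝ) / 2) := by
    rw [← Real.sqrt_eq_rpow]
    exact Real.le_sqrt_of_sq_le hL
  calc A * L ^ ((3 : ℝ) / 2) ≤ L ^ ((1 : ℝ) / 2) * L ^ ((3 : ℝ) / 2) := by gcongr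
    _ = L ^ ((2 : ℕ) : ℝ) := by rw [← Real.rpow_add hL1]; norm_num
    _ = L ^ 2 := Real.rpow_natCast _ _

private theorem sum_AA {w N a : ℕ} {κ : Finset ℕ} (c : ℝ) (f : ℕ → ℝ) (h : ∀ n, Decidable (n ∈ AA κ w N a)) :
    ∑ n ∈ NN w N a, c * (@ite ℝ (n ∈ AA κ w N a) (h n) (f n) 0) = c * ∑ n ∈ AA κ w N a, f n := by
  rw [Finset.mul_sum, ← Finset.sum_subset (AA_sub κ w N a)]
  · refine Finset.sum_congr rfl fun n hn => ?_
    rw [if_pos hn]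
  · intro n _ hn
    rw [if_neg hn, mul_zero]

theorem first_u (c δ : ℝ) (b κ : ℕ) (K : Finset ℕ) (w : ℕ) (hc : 0 < c) (hδ : 0 < δ)
    (hδ1 : δ ≤ 1 / 200) (hlev : δ * (4 * b + 10) ≤ 1 / 1000) (hκ : 1 ≤ κ)
    (hK : ∀ q ∈ K, q.Prime ∧ q % 4 = 3) (hw : 16 ≤ w) (hwq : ∀ q ∈ K, w < q) :
    ∀ᶠ N : ℕ in atTop, ∀ lp dp : ℕ → Finset ℕ → ℝ, Env δ b N K lp dp → ∀ a < primorial w,
    ∀ bb : ℕ, ∀ x ∈ Fam c K N (primorial w) bb,
    |∑ n ∈ NN w N a, uu δ κ w N a lp x n - (N : ℝ) / primorial w * WM δ κ N x.1| ≤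
      N / Real.log N ^ 3 := by
  have h1 : ∀ᶠ N : ℕ in atTop, ∀ q ∈ K, ∀ a < primorial w, ∀ j ∈ Icc 1 (JJ c q N),
      ∀ (om : Finset ℕ → ℝ) (E : Finset (Finset ℕ)), (∀ T, |om T| ≤ 1) →
      E ⊆ (PA q N).powerset → (∀ T ∈ E, (prd T : ℝ) ≤ (N : ℝ) ^ ((497 : ℝ) / 1000)) →
      |∑ n ∈ AA {q * j ^ 2} w N a, LS E om (q * j ^ 2) n -
        (N : ℝ) / primorial w * VV {q * j ^ 2} w N * ML E om| ≤ N / Real.log N ^ 5 := by
    rw [Filter.eventually_all_finset]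
    intro q hq
    exact mom_lin q (hK q hq).1 (hK q hq).2 w (by omega) (hwq q hq) c hc
  filter_upwards [h1, comb δ b κ hδ hlev hκ, c5_facts δ b K w hδ hδ1 hK hw, ev_log_ge 4]
    with N hN hcomb hc5 hL4
  intro lp dp henv a ha bb x hx
  obtain ⟨hx1, hx2, -⟩ := mem_Fam.1 hx
  obtain ⟨E, om, hE1, hE2, hE3, hE4, hE5⟩ := hcomb x.1 (lp x.1) (dp x.1) (henv x.1 hx1)
  have h2 := hN x.1 hx1 a ha x.2 hx2 om E hE2 hE1 hE3
  obtain ⟨hV0, hT1, hT2, hj⟩ := hc5 lp dp henv x.1 hx1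
  obtain ⟨hVp, hV1, hc1, -, hc2⟩ := hj x.2
  have hT : 0 < ThM δ N lp x.1 := hV0.trans_le hT1
  have hL0 : 0 < Real.log N := by linarith
  have hsum : ∑ n ∈ NN w N a, uu δ κ w N a lp x n =
      c5 δ w N lp x * ∑ n ∈ AA {x.1 * x.2 ^ 2} w N a, LS E om (x.1 * x.2 ^ 2) n := by
    unfold uu
    rw [sum_AA]
    congr 1
    refine Finset.sum_congr rfl fun n _ => ?_
    rw [hE4]
    rfl
  have e : c5 δ w N lp x * ∑ n ∈ AA {x.1 * x.2 ^ 2} w N a, LS E om (x.1 * x.2 ^ 2) n -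
      (N : ℝ) / primorial w * WM δ κ N x.1 = c5 δ w N lp x *
      (∑ n ∈ AA {x.1 * x.2 ^ 2} w N a, LS E om (x.1 * x.2 ^ 2) n -
      (N : ℝ) / primorial w * VV {x.1 * x.2 ^ 2} w N * ML E om) := by
    rw [mul_sub, hE5]
    congr 1
    show _ = 1 / (VV {x.1 * x.2 ^ 2} w N * ThM δ N lp x.1) * ((N : ℝ) / primorial w *
      VV {x.1 * x.2 ^ 2} w N * (ThM δ N lp x.1 * WM δ κ N x.1))
    field_simp
  have hc0 : 0 ≤ c5 δ w N lp x := le_trans (by norm_num) hc1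
  rw [hsum, e, abs_mul, abs_of_nonneg hc0]
  calc c5 δ w N lp x * _ ≤ (2 * Real.log N ^ ((3 : ℝ) / 2)) * (N / Real.log N ^ 5) :=
        mul_le_mul hc2 h2 (abs_nonneg _) (by positivity)
    _ ≤ Real.log N ^ 2 * (N / Real.log N ^ 5) := by
        gcongr
        exact pw_aux (by norm_num) (by linarith) hL0
    _ = N / Real.log N ^ 3 := by field_simp

theorem first_t (c δ : ℝ) (b : ℕ) (K : Finset ℕ) (w : ℕ) (hc : 0 < c) (hδ : 0 < δ)
    (hδ1 : δ ≤ 1 / 200) (hlev : δ * (4 * b + 10) ≤ 1 / 1000)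
    (hK : ∀ q ∈ K, q.Prime ∧ q % 4 = 3) (hw : 16 ≤ w) (hwq : ∀ q ∈ K, w < q) :
    ∀ᶠ N : ℕ in atTop, ∀ lp dp : ℕ → Finset ℕ → ℝ, Env δ b N K lp dp → ∀ a < primorial w,
    ∀ bb : ℕ, ∀ x ∈ Fam c K N (primorial w) bb,
    |∑ n ∈ NN w N a, t5 δ w N a lp x n - (N : ℝ) / primorial w| ≤ N / Real.log N ^ 3 := by
  have h1 : ∀ᶠ N : ℕ in atTop, ∀ q ∈ K, ∀ a < primorial w, ∀ j ∈ Icc 1 (JJ c q N),
      ∀ (om : Finset ℕ → ℝ) (E : Finset (Finset ℕ)), (∀ T, |om T| ≤ 1) →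
      E ⊆ (PA q N).powerset → (∀ T ∈ E, (prd T : ℝ) ≤ (N : ℝ) ^ ((497 : ℝ) / 1000)) →
      |∑ n ∈ AA {q * j ^ 2} w N a, LS E om (q * j ^ 2) n -
        (N : ℝ) / primorial w * VV {q * j ^ 2} w N * ML E om| ≤ N / Real.log N ^ 5 := by
    rw [Filter.eventually_all_finset]
    intro q hq
    exact mom_lin q (hK q hq).1 (hK q hq).2 w (by omega) (hwq q hq) c hc
  filter_upwards [h1, sing_lp δ b hδ hlev, c5_facts δ b K w hδ hδ1 hK hw, ev_log_ge 4,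
    eventually_ge_atTop 1] with N hN hcomb hc5 hL4 hN1
  intro lp dp henv a ha bb x hx
  obtain ⟨hx1, hx2, -⟩ := mem_Fam.1 hx
  obtain ⟨E, hE1, hE3, hE4, hE5, -⟩ := hcomb x.1 (lp x.1) (dp x.1) (henv x.1 hx1)
  have hE3' : ∀ T ∈ E, (prd T : ℝ) ≤ (N : ℝ) ^ ((497 : ℝ) / 1000) := fun T hT =>
    (hE3 T hT).trans (Real.rpow_le_rpow_of_exponent_le (by exact_mod_cast hN1) (by norm_num))
  have h2 := hN x.1 hx1 a ha x.2 hx2 (lp x.1) E (henv x.1 hx1).lp_le hE1 hE3'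
  obtain ⟨hV0, hT1, hT2, hj⟩ := hc5 lp dp henv x.1 hx1
  obtain ⟨hVp, hV1, hc1, -, hc2⟩ := hj x.2
  have hT : 0 < ThM δ N lp x.1 := hV0.trans_le hT1
  have hL0 : 0 < Real.log N := by linarith
  have hsum : ∑ n ∈ NN w N a, t5 δ w N a lp x n =
      c5 δ w N lp x * ∑ n ∈ AA {x.1 * x.2 ^ 2} w N a, LS E (lp x.1) (x.1 * x.2 ^ 2) n := by
    unfold t5
    rw [sum_AA]
    congr 1
    refine Finset.sum_congr rfl fun n _ => ?_
    rw [hE4]
    rfl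
  have e : c5 δ w N lp x * ∑ n ∈ AA {x.1 * x.2 ^ 2} w N a, LS E (lp x.1) (x.1 * x.2 ^ 2) n -
      (N : ℝ) / primorial w = c5 δ w N lp x *
      (∑ n ∈ AA {x.1 * x.2 ^ 2} w N a, LS E (lp x.1) (x.1 * x.2 ^ 2) n -
      (N : ℝ) / primorial w * VV {x.1 * x.2 ^ 2} w N * ML E (lp x.1)) := by
    rw [mul_sub, hE5]
    congr 1
    show _ = 1 / (VV {x.1 * x.2 ^ 2} w N * ThM δ N lp x.1) * ((N : ℝ) / primorial w *
      VV {x.1 * x.2 ^ 2} w N * ThM δ N lp x.1)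
    field_simp
  have hc0 : 0 ≤ c5 δ w N lp x := le_trans (by norm_num) hc1
  rw [hsum, e, abs_mul, abs_of_nonneg hc0]
  calc c5 δ w N lp x * _ ≤ (2 * Real.log N ^ ((3 : ℝ) / 2)) * (N / Real.log N ^ 5) :=
        mul_le_mul hc2 h2 (abs_nonneg _) (by positivity)
    _ ≤ Real.log N ^ 2 * (N / Real.log N ^ 5) := by
        gcongr
        exact pw_aux (by norm_num) (by linarith) hL0
    _ = N / Real.log N ^ 3 := by field_simp

private theorem LS_filter (P : Finset ℕ) (f : Finset ℕ → ℝ) (k n : ℕ) :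
    LS P.powerset f k n = ∑ d ∈ (P.filter (fun p => p ∣ n ^ 2 + k)).powerset, f d := by
  unfold LS
  rw [← Finset.sum_filter]
  refine Finset.sum_congr ?_ fun _ _ => rfl
  ext d
  rw [Finset.mem_filter, Finset.mem_powerset, Finset.mem_powerset]
  constructor
  · rintro ⟨h1, h2⟩ p hp
    exact Finset.mem_filter.2 ⟨h1 hp, h2 p hp⟩
  · intro h
    exact ⟨fun p hp => (Finset.mem_filter.1 (h hp)).1, fun p hp => (Finset.mem_filter.1 (h hp)).2⟩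

theorem first_e (c δ : ℝ) (b : ℕ) (K : Finset ℕ) (w : ℕ) (hc : 0 < c) (hδ : 0 < δ)
    (hδ1 : δ ≤ 1 / 200) (hlev : δ * (4 * b + 10) ≤ 1 / 1000)
    (hK : ∀ q ∈ K, q.Prime ∧ q % 4 = 3) (hw : 16 ≤ w) (hwq : ∀ q ∈ K, w < q) :
    ∀ᶠ N : ℕ in atTop, ∀ lp dp : ℕ → Finset ℕ → ℝ, Env δ b N K lp dp → ∀ a < primorial w,
    ∀ bb : ℕ, ∀ x ∈ Fam c K N (primorial w) bb,
    ∑ n ∈ NN w N a, ee δ w N a lp x n ≤
      (N : ℝ) / primorial w * Real.exp (-(b : ℝ)) + N / Real.log N ^ 2 := by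
  have h1 : ∀ᶠ N : ℕ in atTop, ∀ q ∈ K, ∀ a < primorial w, ∀ j ∈ Icc 1 (JJ c q N),
      ∀ (om : Finset ℕ → ℝ) (E : Finset (Finset ℕ)), (∀ T, |om T| ≤ 1) →
      E ⊆ (PA q N).powerset → (∀ T ∈ E, (prd T : ℝ) ≤ (N : ℝ) ^ ((497 : ℝ) / 1000)) →
      |∑ n ∈ AA {q * j ^ 2} w N a, LS E om (q * j ^ 2) n -
        (N : ℝ) / primorial w * VV {q * j ^ 2} w N * ML E om| ≤ N / Real.log N ^ 5 := by
    rw [Filter.eventually_all_finset]
    intro q hq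
    exact mom_lin q (hK q hq).1 (hK q hq).2 w (by omega) (hwq q hq) c hc
  filter_upwards [h1, sing_dp δ b hδ hlev, c5_facts δ b K w hδ hδ1 hK hw, ev_log_ge 16,
    eventually_ge_atTop 1] with N hN hcomb hc5 hL4 hN1
  intro lp dp henv a ha bb x hx
  obtain ⟨hx1, hx2, -⟩ := mem_Fam.1 hx
  have hbh := henv x.1 hx1
  obtain ⟨E, om, hE1, hE2, hE3, hE4, hE5⟩ := hcomb x.1 (lp x.1) (dp x.1) hbh
  have hE3' : ∀ T ∈ E, (prd T : ℝ) ≤ (N : ℝ) ^ ((497 : ℝ) / 1000) := fun T hT =>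
    (hE3 T hT).trans (Real.rpow_le_rpow_of_exponent_le (by exact_mod_cast hN1) (by norm_num))
  have h2 := hN x.1 hx1 a ha x.2 hx2 om E hE2 hE1 hE3'
  obtain ⟨hV0, hT1, hT2, hj⟩ := hc5 lp dp henv x.1 hx1
  obtain ⟨hVp, hV1, hc1, -, hc2⟩ := hj x.2
  have hT : 0 < ThM δ N lp x.1 := hV0.trans_le hT1
  have hL0 : 0 < Real.log N := by linarith
  have hc0 : 0 ≤ c5 δ w N lp x := le_trans (by norm_num) hc1
  have hQ0 : (0 : ℝ) < primorial w := by exact_mod_cast primorial_pos w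
  set V := VV {x.1 * x.2 ^ 2} w N with hV
  set X := (N : ℝ) / primorial w with hX
  have hX0 : 0 ≤ X := by positivity
  have hsum : ∑ n ∈ NN w N a, ee δ w N a lp x n ≤
      c5 δ w N lp x * ∑ n ∈ AA {x.1 * x.2 ^ 2} w N a,
        LS (Psm x.1 δ N).powerset (dp x.1) (x.1 * x.2 ^ 2) n := by
    unfold ee
    rw [sum_AA]
    apply mul_le_mul_of_nonneg_left _ hc0
    refine Finset.sum_le_sum fun n _ => ?_
    unfold th
    rw [LS_filter, LS_filter]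
    have h3 := hbh.up _ (Finset.filter_subset (fun p => p ∣ n ^ 2 + x.1 * x.2 ^ 2) (Psm x.1 δ N))
    have h4 : ((Psm x.1 δ N).filter (fun p => p ∣ n ^ 2 + x.1 * x.2 ^ 2) = ∅) ↔ Ro δ N x n := by
      rw [Finset.filter_eq_empty_iff]
      rfl
    by_cases hR : Ro δ N x n
    · rw [if_pos (h4.2 hR)] at h3
      rw [if_pos hR]
      exact h3
    · rw [if_neg (fun h => hR (h4.1 h))] at h3
      rw [if_neg hR]
      exact h3
  refine hsum.trans ?_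
  have h5 : ∑ n ∈ AA {x.1 * x.2 ^ 2} w N a,
      LS (Psm x.1 δ N).powerset (dp x.1) (x.1 * x.2 ^ 2) n =
      2 * Real.log N * ∑ n ∈ AA {x.1 * x.2 ^ 2} w N a, LS E om (x.1 * x.2 ^ 2) n := by
    rw [Finset.mul_sum]
    exact Finset.sum_congr rfl fun n _ => hE4 _ _
  have h6 := (abs_le.1 h2).2
  have h7 : ML (Psm x.1 δ N).powerset (dp x.1) ≤
      Real.exp (-(b : ℝ)) * ∏ p ∈ Psm x.1 δ N, (1 - g p) := hbh.errm
  have h8 : c5 δ w N lp x * V * (ThM δ N lp x.1) = 1 := by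
    show 1 / (V * ThM δ N lp x.1) * V * (ThM δ N lp x.1) = 1
    field_simp
  have h9 : c5 δ w N lp x * V * ML (Psm x.1 δ N).powerset (dp x.1) ≤ Real.exp (-(b : ℝ)) := by
    calc c5 δ w N lp x * V * ML (Psm x.1 δ N).powerset (dp x.1)
        ≤ c5 δ w N lp x * V * (Real.exp (-(b : ℝ)) * ThM δ N lp x.1) := by
          refine mul_le_mul_of_nonneg_left (h7.trans ?_) (by positivity)
          gcongr
      _ = (c5 δ w N lp x * V * ThM δ N lp x.1) * Real.exp (-(b : ℝ)) := by ring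
      _ = _ := by rw [h8, one_mul]
  rw [h5]
  calc c5 δ w N lp x * (2 * Real.log N * ∑ n ∈ AA {x.1 * x.2 ^ 2} w N a,
        LS E om (x.1 * x.2 ^ 2) n)
      ≤ c5 δ w N lp x * (2 * Real.log N * (X * V * ML E om + N / Real.log N ^ 5)) := by
        gcongr
        linarith
    _ = X * (c5 δ w N lp x * V * (2 * Real.log N * ML E om)) +
        c5 δ w N lp x * (2 * (N / Real.log N ^ 4)) := by
        field_simp
    _ ≤ X * Real.exp (-(b : ℝ)) + (2 * Real.log N ^ ((3 : ℝ) / 2)) * (2 * (N / Real.log N ^ 4)) := by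
        rw [← hE5]
        gcongr
    _ = X * Real.exp (-(b : ℝ)) + (4 * Real.log N ^ ((3 : ℝ) / 2)) * (N / Real.log N ^ 4) := by ring
    _ ≤ X * Real.exp (-(b : ℝ)) + Real.log N ^ 2 * (N / Real.log N ^ 4) := by
        gcongr
        exact pw_aux (by norm_num) (by linarith) hL0
    _ = _ := by field_simp

end Pool.Agent.Work.MP_73869e_nt.P5
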