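import Mathlib
import Pool.Agent.Work.MP_73869e_nt.P5.C5f
import Pool.Agent.Work.MP_2dba45_nt.Sv.WWEq
import Pool.Agent.Work.MP_2dba45_nt.Sv.Wt

set_option autoImplicit false

/-!
Module Pt5 (size M). Pointwise inequalities. Put B1 = the p in Psm dividing m = n^2 + k, B2 = the p in Pbg
dividing m. th = Σ over d ⊆ B1 of lp d; BHW.low: th ≥ 0 and th ≥ 1 if B1 = ∅ (that is Ro); BHW.lp_le: th = lp ∅ ≤ 1
if B1 = ∅, so th = 1 then. So 0 ≤ ee, 0 ≤ t5, and Gd → t5 = c5.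
wv = WW (Pbg q δ N) (cost (1000 κ) N) (pw N zE) (pw N yE) (495 κ) (wt5 κ) lam5 (fun T => if T ⊆ B2 then 1 else 0)
by Sv.WW_eq (hypotheses from Sv.lt_pw_iff_cost: zE = (190 κ)/(1000 κ), yE = (450 κ)/(1000 κ); p ∈ Pbg are primes),
and Sv.wt_WW_le bounds it by W* = [no p in Pbg, p < pw N zE, in B2] * (1 - lam5 Σ_{z ≤ p < y, p in B2} wt5), where
wt5 κ (cost p) ≥ 0 for p < pw N yE (as Sv.wt_weight_nonneg: cost ≤ 450 κ). So W* ≤ 1, and if Gd fails then
either n is not in AA (uu = 0), or not Ro (then uu ≤ c5 th max(W*,0) ≤ c5 th = ee), or Ro and W* ≤ 0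
(then uu ≤ 0); if Gd holds uu ≤ c5 * 1 * W* ≤ c5. (lam5 Σ ≥ 1 gives W* ≤ 0.)
-/

namespace Pool.Agent.Work.MP_73869e_nt.P5

open Finset Filter Pool.Agent.Work.MP_2dba45_nt.Sel Pool.Agent.Work.MP_73869e_nt.AP

open Pool.Agent.Work.MP_2dba45_nt.Sv (pw cost)

private theorem LS_filter (P : Finset ℕ) (om : Finset ℕ → ℝ) (k n : ℕ) :
    LS P.powerset om k n = ∑ T ∈ (P.filter (fun p => p ∣ n ^ 2 + k)).powerset, om T := by
  classical
  unfold LS
  rw [← Finset.sum_filter]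
  refine Finset.sum_congr ?_ fun _ _ => rfl
  ext T
  simp only [Finset.mem_filter, Finset.mem_powerset, Finset.subset_iff]
  constructor
  · rintro ⟨h1, h2⟩ p hp
    exact ⟨h1 hp, h2 p hp⟩
  · intro h
    exact ⟨fun p hp => (h hp).1, fun p hp => (h hp).2⟩

private theorem wv_le (δ : ℝ) (κ N : ℕ) (x : (_ : ℕ) × ℕ) (n : ℕ) (hN : 2 ≤ N) (hκ : 1 ≤ κ) :
    wv δ κ N x n ≤ 1 ∧
      (¬ ((∀ p ∈ Pbg x.1 δ N, p < pw N zE → ¬ p ∣ n ^ 2 + x.1 * x.2 ^ 2) ∧
        lam5 * ∑ p ∈ (Pbg x.1 δ N).filter (fun p => pw N zE ≤ p ∧ p < pw N yE ∧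
          p ∣ n ^ 2 + x.1 * x.2 ^ 2), wt5 κ (cost (1000 * κ) N p) < 1) →
        wv δ κ N x n ≤ 0) := by
  classical
  have hκ0 : (0 : ℝ) < κ := by exact_mod_cast hκ
  have hlam : (0 : ℝ) ≤ lam5 := by unfold lam5; norm_num
  obtain ⟨P, hP⟩ : ∃ P, P = Pbg x.1 δ N := ⟨_, rfl⟩
  obtain ⟨k, hk⟩ : ∃ k, k = x.1 * x.2 ^ 2 := ⟨_, rfl⟩
  have hPp : ∀ p ∈ P, 1 ≤ p := by
    intro p hp
    rw [hP] at hp
    unfold Pbg PA at hp
    exact (Finset.mem_filter.1 (Finset.mem_filter.1 hp).1).2.1.pos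
  have hz : ∀ p ∈ P, (p < pw N zE ↔ cost (1000 * κ) N p ≤ 190 * κ) := by
    intro p hp
    rw [← Pool.Agent.Work.MP_2dba45_nt.Sv.lt_pw_iff_cost (1000 * κ) N p (190 * κ) (by omega) hN
      (hPp p hp)]
    have h1 : zE = ((190 * κ : ℕ) : ℝ) / ((1000 * κ : ℕ) : ℝ) := by
      unfold zE
      push_cast
      field_simp
      norm_num
    rw [h1]
  have hy : ∀ p ∈ P, (p < pw N yE ↔ cost (1000 * κ) N p ≤ 450 * κ) := by
    intro p hp
    rw [← Pool.Agent.Work.MP_2dba45_nt.Sv.lt_pw_iff_cost (1000 * κ) N p (450 * κ) (by omega) hN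
      (hPp p hp)]
    have h1 : yE = ((450 * κ : ℕ) : ℝ) / ((1000 * κ : ℕ) : ℝ) := by
      unfold yE
      push_cast
      field_simp
      norm_num
    rw [h1]
  have hN1 : (1 : ℝ) ≤ N := by exact_mod_cast (by omega : 1 ≤ N)
  have hzy : pw N zE ≤ pw N yE := by
    unfold pw
    apply Nat.ceil_mono
    apply Real.rpow_le_rpow_of_exponent_le hN1
    unfold zE yE
    norm_num
  have hw : ∀ p ∈ P, p < pw N yE → 0 ≤ wt5 κ (cost (1000 * κ) N p) := by
    intro p hp hpy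
    have h2 := (hy p hp).1 hpy
    have h3 : ((cost (1000 * κ) N p : ℕ) : ℝ) ≤ 450 * κ := by exact_mod_cast h2
    unfold wt5
    have h4 : ((cost (1000 * κ) N p : ℝ) - 1) / (450 * κ) ≤ 1 := by
      rw [div_le_one (by positivity)]
      linarith
    linarith
  obtain ⟨B, hB⟩ : ∃ B, B = P.filter (fun p => p ∣ n ^ 2 + k) := ⟨_, rfl⟩
  have hBm : ∀ p ∈ P, (p ∈ B ↔ p ∣ n ^ 2 + k) := by
    intro p hp
    rw [hB, Finset.mem_filter]
    exact ⟨fun h => h.2, fun h => ⟨hp, h⟩⟩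
  have hwv : wv δ κ N x n = Pool.Agent.Work.MP_2dba45_nt.Sv.WW P (cost (1000 * κ) N) (pw N zE)
      (pw N yE) (495 * κ) (wt5 κ) lam5 (fun T => if T ⊆ B then 1 else 0) := by
    rw [Pool.Agent.Work.MP_2dba45_nt.Sv.WW_eq P (cost (1000 * κ) N) (pw N zE) (pw N yE)
      (495 * κ) (wt5 κ) lam5 (190 * κ) (450 * κ) hz hy hzy]
    unfold wv LS
    rw [← hP, ← hk]
    refine Finset.sum_congr rfl fun T hT => ?_
    rw [Finset.mem_powerset] at hT
    have h1 : (∀ p ∈ T, p ∣ n ^ 2 + k) ↔ T ⊆ B :=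
      ⟨fun h p hp => (hBm p (hT hp)).2 (h p hp), fun h p hp => (hBm p (hT hp)).1 (h hp)⟩
    unfold ph
    by_cases h2 : T ⊆ B
    · rw [if_pos (h1.2 h2), if_pos h2, mul_one]
    · rw [if_neg (fun h => h2 (h1.1 h)), if_neg h2, mul_zero]
  have hle := Pool.Agent.Work.MP_2dba45_nt.Sv.wt_WW_le P (cost (1000 * κ) N) (pw N zE)
    (pw N yE) (495 * κ) (wt5 κ) lam5 hlam B hw
  rw [← hwv] at hle
  have hsum : ∑ p ∈ P.filter (fun p => pw N zE ≤ p ∧ p < pw N yE),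
      (if p ∈ B then wt5 κ (cost (1000 * κ) N p) else 0) =
      ∑ p ∈ P.filter (fun p => pw N zE ≤ p ∧ p < pw N yE ∧ p ∣ n ^ 2 + k),
        wt5 κ (cost (1000 * κ) N p) := by
    rw [← Finset.sum_filter, Finset.filter_filter]
    refine Finset.sum_congr ?_ fun _ _ => rfl
    ext p
    simp only [Finset.mem_filter]
    constructor
    · rintro ⟨h1, ⟨h2, h3⟩, h4⟩
      exact ⟨h1, h2, h3, (hBm p h1).1 h4⟩
    · rintro ⟨h1, h2, h3, h4⟩
      exact ⟨h1, ⟨h2, h3⟩, (hBm p h1).2 h4⟩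
  have hnn : 0 ≤ ∑ p ∈ P.filter (fun p => pw N zE ≤ p ∧ p < pw N yE ∧ p ∣ n ^ 2 + k),
      wt5 κ (cost (1000 * κ) N p) := by
    refine Finset.sum_nonneg fun p hp => ?_
    rw [Finset.mem_filter] at hp
    exact hw p hp.1 hp.2.2.1
  rw [hsum] at hle
  have hnn' := mul_nonneg hlam hnn
  rw [← hP, ← hk]
  by_cases hI : ∀ p ∈ P, p < pw N zE → p ∉ B
  · rw [if_pos hI, one_mul] at hle
    refine ⟨by linarith, fun hnot => ?_⟩
    have h1 : ¬ (lam5 * ∑ p ∈ P.filter (fun p => pw N zE ≤ p ∧ p < pw N yE ∧ p ∣ n ^ 2 + k),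
        wt5 κ (cost (1000 * κ) N p) < 1) := by
      intro h
      apply hnot
      refine ⟨fun p hp hpz hd => ?_, h⟩
      exact hI p hp hpz ((hBm p hp).2 hd)
    linarith
  · rw [if_neg hI, zero_mul] at hle
    exact ⟨by linarith, fun _ => hle⟩

open Classical in
theorem pt5 (c δ : ℝ) (b κ : ℕ) (K : Finset ℕ) (w : ℕ) (hc : 0 < c) (hδ : 0 < δ)
    (hδ1 : δ ≤ 1 / 200) (hκ : 1 ≤ κ)
    (hK : ∀ q ∈ K, q.Prime ∧ q % 4 = 3) (hw : 16 ≤ w) :
    ∀ᶠ N : ℕ in atTop, ∀ lp dp : ℕ → Finset ℕ → ℝ, Env δ b N K lp dp → ∀ a : ℕ,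
    ∀ bb : ℕ, ∀ x ∈ Fam c K N (primorial w) bb, ∀ n : ℕ,
      uu δ κ w N a lp x n ≤ (if Gd δ κ w N a x n then c5 δ w N lp x else 0) + ee δ w N a lp x n ∧
      0 ≤ ee δ w N a lp x n ∧ 0 ≤ t5 δ w N a lp x n ∧
      (Gd δ κ w N a x n → c5 δ w N lp x ≤ t5 δ w N a lp x n) := by
  filter_upwards [c5_facts δ b K w hδ hδ1 hK hw, eventually_ge_atTop 2] with N hC hN lp dp hE a
    bb x hx n
  obtain ⟨hxK, -, -⟩ := mem_Fam.1 hx
  have hBH := hE x.1 hxK
  obtain ⟨-, -, -, hC4⟩ := hC lp dp hE x.1 hxK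
  obtain ⟨-, -, hc5, -, -⟩ := hC4 x.2
  have hc5' : 1 / 2 ≤ c5 δ w N lp x := hc5
  have hc0 : 0 < c5 δ w N lp x := by linarith
  obtain ⟨hW1, hW0⟩ := wv_le δ κ N x n hN hκ
  -- the small primes
  have hth : th δ N lp x n = ∑ T ∈ ((Psm x.1 δ N).filter
      (fun p => p ∣ n ^ 2 + x.1 * x.2 ^ 2)).powerset, lp x.1 T := by
    unfold th
    exact LS_filter _ _ _ _
  have hlow := hBH.low _ (Finset.filter_subset (fun p => p ∣ n ^ 2 + x.1 * x.2 ^ 2)
    (Psm x.1 δ N))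
  rw [← hth] at hlow
  have hRo : Ro δ N x n ↔ (Psm x.1 δ N).filter (fun p => p ∣ n ^ 2 + x.1 * x.2 ^ 2) = ∅ := by
    rw [Finset.filter_eq_empty_iff]
    unfold Ro
    exact Iff.rfl
  have hth0 : 0 ≤ th δ N lp x n := by
    refine le_trans ?_ hlow
    split_ifs <;> norm_num
  have hth1 : Ro δ N x n → th δ N lp x n = 1 := by
    intro h
    have h1 := hRo.1 h
    rw [if_pos h1] at hlow
    refine le_antisymm ?_ hlow
    rw [hth, h1, Finset.powerset_empty, Finset.sum_singleton]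
    exact (le_abs_self _).trans (hBH.lp_le ∅)
  have hee : 0 ≤ ee δ w N a lp x n := by
    unfold ee
    refine mul_nonneg hc0.le ?_
    split_ifs with h1 h2
    · rw [hth1 h2]; norm_num
    · rw [sub_zero]; exact hth0
    · exact le_rfl
  have ht5 : 0 ≤ t5 δ w N a lp x n := by
    unfold t5
    refine mul_nonneg hc0.le ?_
    split_ifs
    · exact hth0
    · exact le_rfl
  refine ⟨?_, hee, ht5, ?_⟩
  · by_cases hA : n ∈ AA {x.1 * x.2 ^ 2} w N a
    · have huu : uu δ κ w N a lp x n = c5 δ w N lp x * (th δ N lp x n * wv δ κ N x n) := by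
        unfold uu
        rw [if_pos hA]
      by_cases hR : Ro δ N x n
      · rw [huu, hth1 hR, one_mul]
        by_cases hG : Gd δ κ w N a x n
        · rw [if_pos hG]
          have h1 := mul_le_mul_of_nonneg_left hW1 hc0.le
          linarith
        · rw [if_neg hG]
          have h1 : wv δ κ N x n ≤ 0 := hW0 fun h => hG ⟨hA, hR, h.1, h.2⟩
          have h2 := mul_le_mul_of_nonneg_left h1 hc0.le
          rw [mul_zero] at h2
          linarith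
      · have hG : ¬ Gd δ κ w N a x n := fun h => hR h.2.1
        have heq : ee δ w N a lp x n = c5 δ w N lp x * th δ N lp x n := by
          unfold ee
          rw [if_pos hA, if_neg hR, sub_zero]
        rw [if_neg hG, huu, heq, zero_add]
        refine mul_le_mul_of_nonneg_left ?_ hc0.le
        have h1 := mul_le_mul_of_nonneg_left hW1 hth0
        rwa [mul_one] at h1
    · have hG : ¬ Gd δ κ w N a x n := fun h => hA h.1
      have huu : uu δ κ w N a lp x n = 0 := by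
        unfold uu
        rw [if_neg hA, mul_zero]
      rw [huu, if_neg hG, zero_add]
      exact hee
  · intro hG
    have heq : t5 δ w N a lp x n = c5 δ w N lp x := by
      unfold t5
      rw [if_pos hG.1, hth1 hG.2.1, mul_one]
    rw [heq]

end Pool.Agent.Work.MP_73869e_nt.P5
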