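import Mathlib
import Pool.Agent.Work.MP_73869e_nt.P5.WMb
import Pool.Agent.Work.MP_73869e_nt.P5.EnvE
import Pool.Agent.Work.MP_73869e_nt.P5.First
import Pool.Agent.Work.MP_73869e_nt.P5.Sec
import Pool.Agent.Work.MP_73869e_nt.P5.Big
import Pool.Agent.Work.MP_73869e_nt.P5.Pt5
import Pool.Agent.Work.MP_73869e_nt.P5.Abs5
import Pool.Agent.Work.MP_73869e_nt.AP.Cls2

set_option autoImplicit false

namespace Pool.Agent.Work.MP_73869e_nt.P5

open Finset Filter Pool.Agent.Work.MP_73869e_nt.AP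

private theorem ev_small2 (η : ℝ) (hη : 0 < η) (Q : ℕ) (hQ : 0 < Q) : ∀ᶠ N : ℕ in atTop,
    (N : ℝ) / Real.log N ^ 2 ≤ η * ((N : ℝ) / Q) := by
  filter_upwards [ev_log_ge (max 1 (Q / η))] with N hN
  have hL1 : 1 ≤ Real.log N := (le_max_left _ _).trans hN
  have hL2 : Q / η ≤ Real.log N := (le_max_right _ _).trans hN
  have hQ0 : (0 : ℝ) < Q := by exact_mod_cast hQ
  have hL0 : 0 < Real.log N := by linarith
  have h1 : (Q : ℝ) ≤ η * Real.log N ^ 2 := by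
    have h2 : (Q : ℝ) ≤ Real.log N * η := by rwa [div_le_iff₀ hη] at hL2
    have h3 : Real.log N ≤ Real.log N ^ 2 := le_self_pow₀ hL1 (by norm_num)
    nlinarith
  rw [div_le_iff₀ (by positivity)]
  have hN0 : (0 : ℝ) ≤ N := by positivity
  calc (N : ℝ) = N / Q * Q := by field_simp
    _ ≤ N / Q * (η * Real.log N ^ 2) := by gcongr
    _ = _ := by ring

open Classical in
theorem class5 (c ε : ℝ) (hc : 0 < c) (hε : 0 < ε) (kk : ℕ) :
    ∃ (δ : ℝ) (κ : ℕ) (K : Finset ℕ) (w : ℕ), 0 < δ ∧ δ ≤ 1 / 200 ∧ 1 ≤ κ ∧ 16 ≤ w ∧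
      (∀ q ∈ K, q.Prime ∧ q % 4 = 3 ∧ w < q) ∧
      ∀ᶠ N : ℕ in atTop, ∀ a < primorial w,
        (#((NN w N a).filter (fun n => #((Fam c K N (primorial w)
          (primorial w / Nat.gcd a (primorial w))).filter (fun x => Gd δ κ w N a x n)) < kk)) : ℝ) ≤
        ε / 2 * ((N : ℝ) / primorial w) := by
  obtain ⟨c₁, hc₁, hWM⟩ := WM_bounds
  obtain ⟨b₀, henv⟩ := env_ev
  obtain ⟨C1, hC1, hpair⟩ := pair_avg
  obtain ⟨C2, hC2, hVG⟩ := VG_bound
  obtain ⟨δ, b, hδ, hδ1, hb, hlev, hexp⟩ := par5 (ε * c₁ / 192) (by positivity) b₀ (1 / 200)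
    (by norm_num)
  obtain ⟨k₀, hk₀⟩ := hWM δ hδ (by linarith)
  set κ : ℕ := max k₀ 1 with hκdef
  have hκ : 1 ≤ κ := le_max_right _ _
  set m0 : ℝ := c₁ * δ with hm0def
  have hm0 : 0 < m0 := by positivity
  set ex : ℝ := Real.exp (-(b : ℝ)) with hexdef
  have hex : 0 < ex := Real.exp_pos _
  set β : ℝ := 2 * ex with hβdef
  have hβ : 0 < β := by positivity
  have hβm : 24 * β / m0 ≤ ε / 4 := by
    rw [div_le_iff₀ hm0, hβdef, hm0def]
    nlinarith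
  set η : ℝ := ε / (16 * (1 + 1 / m0) ^ 2) with hηdef
  have h1m : 0 < 1 + 1 / m0 := by positivity
  have hη : 0 < η := by positivity
  have hηm : 4 * η * (1 + 1 / m0) ^ 2 = ε / 4 := by
    rw [hηdef]
    field_simp
    ring
  set w : ℕ := max 16 ⌈3 * C1 * (3 / δ) ^ 2 / η⌉₊ with hwdef
  have hw : 16 ≤ w := le_max_left _ _
  have hw0 : (0 : ℝ) < w := by exact_mod_cast (by omega : 0 < w)
  have hw9 : C1 / w * (3 / δ) ^ 2 ≤ η / 3 := by
    have h1 : 3 * C1 * (3 / δ) ^ 2 / η ≤ w := by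
      calc 3 * C1 * (3 / δ) ^ 2 / η ≤ (⌈3 * C1 * (3 / δ) ^ 2 / η⌉₊ : ℝ) := Nat.le_ceil _
        _ ≤ w := by exact_mod_cast le_max_right _ _
    rw [div_le_iff₀ hη] at h1
    rw [div_mul_eq_mul_div, div_le_div_iff₀ hw0 (by norm_num)]
    linarith
  set Q := primorial w with hQdef
  have hQpos : 0 < Q := primorial_pos w
  have hQ0 : (0 : ℝ) < Q := by exact_mod_cast hQpos
  have hsc : 0 < √c := Real.sqrt_pos.2 hc
  set A : ℝ := (4 : ℝ) ^ (3 / δ) with hAdef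
  have hA : 0 < A := by positivity
  set Ta : ℝ := 144 * A * C2 * (Q : ℝ) ^ 2 / (√c * η) with hTa
  set Tb : ℝ := 32 * kk * C2 * (Q : ℝ) ^ 2 / (β * m0 * √c) with hTb
  have hTa0 : 0 ≤ Ta := by positivity
  have hTb0 : 0 ≤ Tb := by positivity
  obtain ⟨K, hKall, hS, hKd⟩ := choose_K w (Ta + Tb)
  have hK : ∀ q ∈ K, q.Prime ∧ q % 4 = 3 := fun q hq => ⟨(hKall q hq).1, (hKall q hq).2.1⟩
  have hwq : ∀ q ∈ K, w < q := fun q hq => (hKall q hq).2.2
  have hq2 : ∀ q ∈ K, q ≠ 2 := by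
    rintro q hq rfl
    have := (hK 2 hq).2
    norm_num at this
  set S1 : ℝ := ∑ q ∈ K, 1 / √(q : ℝ) with hS1def
  set S2 : ℝ := ∑ q ∈ K, Real.log q / √(q : ℝ) with hS2def
  have hKne : K.Nonempty := by
    rw [Finset.nonempty_iff_ne_empty]
    intro h0
    rw [h0, Finset.sum_empty] at hS1def
    linarith
  have hS2 : 0 < S2 := by
    apply Finset.sum_pos _ hKne
    intro q hq
    have hq1 : (1 : ℝ) < q := by exact_mod_cast (hK q hq).1.one_lt
    exact div_pos (Real.log_pos hq1) (Real.sqrt_pos.2 (by linarith))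
  have hKa : Ta * S2 ≤ S1 ^ 2 := le_trans (by nlinarith [mul_nonneg hTb0 hS2.le]) hKd
  have hKb : Tb * S2 ≤ S1 ^ 2 := le_trans (by nlinarith [mul_nonneg hTa0 hS2.le]) hKd
  set T : ℝ := 4 * C2 * Q * S2 / (β * S1) with hTdef
  have hT : 0 < T := by positivity
  refine ⟨δ, κ, K, w, hδ, hδ1, hκ, hw, hKall, ?_⟩
  have evWM : ∀ᶠ N : ℕ in atTop, ∀ q ∈ K, c₁ * δ ≤ WM δ κ N q ∧ WM δ κ N q ≤ 3 / δ := by
    rw [Filter.eventually_all_finset]
    exact fun q hq => hk₀ κ (le_max_left _ _) q (hK q hq).1 (hq2 q hq)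
  have hVG' : ∀ q : ℕ, q.Prime → q % 4 = 3 → w < q →
      ∀ c : ℝ, 0 < c → ∀ᶠ N : ℕ in atTop,
      ∑ j ∈ Icc 1 (JJ c q N), G q N (RR N) / VV {q * j ^ 2} w N ≤
      C2 * Real.log q * √(c / q) * Real.log N ^ 2 :=
    fun q hq hq4 hwq => hVG q hq hq4 w (by omega) hwq
  filter_upwards [henv b hb δ hδ K, evWM, first_u c δ b κ K w hc hδ hδ1 hlev hκ hK hw hwq,
    first_t c δ b K w hc hδ hδ1 hlev hK hw hwq, first_e c δ b K w hc hδ hδ1 hlev hK hw hwq,
    sec_u c δ η b κ K w hc hδ hδ1 hη hlev hκ hK hw hwq C1 C2 hC1 hC2 (hpair w hw) hVG' hw9 hS hKa,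
    big_x c δ T b K w hc hδ hδ1 hT hK hw hwq C2 hC2 hVG' hS,
    pt5 c δ b κ K w hc hδ hδ1 hκ hK hw, c5_facts δ b K w hδ hδ1 hK hw,
    card_Fam_ge c hc K (fun q hq => (hK q hq).1) Q hQpos, ev_small η hη Q hQpos,
    ev_small 1 one_pos Q hQpos, ev_small2 ex hex Q hQpos, ev_log_ge 1,
    eventually_ge_atTop (⌈2 * (Q : ℝ) / η⌉₊ + 1)]
    with N hE hWMN hfu hft hfe hsu hbx hpt hcf hcard hs3 hs31 hs2 hlog1 hNbig
  obtain ⟨lp, dp, hEnv⟩ := hE
  intro a ha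
  set bb := Q / Nat.gcd a Q with hbb
  set F := Fam c K N Q bb with hF
  set X := (N : ℝ) / Q with hX
  have hN0 : (0 : ℝ) < N := by
    exact_mod_cast (by omega : 0 < N)
  have hX0 : 0 < X := by positivity
  have hlog0 : 0 < Real.log N := by linarith
  have hFm : ∀ x ∈ F, x.1 ∈ K := fun x hx => (mem_Fam.1 hx).1
  have hcardb : √c * Real.log N / (2 * Q) * S1 ≤ (#F : ℝ) := hcard bb
  have hF0 : (0 : ℝ) < #F := lt_of_lt_of_le (by positivity) hcardb
  have hNN : (#(NN w N a) : ℝ) ≤ (1 + η) * X := by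
    have h5 := card_NN w N a ha
    have h6 : 2 ≤ η * X := by
      have h7 : 2 * (Q : ℝ) / η ≤ N := by
        calc 2 * (Q : ℝ) / η ≤ (⌈2 * (Q : ℝ) / η⌉₊ : ℝ) := Nat.le_ceil _
          _ ≤ N := by
              have : ⌈2 * (Q : ℝ) / η⌉₊ ≤ N := by omega
              exact_mod_cast this
      rw [div_le_iff₀ hη] at h7
      rw [hX, mul_div_assoc', le_div_iff₀ hQ0]
      linarith
    have e : (N : ℝ) / primorial w = X := rfl
    rw [e] at h5
    linarith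
  have h3 := abs5 (NN w N a) F X η m0 β (ε / 2) (T * Real.log N)
    (uu δ κ w N a lp) (ee δ w N a lp) (t5 δ w N a lp) (c5 δ w N lp) (fun x => WM δ κ N x.1)
    (fun x n => Gd δ κ w N a x n) kk hX0 (by exact_mod_cast hF0) hη.le hm0 hβ.le (by positivity)
    hNN (fun x hx => (hWMN x.1 (hFm x hx)).1) ?_ ?_ ?_ ?_ ?_ ?_ ?_ ?_ ?_ ?_ ?_ ?_
  · exact h3
  · -- first moment of u
    intro x hx
    have h4 := (abs_le.1 (hfu lp dp hEnv a ha bb x hx)).1
    have e1 : (WM δ κ N x.1 - η) * X = X * WM δ κ N x.1 - η * X := by ring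
    simp only [e1]
    linarith
  · exact hsu lp dp hEnv (fun q hq => ⟨(mul_pos hc₁ hδ).le.trans (hWMN q hq).1, (hWMN q hq).2⟩) a ha bb
  · exact fun x hx n _ => (hpt lp dp hEnv a bb x hx n).2.1
  · intro x hx
    have h4 := hfe lp dp hEnv a ha bb x hx
    have e0 : Real.exp (-(b : ℝ)) = ex := rfl
    simp only [e0] at h4
    have e2 : β * X = X * ex + ex * X := by rw [hβdef]; ring
    rw [e2]
    linarith
  · exact fun x hx n _ => (hpt lp dp hEnv a bb x hx n).2.2.1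
  · intro x hx
    have h4 := (abs_le.1 (hft lp dp hEnv a ha bb x hx)).2
    linarith
  · exact fun x hx n _ => (hpt lp dp hEnv a bb x hx n).1
  · exact fun x hx n _ h => (hpt lp dp hEnv a bb x hx n).2.2.2 h
  · intro x hx
    have h4 := ((hcf lp dp hEnv x.1 (hFm x hx)).2.2.2 x.2).2.2.1
    linarith
  · have h4 := hbx lp dp hEnv bb
    refine h4.trans (le_of_eq ?_)
    have e3 : 4 * C2 * (Q : ℝ) * S2 / (T * S1) = β := by
      rw [hTdef]
      field_simp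
    rw [e3]
  · -- kk T log N ≤ m0/4 #F
    have h5 : (kk : ℝ) * T ≤ m0 / 4 * (√c / (2 * Q) * S1) := by
      have h6 : Tb * S2 ≤ S1 * S1 := by rw [← sq]; exact hKb
      have e4 : (kk : ℝ) * T = Tb * S2 / S1 * (m0 / 4 * (√c / (2 * Q))) := by
        rw [hTdef, hTb]
        field_simp
        ring
      rw [e4]
      have h7 : Tb * S2 / S1 ≤ S1 := by rw [div_le_iff₀ hS]; exact h6
      calc Tb * S2 / S1 * (m0 / 4 * (√c / (2 * Q))) ≤ S1 * (m0 / 4 * (√c / (2 * Q))) := by gcongr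
        _ = _ := by ring
    calc (kk : ℝ) * (T * Real.log N) = kk * T * Real.log N := by ring
      _ ≤ m0 / 4 * (√c / (2 * Q) * S1) * Real.log N := by gcongr
      _ = m0 / 4 * (√c * Real.log N / (2 * Q) * S1) := by ring
      _ ≤ m0 / 4 * #F := by gcongr
  · rw [hηm]
    linarith

end Pool.Agent.Work.MP_73869e_nt.P5
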