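import Mathlib
import Pool.Agent.Work.MP_73869e_nt.P5.Cls5
import Pool.Agent.Work.MP_73869e_nt.P5.Sq5
import Pool.Agent.Work.MP_73869e_nt.P5.Om5
import Pool.Agent.Work.MP_73869e_nt.AP.Dyad

set_option autoImplicit false

/-!
Module Dy5 (size M, a port of AP/Dyad.lean). dyadic5: n is exceptional only if it lies in the set of
sq_count5 (ε/2) or, with a = n % Q, in the set of class5. Otherwise at least kk of the x in Fam satisfy
Gd; the shifts x.1 * x.2^2 are distinct (AP.shift_inj), ≤ c log^2 N (AP.jj_bound), and for each of them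
every prime p | n^2 + k is ≥ pw N zE: p ≤ w by AP.cop_small, w < p ≤ zN N by n ∈ AA, and for zN N < p < pw N zE ≤ N
p ∈ PA (AP.jac_of_dvd, AP.ev_shift_lt as in AP.dyadic), so p ∈ Psm (Ro) or p ∈ Pbg (third part of Gd). The
sum over the prime factors below pw N yE of wt5 is at most the sum in Gd (wt5 ≥ 0 there), so om5 applies.
almost_all5: from_dyadic (AP) with kk fixed; m = n^2 + k, and n^(9/50) ≤ (2N)^(9/50) < N^(19/100) ≤ pw N zE ≤ p.
-/

namespace Pool.Agent.Work.MP_73869e_nt.P5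

open Finset Filter Pool.Agent.Work.MP_73869e_nt.AP
open Pool.Agent.Work.MP_2dba45_nt.Sv (pw)

/-- conclusion for `n` at scale `N` -/
def Nice5 (c : ℝ) (kk N n : ℕ) : Prop :=
  kk ≤ Set.ncard {k : ℕ | 0 < k ∧ (k : ℝ) ≤ c * Real.log N ^ 2 ∧
    ArithmeticFunction.cardFactors (n ^ 2 + k) ≤ 5 ∧
    ∀ p : ℕ, p.Prime → p ∣ n ^ 2 + k → pw N zE ≤ p}

open Classical in
theorem dyadic5 (c ε : ℝ) (hc : 0 < c) (hε : 0 < ε) (kk : ℕ) : ∀ᶠ N : ℕ in atTop,
    (#((Ioc N (2 * N)).filter (fun n => ¬ Nice5 c kk N n)) : ℝ) ≤ ε * N := by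
  obtain ⟨δ, κ, K, w, hδ, hδ1, hκ, hw, hKall, hcls⟩ := class5 c ε hc hε kk
  set Q := primorial w with hQdef
  have hQpos : 0 < Q := primorial_pos w
  have hQ0 : (0 : ℝ) < Q := by exact_mod_cast hQpos
  have evs : ∀ᶠ N : ℕ in atTop, ∀ q ∈ K, ∀ j ∈ Icc 1 (JJ c q N),
      q * j ^ 2 < zN N ∧ j < zN N ∧ q < zN N := by
    rw [Filter.eventually_all_finset]
    exact fun q hq => ev_shift_lt c hc q (hKall q hq).1.pos
  filter_upwards [hcls, evs, sq_count5 c (ε / 2) hc (by positivity) K (fun q hq => (hKall q hq).1),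
    om5 c hc κ hκ, ev_ok, ev_zN_ge (w + 3)] with N hclsN hs hsq hom hok hzw
  have hN2 : 2 ≤ N := by have := hok.hN; omega
  have hN1 : (1 : ℝ) ≤ N := by exact_mod_cast (by omega : 1 ≤ N)
  have hN0 : (0 : ℝ) < N := by linarith
  have hzw' : w + 3 ≤ zN N := by exact_mod_cast hzw
  have hpwN : ∀ v : ℝ, v ≤ 1 → ∀ p : ℕ, p < pw N v → p < N := by
    intro v hv p hp
    rw [Pool.Agent.Work.MP_2dba45_nt.Sv.lt_pw_iff] at hp
    have h1 : (N : ℝ) ^ v ≤ (N : ℝ) ^ (1 : ℝ) := Real.rpow_le_rpow_of_exponent_le hN1 hv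
    rw [Real.rpow_one] at h1
    exact_mod_cast hp.trans_le h1
  have hpwδ : pw N δ ≤ pw N zE := by
    unfold pw
    apply Nat.ceil_mono
    apply Real.rpow_le_rpow_of_exponent_le hN1
    unfold zE
    linarith
  set Sq := (Ioc N (2 * N)).filter (fun n => ∃ q ∈ K, ∃ j ∈ Icc 1 (JJ c q N), ∃ p : ℕ, p.Prime ∧
      pw N zE ≤ p ∧ p < pw N yE ∧ p ^ 2 ∣ n ^ 2 + q * j ^ 2) with hSq
  have hsub : (Ioc N (2 * N)).filter (fun n => ¬ Nice5 c kk N n) ⊆
      Sq ∪ (range Q).biUnion (fun a => (NN w N a).filter (fun n => #((Fam c K N Q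
          (Q / Nat.gcd a Q)).filter (fun x => Gd δ κ w N a x n)) < kk)) := by
    intro n hn
    rw [Finset.mem_filter] at hn
    by_contra hcon
    rw [Finset.mem_union, not_or] at hcon
    obtain ⟨hnS, hnC⟩ := hcon
    set F := (Fam c K N Q (Q / Nat.gcd (n % Q) Q)).filter (fun x => Gd δ κ w N (n % Q) x n)
      with hF
    have hgood : kk ≤ #F := by
      by_contra hg
      push Not at hg
      apply hnC
      rw [Finset.mem_biUnion]
      refine ⟨n % Q, Finset.mem_range.2 (Nat.mod_lt _ hQpos), ?_⟩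
      rw [Finset.mem_filter]
      refine ⟨?_, hg⟩
      unfold NN
      rw [Finset.mem_filter]
      exact ⟨hn.1, rfl⟩
    apply hn.2
    unfold Nice5
    set T := {k : ℕ | 0 < k ∧ (k : ℝ) ≤ c * Real.log N ^ 2 ∧
      ArithmeticFunction.cardFactors (n ^ 2 + k) ≤ 5 ∧
      ∀ p : ℕ, p.Prime → p ∣ n ^ 2 + k → pw N zE ≤ p} with hT
    have hTfin : T.Finite := by
      apply (Set.finite_Iic ⌊c * Real.log N ^ 2⌋₊).subset
      intro k hk
      exact Nat.le_floor hk.2.1
    have hinj : Set.InjOn (fun x : (_ : ℕ) × ℕ => x.1 * x.2 ^ 2)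
        (F : Set ((_ : ℕ) × ℕ)) := by
      intro x hx y hy hxy
      rw [Finset.mem_coe, hF, Finset.mem_filter] at hx hy
      obtain ⟨hx1, hx2, -⟩ := mem_Fam.1 hx.1
      obtain ⟨hy1, hy2, -⟩ := mem_Fam.1 hy.1
      obtain ⟨h1, h2⟩ := shift_inj (hKall _ hx1).1 (hKall _ hy1).1 (Finset.mem_Icc.1 hx2).1
        (Finset.mem_Icc.1 hy2).1 hxy
      rcases x with ⟨x1, x2⟩
      rcases y with ⟨y1, y2⟩
      simp only at h1 h2
      subst h1
      subst h2
      rfl
    have himg : ((F.image (fun x : (_ : ℕ) × ℕ => x.1 * x.2 ^ 2) : Finset ℕ) : Set ℕ) ⊆ T := by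
      intro k hk
      rw [Finset.mem_coe, Finset.mem_image] at hk
      obtain ⟨x, hx, rfl⟩ := hk
      rw [hF, Finset.mem_filter] at hx
      obtain ⟨hx, hAA, hRo, hmid, hsum⟩ := hx
      obtain ⟨hx1, hx2, hx3⟩ := mem_Fam.1 hx
      obtain ⟨hs1, hs2, hs3⟩ := hs x.1 hx1 x.2 hx2
      have hj1 : 1 ≤ x.2 := (Finset.mem_Icc.1 hx2).1
      have hqp := (hKall x.1 hx1).1
      have hkc : ((x.1 * x.2 ^ 2 : ℕ) : ℝ) ≤ c * Real.log N ^ 2 :=
        (jj_bound c hc x.1 N x.2 hqp.pos hx2).1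
      have hndvd : ∀ p : ℕ, p.Prime → zN N < p → ¬ p ∣ x.1 * x.2 := by
        intro p hp hpz h
        rcases (Nat.Prime.dvd_mul hp).1 h with h | h
        · have := Nat.le_of_dvd hqp.pos h; omega
        · have := Nat.le_of_dvd (by omega) h; omega
      have hbig : ∀ p : ℕ, p.Prime → p ∣ n ^ 2 + x.1 * x.2 ^ 2 → zN N < p := by
        intro p hp hpd
        by_contra hpz
        push Not at hpz
        rcases Nat.lt_or_ge w p with h | h
        · have hpS : p ∈ SS w N := by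
            unfold SS
            rw [Finset.mem_filter, Finset.mem_Ioc]
            exact ⟨⟨h, hpz⟩, hp⟩
          unfold AA at hAA
          exact (Finset.mem_filter.1 hAA).2.2 p hpS _ (Finset.mem_singleton_self _) hpd
        · exact cop_small w x.1 x.2 n p hp h hqp (hKall x.1 hx1).2.2 hx3 hpd
      have hPA : ∀ p : ℕ, p.Prime → p ∣ n ^ 2 + x.1 * x.2 ^ 2 → p < N → p ∈ PA x.1 N := by
        intro p hp hpd hpN
        have hz := hbig p hp hpd
        have hj := jac_of_dvd x.1 x.2 p n hqp (hKall x.1 hx1).2.1 hp (by omega) (hndvd p hp hz) hpd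
        unfold PA
        rw [Finset.mem_filter, Finset.mem_Ioo]
        exact ⟨⟨hz, hpN⟩, hp, hj⟩
      have hrough : ∀ p : ℕ, p.Prime → p ∣ n ^ 2 + x.1 * x.2 ^ 2 → pw N zE ≤ p := by
        intro p hp hpd
        by_contra hpz
        push Not at hpz
        have hpN := hpwN zE (by unfold zE; norm_num) p hpz
        have hA := hPA p hp hpd hpN
        rcases Nat.lt_or_ge p (pw N δ) with h | h
        · exact hRo p (by unfold Psm; rw [Finset.mem_filter]; exact ⟨hA, h⟩) hpd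
        · exact hmid p (by unfold Pbg; rw [Finset.mem_filter]; exact ⟨hA, h⟩) hpz hpd
      refine ⟨Nat.mul_pos hqp.pos (by positivity), hkc, ?_, hrough⟩
      apply hom n hn.1 _ hkc hrough
      · intro p hp hpα hpy hdvd
        apply hnS
        rw [hSq, Finset.mem_filter]
        exact ⟨hn.1, x.1, hx1, x.2, hx2, p, hp, hpα, hpy, hdvd⟩
      · refine lt_of_le_of_lt ?_ hsum
        apply mul_le_mul_of_nonneg_left _ (by unfold lam5; norm_num)
        apply Finset.sum_le_sum_of_subset_of_nonneg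
        · intro p hp
          rw [Finset.mem_filter, Nat.mem_primeFactors] at hp
          have hr := hrough p hp.1.1 hp.1.2.1
          rw [Finset.mem_filter]
          refine ⟨?_, hr, hp.2, hp.1.2.1⟩
          unfold Pbg
          rw [Finset.mem_filter]
          exact ⟨hPA p hp.1.1 hp.1.2.1 (hpwN yE (by unfold yE; norm_num) p hp.2), hpwδ.trans hr⟩
        · intro p hp _
          rw [Finset.mem_filter] at hp
          obtain ⟨hpP, -, hpy, -⟩ := hp
          unfold Pbg PA at hpP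
          rw [Finset.mem_filter, Finset.mem_filter] at hpP
          have hp1 : 1 ≤ p := hpP.1.2.1.one_le
          have hκ0 : (0 : ℝ) < κ := by exact_mod_cast (by omega : 0 < κ)
          have h1 := (Pool.Agent.Work.MP_2dba45_nt.Sv.lt_pw_iff_cost (1000 * κ) N p (450 * κ)
            (by omega) hN2 hp1).1 (by
              have e : (((450 * κ : ℕ) : ℝ) / ((1000 * κ : ℕ) : ℝ)) = yE := by
                unfold yE
                push_cast
                field_simp
                norm_num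
              rw [e]
              exact hpy)
          unfold wt5
          have h2 : (Pool.Agent.Work.MP_2dba45_nt.Sv.cost (1000 * κ) N p : ℝ) ≤ 450 * κ := by exact_mod_cast h1
          rw [sub_nonneg, div_le_one (by positivity)]
          linarith
    calc kk ≤ #F := hgood
      _ = #(F.image (fun x : (_ : ℕ) × ℕ => x.1 * x.2 ^ 2)) :=
          (Finset.card_image_of_injOn hinj).symm
      _ = Set.ncard ((F.image (fun x : (_ : ℕ) × ℕ => x.1 * x.2 ^ 2) : Finset ℕ) : Set ℕ) :=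
          (Set.ncard_coe_finset _).symm
      _ ≤ T.ncard := Set.ncard_le_ncard himg hTfin
  have h1 : (#((Ioc N (2 * N)).filter (fun n => ¬ Nice5 c kk N n)) : ℝ) ≤
      (#Sq : ℝ) + ∑ a ∈ range Q, (#((NN w N a).filter (fun n => #((Fam c K N Q
          (Q / Nat.gcd a Q)).filter (fun x => Gd δ κ w N a x n)) < kk)) : ℝ) := by
    have h2 := (Finset.card_le_card hsub).trans ((Finset.card_union_le _ _).trans
      (Nat.add_le_add_left Finset.card_biUnion_le _))
    exact_mod_cast h2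
  refine h1.trans ?_
  have h3 : ∑ a ∈ range Q, (#((NN w N a).filter (fun n => #((Fam c K N Q
          (Q / Nat.gcd a Q)).filter (fun x => Gd δ κ w N a x n)) < kk)) : ℝ) ≤
      ε / 2 * N := by
    calc _ ≤ ∑ a ∈ range Q, ε / 2 * ((N : ℝ) / Q) :=
          Finset.sum_le_sum fun a ha => hclsN a (Finset.mem_range.1 ha)
      _ = ε / 2 * N := by
          rw [Finset.sum_const, Finset.card_range, nsmul_eq_mul]
          field_simp
  linarith

theorem almost_all5 (c ε : ℝ) (hc : 0 < c) (hε : 0 < ε) (kk : ℕ) : ∀ᶠ N : ℕ in atTop,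
    ({n : ℕ | 1 ≤ n ∧ n ≤ N ∧ {m : ℕ | n ^ 2 < m ∧
      (m : ℝ) ≤ (n : ℝ) ^ 2 + c * Real.log n ^ 2 ∧ ArithmeticFunction.cardFactors m ≤ 5 ∧
      ∀ p : ℕ, p.Prime → p ∣ m → (n : ℝ) ^ ((9 : ℝ) / 50) < p}.ncard < kk}.ncard : ℝ) ≤ ε * N := by
  classical
  have hdy := dyadic5 c (ε / 3) hc (by positivity) kk
  have h := from_dyadic (fun n => {m : ℕ | n ^ 2 < m ∧
      (m : ℝ) ≤ (n : ℝ) ^ 2 + c * Real.log n ^ 2 ∧ ArithmeticFunction.cardFactors m ≤ 5 ∧
      ∀ p : ℕ, p.Prime → p ∣ m → (n : ℝ) ^ ((9 : ℝ) / 50) < p}.ncard < kk) (ε / 3)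
      (by positivity) ?_
  · filter_upwards [h] with N hN
    refine hN.trans (le_of_eq ?_)
    ring
  · filter_upwards [hdy, eventually_gt_atTop (2 ^ 18)] with N hN h2
    have hN0 : (0 : ℝ) < N := by exact_mod_cast (by omega : 0 < N)
    have hroot : (2 : ℝ) < (N : ℝ) ^ ((1 : ℝ) / 18) := by
      have h3 : ((2 : ℝ) ^ (18 : ℕ)) < N := by exact_mod_cast h2
      have h4 := Real.rpow_lt_rpow (by positivity) h3 (by norm_num : (0 : ℝ) < 1 / 18)
      rwa [← Real.rpow_natCast, ← Real.rpow_mul (by norm_num),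
        show (((18 : ℕ) : ℝ) * (1 / 18)) = 1 by norm_num, Real.rpow_one] at h4
    have hsub : {n : ℕ | N < n ∧ n ≤ 2 * N ∧ {m : ℕ | n ^ 2 < m ∧
        (m : ℝ) ≤ (n : ℝ) ^ 2 + c * Real.log n ^ 2 ∧ ArithmeticFunction.cardFactors m ≤ 5 ∧
        ∀ p : ℕ, p.Prime → p ∣ m → (n : ℝ) ^ ((9 : ℝ) / 50) < p}.ncard < kk} ⊆
        ((Ioc N (2 * N)).filter (fun n => ¬ Nice5 c kk N n) : Finset ℕ) := by
      intro n hn
      obtain ⟨hn1, hn2, hn3⟩ := hn
      simp only [Finset.coe_filter, Finset.mem_Ioc, Set.mem_ofPred_eq]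
      refine ⟨⟨hn1, hn2⟩, ?_⟩
      intro hnice
      unfold Nice5 at hnice
      have hn0 : (0 : ℝ) < n := by exact_mod_cast (by omega : 0 < n)
      have hNn : (N : ℝ) ≤ n := by exact_mod_cast hn1.le
      have hlog : Real.log N ≤ Real.log n := Real.log_le_log hN0 hNn
      have hlog0 : 0 ≤ Real.log N := Real.log_natCast_nonneg N
      have hlt : (n : ℝ) ^ ((9 : ℝ) / 50) < (N : ℝ) ^ zE := by
        have h4 : (n : ℝ) < (N : ℝ) ^ ((19 : ℝ) / 18) := by
          have h5 : (n : ℝ) ≤ 2 * N := by exact_mod_cast hn2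
          have h6 : (N : ℝ) ^ ((19 : ℝ) / 18) = N * (N : ℝ) ^ ((1 : ℝ) / 18) := by
            rw [show ((19 : ℝ) / 18) = 1 + 1 / 18 by norm_num, Real.rpow_add hN0, Real.rpow_one]
          rw [h6]
          nlinarith
        calc (n : ℝ) ^ ((9 : ℝ) / 50) < ((N : ℝ) ^ ((19 : ℝ) / 18)) ^ ((9 : ℝ) / 50) :=
              Real.rpow_lt_rpow hn0.le h4 (by norm_num)
          _ = (N : ℝ) ^ zE := by
              rw [← Real.rpow_mul hN0.le]
              congr 1
              unfold zE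
              norm_num
      refine absurd (hnice.trans ?_) (not_le.2 hn3)
      have hfin : {m : ℕ | n ^ 2 < m ∧
          (m : ℝ) ≤ (n : ℝ) ^ 2 + c * Real.log n ^ 2 ∧ ArithmeticFunction.cardFactors m ≤ 5 ∧
          ∀ p : ℕ, p.Prime → p ∣ m → (n : ℝ) ^ ((9 : ℝ) / 50) < p}.Finite := by
        apply (Set.finite_Iic ⌊(n : ℝ) ^ 2 + c * Real.log n ^ 2⌋₊).subset
        intro m hm
        exact Nat.le_floor hm.2.1
      apply Set.ncard_le_ncard_of_injOn (fun k => n ^ 2 + k) _ _ hfin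
      · rintro k ⟨hk0, hkc, hom, hr⟩
        refine ⟨by omega, ?_, hom, fun p hp hpd => ?_⟩
        · push_cast
          have h5 : c * Real.log N ^ 2 ≤ c * Real.log n ^ 2 := by gcongr
          linarith
        · have h6 := hr p hp hpd
          rw [← not_lt, Pool.Agent.Work.MP_2dba45_nt.Sv.lt_pw_iff, not_lt] at h6
          exact hlt.trans_le h6
      · intro a _ b _ hab
        simp only at hab
        omega
    calc _ ≤ (#((Ioc N (2 * N)).filter (fun n => ¬ Nice5 c kk N n)) : ℝ) := by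
          rw [← Set.ncard_coe_finset]
          exact_mod_cast Set.ncard_le_ncard hsub (Finset.finite_toSet _)
      _ ≤ ε / 3 * N := hN

end Pool.Agent.Work.MP_73869e_nt.P5
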